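import Mathlib

set_option autoImplicit false

/-!
# Rational `2 × 2` matrices of finite order
-/

namespace Pool.Agent.H447.Gal

open Matrix

/-- rational `2 × 2` matrices -/
abbrev M2 : Type := Matrix (Fin 2) (Fin 2) ℚ

theorem ch (A : M2) : A * A = A.trace • A - A.det • (1 : M2) := by
  ext i j
  fin_cases i <;> fin_cases j <;>
    simp [Matrix.mul_apply, Fin.sum_univ_two, trace_fin_two, det_fin_two] <;> ring

theorem exists_root (A : M2) {m : ℕ} (hA : A ^ m = 1) :
    ∃ l : ℂ, l ^ m = 1 ∧ l ^ 2 - (A.trace : ℂ) * l + (A.det : ℂ) = 0 := by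
  obtain ⟨d, hd⟩ := IsAlgClosed.exists_pow_nat_eq (((A.trace : ℂ)) ^ 2 - 4 * (A.det : ℂ))
    (n := 2) (by norm_num)
  have hroot : (((A.trace : ℂ) + d) / 2) ^ 2 - (A.trace : ℂ) * (((A.trace : ℂ) + d) / 2)
      + (A.det : ℂ) = 0 := by
    have : (((A.trace : ℂ) + d) / 2) ^ 2 - (A.trace : ℂ) * (((A.trace : ℂ) + d) / 2)
      + (A.det : ℂ) = (d ^ 2 - ((A.trace : ℂ) ^ 2 - 4 * (A.det : ℂ))) / 4 := by ring
    rw [this, hd, sub_self, zero_div]
  refine ⟨((A.trace : ℂ) + d) / 2, ?_, hroot⟩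
  generalize ((A.trace : ℂ) + d) / 2 = l at hroot ⊢
  let B : Matrix (Fin 2) (Fin 2) ℂ := A.map (algebraMap ℚ ℂ)
  have hB : B ^ m = 1 := by
    have h1 : B ^ m = (A ^ m).map (algebraMap ℚ ℂ) := by
      have := (map_pow (RingHom.mapMatrix (m := Fin 2) (algebraMap ℚ ℂ)) A m).symm
      exact this
    rw [h1, hA]
    exact map_one (RingHom.mapMatrix (m := Fin 2) (algebraMap ℚ ℂ))
  have hdet : (B - l • (1 : Matrix (Fin 2) (Fin 2) ℂ)).det = 0 := by
    rw [det_fin_two]
    rw [trace_fin_two, det_fin_two] at hroot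
    push_cast at hroot
    simp only [Matrix.sub_apply, Matrix.smul_apply, Matrix.one_apply, smul_eq_mul, B,
      Matrix.map_apply, Fin.isValue, eq_ratCast]
    simp only [Fin.isValue, if_true, mul_one, show (0 : Fin 2) ≠ 1 by decide,
      show (1 : Fin 2) ≠ 0 by decide, if_false, mul_zero, sub_zero]
    linear_combination hroot
  obtain ⟨v, hv0, hv⟩ := Matrix.exists_mulVec_eq_zero_iff.mpr hdet
  have h1 : B *ᵥ v = l • v := by
    rw [Matrix.sub_mulVec, sub_eq_zero] at hv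
    rw [hv, Matrix.smul_mulVec, Matrix.one_mulVec]
  have h2 : ∀ k : ℕ, (B ^ k) *ᵥ v = (l ^ k) • v := by
    intro k
    induction k with
    | zero => simp
    | succ k ih =>
      rw [pow_succ, ← Matrix.mulVec_mulVec, h1, Matrix.mulVec_smul, ih, smul_smul, pow_succ,
        mul_comm]
  have h3 := h2 m
  rw [hB, Matrix.one_mulVec] at h3
  by_contra hne
  apply hv0
  have h4 : (l ^ m - 1) • v = 0 := by rw [sub_smul, one_smul, ← h3, sub_self]
  exact (smul_eq_zero.mp h4).resolve_left (sub_ne_zero.mpr hne)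

theorem det_cases (A : M2) {m : ℕ} (hm : m ≠ 0) (hA : A ^ m = 1) : A.det = 1 ∨ A.det = -1 := by
  have h : A.det ^ m = 1 := by rw [← det_pow, hA, det_one]
  rcases pow_eq_one_iff_cases.mp h with h | h | h
  · exact absurd h hm
  · exact Or.inl h
  · exact Or.inr h.1

theorem trace_of_det_neg (A : M2) {m : ℕ} (hm : m ≠ 0) (hA : A ^ m = 1) (hd : A.det = -1) :
    A.trace = 0 := by
  obtain ⟨l, hl, h⟩ := exists_root A hA
  have hn : ‖l‖ = 1 := Complex.norm_eq_one_of_pow_eq_one hl hm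
  have hc : l * (starRingEnd ℂ) l = 1 := by
    rw [Complex.mul_conj, Complex.normSq_eq_norm_sq, hn]
    norm_num
  have hl0 : l ≠ 0 := by
    rintro rfl
    rw [norm_zero] at hn
    exact one_ne_zero hn.symm
  have h1 : (A.trace : ℂ) = l - (starRingEnd ℂ) l := by
    apply mul_left_cancel₀ hl0
    rw [hd] at h
    push_cast at h
    linear_combination -h + hc
  have h2 := congrArg Complex.re h1
  simp only [Complex.ratCast_re, Complex.sub_re, Complex.conj_re, sub_self] at h2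
  exact_mod_cast h2

theorem trace_of_det_one (A : M2) {m : ℕ} (hm : m ≠ 0) (hA : A ^ m = 1) (hd : A.det = 1) :
    A.trace = 2 ∨ A.trace = 1 ∨ A.trace = 0 ∨ A.trace = -1 ∨ A.trace = -2 := by
  obtain ⟨l, hl, h⟩ := exists_root A hA
  have hn : ‖l‖ = 1 := Complex.norm_eq_one_of_pow_eq_one hl hm
  have hc : l * (starRingEnd ℂ) l = 1 := by
    rw [Complex.mul_conj, Complex.normSq_eq_norm_sq, hn]
    norm_num
  have hl0 : l ≠ 0 := by
    rintro rfl
    rw [norm_zero] at hn
    exact one_ne_zero hn.symm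
  have h1 : (A.trace : ℂ) = l + (starRingEnd ℂ) l := by
    apply mul_left_cancel₀ hl0
    rw [hd] at h
    push_cast at h
    linear_combination -h - hc
  have hint : IsIntegral ℤ l :=
    ⟨Polynomial.X ^ m - 1, Polynomial.monic_X_pow_sub_C (1 : ℤ) hm, by simp [hl]⟩
  have hint' : IsIntegral ℤ ((starRingEnd ℂ) l) :=
    hint.map (((starRingEnd ℂ)).toIntAlgHom)
  have h2 : IsIntegral ℤ ((algebraMap ℚ ℂ) A.trace) := by
    have : (algebraMap ℚ ℂ) A.trace = (A.trace : ℂ) := rfl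
    rw [this, h1]
    exact hint.add hint'
  have h3 : IsIntegral ℤ A.trace := (isIntegral_algebraMap_iff (algebraMap ℚ ℂ).injective).mp h2
  obtain ⟨z, hz⟩ := IsIntegrallyClosed.isIntegral_iff.mp h3
  have hz' : (z : ℚ) = A.trace := hz
  have h4 : ‖(A.trace : ℂ)‖ ≤ 2 := by
    rw [h1]
    calc ‖l + (starRingEnd ℂ) l‖ ≤ ‖l‖ + ‖(starRingEnd ℂ) l‖ := norm_add_le _ _
      _ = 2 := by rw [RCLike.norm_conj, hn]; norm_num
  have h5 : |(A.trace : ℝ)| ≤ 2 := by
    have : (A.trace : ℂ) = ((A.trace : ℝ) : ℂ) := by push_cast; rfl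
    rw [this, Complex.norm_real] at h4
    exact h4
  rw [← hz'] at h5 ⊢
  have h6 : |z| ≤ 2 := by
    have : |((z : ℚ) : ℝ)| = ((|z| : ℤ) : ℝ) := by push_cast; rfl
    rw [this] at h5
    exact_mod_cast h5
  have h7 := abs_le.mp h6
  obtain ⟨h8, h9⟩ := h7
  have : z = 2 ∨ z = 1 ∨ z = 0 ∨ z = -1 ∨ z = -2 := by omega
  rcases this with h | h | h | h | h <;> subst h <;> norm_num

theorem unipotent_pow (B : M2) (hB : B * B = 0) (m : ℕ) : (1 + B) ^ m = 1 + (m : ℚ) • B := by
  induction m with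
  | zero => simp
  | succ m ih =>
    rw [pow_succ, ih, mul_add, mul_one, add_mul, one_mul, smul_mul_assoc, hB, smul_zero, add_zero]
    push_cast
    rw [add_smul, one_smul]
    abel

theorem eq_one_of_trace (A : M2) {m : ℕ} (hm : m ≠ 0) (hA : A ^ m = 1) (hd : A.det = 1)
    (ht : A.trace = 2) : A = 1 := by
  have hB : (A - 1) * (A - 1) = 0 := by
    have := ch A
    rw [hd, ht] at this
    rw [sub_mul, mul_sub, mul_one, one_mul, this]
    rw [two_smul, one_smul]
    abel
  have h := unipotent_pow (A - 1) hB m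
  rw [add_sub_cancel, hA] at h
  have h1 : (m : ℚ) • (A - 1) = 0 := by
    have := h.symm
    rwa [add_eq_left] at this
  have h2 := (smul_eq_zero.mp h1).resolve_left (by exact_mod_cast hm)
  exact sub_eq_zero.mp h2

theorem eq_neg_one_of_trace (A : M2) {m : ℕ} (hm : m ≠ 0) (hA : A ^ m = 1) (hd : A.det = 1)
    (ht : A.trace = -2) : A = -1 := by
  have h : -A = 1 := by
    apply eq_one_of_trace (-A) (m := 2 * m) (by omega)
    · rw [pow_mul, neg_sq, ← pow_mul, mul_comm, pow_mul, hA, one_pow]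
    · rw [det_fin_two] at hd ⊢
      simp only [Matrix.neg_apply]
      linarith
    · rw [trace_neg, ht, neg_neg]
  rw [← h, neg_neg]

end Pool.Agent.H447.Gal
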