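import Mathlib
import Pool.Agent.H447.Gal.Mat

set_option autoImplicit false

/-!
# Nilpotent elements of the rational group algebra of a finite group
-/

namespace Pool.Agent.H447.Gal

open MonoidAlgebra

variable {G : Type} [Group G]

/-- The element of the group algebra belonging to a group element. -/
noncomputable abbrev el (g : G) : MonoidAlgebra ℚ G := MonoidAlgebra.single g 1

theorem el_mul (g h : G) : el (g * h) = el g * el h := by
  rw [el, el, el, MonoidAlgebra.single_mul_single, mul_one]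

theorem el_one : el (1 : G) = 1 := rfl

theorem el_pow (g : G) (k : ℕ) : el (g ^ k) = el g ^ k := by
  induction k with
  | zero => rw [pow_zero, pow_zero, el_one]
  | succ k ih => rw [pow_succ, el_mul, ih, pow_succ]

/-- The sum of the powers of `h`. -/
noncomputable def hs (h : G) : MonoidAlgebra ℚ G := ∑ k ∈ Finset.range (orderOf h), el (h ^ k)

theorem hs_mul_el (h : G) : hs h * el h = hs h := by
  unfold hs
  rw [Finset.sum_mul]
  have h1 : ∀ k ∈ Finset.range (orderOf h), el (h ^ k) * el h = el (h ^ (k + 1)) := by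
    intro k _
    rw [← el_mul, pow_succ]
  rw [Finset.sum_congr rfl h1]
  have h2 := Finset.sum_range_succ (fun k => el (h ^ k)) (orderOf h)
  have h3 := Finset.sum_range_succ' (fun k => el (h ^ k)) (orderOf h)
  rw [h2] at h3
  rw [pow_orderOf_eq_one, pow_zero] at h3
  exact (add_right_cancel h3).symm

theorem el_mul_hs (h : G) : el h * hs h = hs h := by
  have h1 : el h * hs h = hs h * el h := by
    unfold hs
    rw [Finset.sum_mul, Finset.mul_sum]
    refine Finset.sum_congr rfl fun k _ => ?_
    rw [← el_mul, ← el_mul, ← pow_succ, ← pow_succ']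
  rw [h1, hs_mul_el]

theorem hs_coeff_of_not {h x : G} (hx : x ∉ Subgroup.zpowers h) : (hs h).coeff x = 0 := by
  classical
  unfold hs
  rw [coeff_sum, Finsupp.finset_sum_apply]
  refine Finset.sum_eq_zero fun k _ => ?_
  rw [coeff_single_apply, if_neg]
  rintro rfl
  exact hx (Subgroup.npow_mem_zpowers h k)

theorem hs_coeff_one [Finite G] (h : G) : (hs h).coeff 1 = 1 := by
  classical
  unfold hs
  rw [coeff_sum, Finsupp.finset_sum_apply, Finset.sum_eq_single 0]
  · rw [pow_zero, coeff_single_apply, if_pos rfl]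
  · intro k hk hk0
    rw [coeff_single_apply, if_neg]
    intro h1
    exact hk0 (Nat.eq_zero_of_dvd_of_lt (orderOf_dvd_of_pow_eq_one h1) (Finset.mem_range.mp hk))
  · intro h1
    exact absurd (Finset.mem_range.mpr (orderOf_pos h)) h1

theorem hs_coeff_nonneg (h x : G) : 0 ≤ (hs h).coeff x := by
  classical
  unfold hs
  rw [coeff_sum, Finsupp.finset_sum_apply]
  refine Finset.sum_nonneg fun k _ => ?_
  rw [coeff_single_apply]
  split_ifs <;> norm_num

/-- The element `(1 - h) g ĥ` of square zero. -/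
noncomputable def nb (h g : G) : MonoidAlgebra ℚ G := (1 - el h) * el g * hs h

theorem nb_sq (h g : G) : nb h g * nb h g = 0 := by
  have h1 : hs h * (1 - el h) = 0 := by rw [mul_sub, mul_one, hs_mul_el, sub_self]
  unfold nb
  calc (1 - el h) * el g * hs h * ((1 - el h) * el g * hs h)
      = (1 - el h) * el g * (hs h * (1 - el h)) * el g * hs h := by noncomm_ring
    _ = 0 := by rw [h1]; simp

theorem nb_coeff (h g x : G) :
    (nb h g).coeff x = (hs h).coeff (g⁻¹ * x) - (hs h).coeff (g⁻¹ * (h⁻¹ * x)) := by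
  have : nb h g = el g * hs h - el h * (el g * hs h) := by
    unfold nb
    rw [sub_mul, one_mul, sub_mul, mul_assoc]
  rw [this, coeff_sub, Finsupp.sub_apply, coeff_single_mul_apply, coeff_single_mul_apply,
    coeff_single_mul_apply, one_mul, one_mul, one_mul]

theorem nb_coeff_self [Finite G] {h g : G} (hg : g⁻¹ * h * g ∉ Subgroup.zpowers h) :
    (nb h g).coeff g = 1 := by
  rw [nb_coeff, inv_mul_cancel, hs_coeff_one, hs_coeff_of_not, sub_zero]
  intro h1
  apply hg
  have h2 := Subgroup.inv_mem _ h1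
  rw [mul_inv_rev, mul_inv_rev, inv_inv, inv_inv] at h2
  exact h2

theorem nb_ne_zero [Finite G] {h g : G} (hg : g⁻¹ * h * g ∉ Subgroup.zpowers h) : nb h g ≠ 0 := by
  intro h1
  have h2 := nb_coeff_self hg
  rw [h1, coeff_zero, Finsupp.zero_apply] at h2
  exact zero_ne_one h2

theorem mem_of_nb_pos {h g x : G} (hx : 0 < (nb h g).coeff x) :
    g⁻¹ * x ∈ Subgroup.zpowers h := by
  by_contra hcon
  rw [nb_coeff, hs_coeff_of_not hcon] at hx
  have := hs_coeff_nonneg h (g⁻¹ * (h⁻¹ * x))
  linarith

theorem mem_of_nb_neg {h g x : G} (hx : (nb h g).coeff x < 0) :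
    g⁻¹ * (h⁻¹ * x) ∈ Subgroup.zpowers h := by
  by_contra hcon
  rw [nb_coeff, hs_coeff_of_not hcon] at hx
  have := hs_coeff_nonneg h (g⁻¹ * x)
  linarith

theorem mem_of_nb_mul [Finite G] {h g n : G} (hg : g⁻¹ * h * g ∉ Subgroup.zpowers h)
    (hn : nb h g * el n = nb h g) : n ∈ Subgroup.zpowers h := by
  have h1 : (nb h g * el n).coeff (g * n) = 1 := by
    rw [coeff_mul_single_apply, mul_one, mul_inv_cancel_right, nb_coeff_self hg]
  rw [hn] at h1
  have h2 := mem_of_nb_pos (h := h) (g := g) (x := g * n) (by rw [h1]; norm_num)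
  rwa [inv_mul_cancel_left] at h2

theorem mem_of_nb_mul_neg [Finite G] {h g n : G} (hg : g⁻¹ * h * g ∉ Subgroup.zpowers h)
    (hn : nb h g * el n = - nb h g) : g⁻¹ * (h⁻¹ * (g * n)) ∈ Subgroup.zpowers h := by
  have h1 : (nb h g * el n).coeff (g * n) = 1 := by
    rw [coeff_mul_single_apply, mul_one, mul_inv_cancel_right, nb_coeff_self hg]
  rw [hn] at h1
  apply mem_of_nb_neg
  have h2 : (-nb h g).coeff (g * n) = - (nb h g).coeff (g * n) := rfl
  rw [h2] at h1
  linarith

/-- A two-dimensional representation with scalar commutant which detects the multiples of the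
elements of square zero with the property `P`. -/
structure Key (P : MonoidAlgebra ℚ G → Prop) (ρ : G →* M2) : Prop where
  comm : ∀ A : M2, (∀ g, A * ρ g = ρ g * A) → ∃ r : ℚ, A = r • (1 : M2)
  sep : ∀ b x : MonoidAlgebra ℚ G, b * b = 0 → P b →
    MonoidAlgebra.lift ℚ M2 G ρ (b * x) = 0 → b * x = 0

variable {P : MonoidAlgebra ℚ G → Prop} {ρ : G →* M2}

theorem lift_el (g : G) : MonoidAlgebra.lift ℚ M2 G ρ (el g) = ρ g := by
  rw [el, MonoidAlgebra.lift_single, one_smul]

theorem Key.mul_el (k : Key P ρ) {b : MonoidAlgebra ℚ G} (hb : b * b = 0) (hP : P b) {n : G}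
    (hn : ρ n = 1) : b * el n = b := by
  have h := k.sep b (el n - 1) hb hP (by rw [map_mul, map_sub, lift_el, hn, map_one, sub_self,
    mul_zero])
  rw [mul_sub, mul_one] at h
  exact sub_eq_zero.mp h

theorem Key.mul_el_neg (k : Key P ρ) {b : MonoidAlgebra ℚ G} (hb : b * b = 0) (hP : P b) {n : G}
    (hn : ρ n = -1) : b * el n = -b := by
  have h := k.sep b (el n + 1) hb hP (by rw [map_mul, map_add, lift_el, hn, map_one,
    neg_add_cancel, mul_zero])
  rw [mul_add, mul_one] at h
  exact eq_neg_of_add_eq_zero_left h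

theorem Key.lift_ne (k : Key P ρ) {b : MonoidAlgebra ℚ G} (hb : b * b = 0) (hP : P b)
    (hb0 : b ≠ 0) : MonoidAlgebra.lift ℚ M2 G ρ b ≠ 0 := by
  intro h
  apply hb0
  have := k.sep b 1 hb hP (by rw [mul_one, h])
  rwa [mul_one] at this

end Pool.Agent.H447.Gal
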