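import Mathlib
import Pool.Agent.H447.Gal.Mat

set_option autoImplicit false
set_option linter.unusedSectionVars false

/-!
# Finite groups of rational `2 × 2` matrices with scalar commutant
-/

namespace Pool.Agent.H447.Gal

open Matrix

variable {G : Type} [Group G] [Finite G] {ρ : G →* M2}

theorem rho_pow_card (ρ : G →* M2) (g : G) : ρ g ^ (Nat.card G) = 1 := by
  rw [← map_pow, pow_card_eq_one', map_one]

theorem rho_det (ρ : G →* M2) (g : G) : (ρ g).det = 1 ∨ (ρ g).det = -1 :=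
  det_cases (ρ g) Nat.card_pos.ne' (rho_pow_card ρ g)

omit [Finite G] in
theorem rho_mul_inv (ρ : G →* M2) (g : G) : ρ g * ρ g⁻¹ = 1 := by
  rw [← map_mul, mul_inv_cancel, map_one]

omit [Finite G] in
theorem rho_inv_mul (ρ : G →* M2) (g : G) : ρ g⁻¹ * ρ g = 1 := by
  rw [← map_mul, inv_mul_cancel, map_one]

omit [Finite G] in
theorem det_mul' (ρ : G →* M2) (g h : G) : (ρ (g * h)).det = (ρ g).det * (ρ h).det := by
  rw [map_mul, det_mul]

theorem det_inv' (ρ : G →* M2) (g : G) : (ρ g⁻¹).det = (ρ g).det := by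
  have h := congrArg det (rho_mul_inv ρ g)
  rw [det_mul, det_one] at h
  rcases rho_det ρ g with h1 | h1 <;> rw [h1] at h ⊢ <;> linarith

/-- elements of determinant `-1` act as involutions -/
theorem rho_sq_of_neg {h : G} (hh : (ρ h).det = -1) : ρ h * ρ h = 1 := by
  have h1 := trace_of_det_neg (ρ h) Nat.card_pos.ne' (rho_pow_card ρ h) hh
  rw [ch, h1, hh, zero_smul, zero_sub, neg_smul, neg_neg, one_smul]

theorem rho_conj {h t : G} (hh : (ρ h).det = -1) (ht : (ρ t).det = 1) :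
    ρ (h * t * h⁻¹) = ρ t⁻¹ := by
  have h1 : (ρ (h * t)).det = -1 := by rw [det_mul', hh, ht, mul_one]
  have h2 := rho_sq_of_neg h1
  have h3 := rho_sq_of_neg hh
  have h4 : ρ h⁻¹ = ρ h := by
    calc ρ h⁻¹ = ρ h⁻¹ * (ρ h * ρ h) := by rw [h3, mul_one]
      _ = (ρ h⁻¹ * ρ h) * ρ h := by rw [mul_assoc]
      _ = ρ h := by rw [rho_inv_mul, one_mul]
  have h5 : ρ h * ρ t * (ρ h * ρ t) = 1 := by rw [← map_mul, h2]
  calc ρ (h * t * h⁻¹) = ρ h * ρ t * ρ h := by rw [map_mul, map_mul, h4]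
    _ = (ρ h * ρ t * (ρ h * ρ t)) * ρ t⁻¹ := by
        rw [mul_assoc (ρ h * ρ t) (ρ h * ρ t) (ρ t⁻¹), mul_assoc (ρ h) (ρ t) (ρ t⁻¹), rho_mul_inv,
          mul_one]
    _ = ρ t⁻¹ := by rw [h5, one_mul]

theorem rho_comm {h s t : G} (hh : (ρ h).det = -1) (hs : (ρ s).det = 1) (ht : (ρ t).det = 1) :
    ρ s * ρ t = ρ t * ρ s := by
  have h1 : (ρ (s * t)).det = 1 := by rw [det_mul', hs, ht, mul_one]
  have h2 := rho_conj hh h1
  have h3 : ρ (h * (s * t) * h⁻¹) = ρ s⁻¹ * ρ t⁻¹ := by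
    rw [← rho_conj hh hs, ← rho_conj hh ht, ← map_mul]
    congr 1
    group
  rw [h3, _root_.mul_inv_rev, map_mul] at h2
  calc ρ s * ρ t = ρ s * ρ t * (ρ s⁻¹ * ρ t⁻¹ * ρ t * ρ s) := by
        rw [mul_assoc (ρ s⁻¹), rho_inv_mul, mul_one, rho_inv_mul, mul_one]
    _ = ρ s * (ρ t * (ρ s⁻¹ * ρ t⁻¹) * (ρ t * ρ s)) := by simp only [mul_assoc]
    _ = ρ s * (ρ t * (ρ t⁻¹ * ρ s⁻¹) * (ρ t * ρ s)) := by rw [h2]
    _ = ρ s * ((ρ t * ρ t⁻¹) * ρ s⁻¹ * (ρ t * ρ s)) := by simp only [mul_assoc]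
    _ = (ρ s * ρ s⁻¹) * (ρ t * ρ s) := by rw [rho_mul_inv, one_mul, mul_assoc]
    _ = ρ t * ρ s := by rw [rho_mul_inv, one_mul]

/-- scalar matrices -/
def IsScal (A : M2) : Prop := ∃ r : ℚ, A = r • (1 : M2)

theorem isScal_iff (A : M2) : IsScal A ↔ A 0 1 = 0 ∧ A 1 0 = 0 ∧ A 0 0 = A 1 1 := by
  constructor
  · rintro ⟨r, rfl⟩
    simp
  · rintro ⟨h1, h2, h3⟩
    refine ⟨A 0 0, ?_⟩
    ext i j
    fin_cases i <;> fin_cases j <;> simp [h1, h2, h3]

/-- what commutes with a matrix which is not scalar is a polynomial in it -/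
theorem exists_of_comm {A B : M2} (hA : ¬ IsScal A) (h : A * B = B * A) :
    ∃ x y : ℚ, B = x • A + y • (1 : M2) := by
  rw [isScal_iff] at hA
  have e := fun i j => congrArg (fun M : M2 => M i j) h
  have e00 := e 0 0
  have e01 := e 0 1
  have e10 := e 1 0
  simp only [Matrix.mul_apply, Fin.sum_univ_two, Fin.isValue] at e00 e01 e10
  by_cases h1 : A 0 1 = 0
  · by_cases h2 : A 1 0 = 0
    · have h3 : A 0 0 - A 1 1 ≠ 0 := by
        intro h3
        exact hA ⟨h1, h2, sub_eq_zero.mp h3⟩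
      have h4 : B 0 1 = 0 := by
        rw [h1] at e01
        have : (A 0 0 - A 1 1) * B 0 1 = 0 := by linarith
        exact (mul_eq_zero.mp this).resolve_left h3
      have h5 : B 1 0 = 0 := by
        rw [h2] at e10
        have : (A 0 0 - A 1 1) * B 1 0 = 0 := by linarith
        exact (mul_eq_zero.mp this).resolve_left h3
      refine ⟨(B 0 0 - B 1 1) / (A 0 0 - A 1 1),
        B 0 0 - (B 0 0 - B 1 1) / (A 0 0 - A 1 1) * A 0 0, ?_⟩
      ext i j
      fin_cases i <;> fin_cases j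
      · simp
      · simp [h1, h4]
      · simp [h2, h5]
      · simp only [Fin.mk_one, Fin.isValue, Matrix.add_apply, Matrix.smul_apply, smul_eq_mul,
          Matrix.one_apply_eq, mul_one]
        field_simp
        ring
    · refine ⟨B 1 0 / A 1 0, B 0 0 - B 1 0 / A 1 0 * A 0 0, ?_⟩
      have h4 : B 0 1 = 0 := by
        rw [h1] at e00
        have : A 1 0 * B 0 1 = 0 := by linarith
        exact (mul_eq_zero.mp this).resolve_left h2
      ext i j
      fin_cases i <;> fin_cases j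
      · simp
      · simp [h1, h4]
      · simp only [Fin.mk_one, Fin.isValue, Fin.zero_eta, Matrix.add_apply, Matrix.smul_apply,
          smul_eq_mul]
        simp [h2]
      · simp only [Fin.mk_one, Fin.isValue, Matrix.add_apply, Matrix.smul_apply, smul_eq_mul,
          Matrix.one_apply_eq, mul_one]
        field_simp
        linarith
  · refine ⟨B 0 1 / A 0 1, B 0 0 - B 0 1 / A 0 1 * A 0 0, ?_⟩
    ext i j
    fin_cases i <;> fin_cases j
    · simp
    · simp [h1]
    · simp only [Fin.mk_one, Fin.isValue, Fin.zero_eta, Matrix.add_apply, Matrix.smul_apply,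
        smul_eq_mul]
      simp only [Fin.isValue, ne_eq, one_ne_zero, not_false_eq_true, Matrix.one_apply_ne, mul_zero,
        add_zero]
      field_simp
      linarith
    · simp only [Fin.mk_one, Fin.isValue, Matrix.add_apply, Matrix.smul_apply, smul_eq_mul,
        Matrix.one_apply_eq, mul_one]
      field_simp
      linarith

theorem det_lin (A : M2) (x y : ℚ) :
    (x • A + y • (1 : M2)).det = x ^ 2 * A.det + x * y * A.trace + y ^ 2 := by
  rw [det_fin_two, det_fin_two, trace_fin_two]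
  simp
  ring

theorem trace_lin (A : M2) (x y : ℚ) : (x • A + y • (1 : M2)).trace = x * A.trace + 2 * y := by
  rw [trace_fin_two, trace_fin_two]
  simp
  ring

omit [Finite G] in
theorem exists_not_scal (hc : ∀ A : M2, (∀ g, A * ρ g = ρ g * A) → IsScal A) :
    ∃ g, ¬ IsScal (ρ g) := by
  by_contra hcon
  push Not at hcon
  have h := hc !![0, 1; 0, 0] (fun g => by
    obtain ⟨r, hr⟩ := hcon g
    rw [hr, smul_mul_assoc, mul_smul_comm, one_mul, mul_one])
  rw [isScal_iff] at h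
  have := h.1
  simp at this

omit [Finite G] in
theorem exists_not_comm (hc : ∀ A : M2, (∀ g, A * ρ g = ρ g * A) → IsScal A) {A : M2}
    (hA : ¬ IsScal A) : ∃ g, A * ρ g ≠ ρ g * A := by
  by_contra hcon
  push Not at hcon
  exact hA (hc A hcon)

theorem not_scal_of_neg {h : G} (hh : (ρ h).det = -1) : ¬ IsScal (ρ h) := by
  rintro ⟨r, hr⟩
  rw [hr, det_fin_two] at hh
  simp at hh
  nlinarith

/-- If all cyclic subgroups generated by elements of determinant one are normal, there is an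
element of determinant `-1`. -/
theorem exists_neg (hc : ∀ A : M2, (∀ g, A * ρ g = ρ g * A) → IsScal A)
    (hn : ∀ g h : G, (ρ h).det = 1 → ∃ j : ℕ, g * h = h ^ j * g) : ∃ h, (ρ h).det = -1 := by
  by_contra hcon
  push Not at hcon
  have hdet : ∀ g, (ρ g).det = 1 := fun g => (rho_det ρ g).resolve_right (hcon g)
  obtain ⟨g₁, hg₁⟩ := exists_not_scal hc
  obtain ⟨g, hg⟩ := exists_not_comm hc hg₁
  obtain ⟨j, hj⟩ := hn g g₁ (hdet _)
  have htr : (ρ g₁).trace ^ 2 < 4 := by
    rcases trace_of_det_one (ρ g₁) Nat.card_pos.ne' (rho_pow_card ρ g₁) (hdet g₁)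
      with h | h | h | h | h
    · exact absurd ⟨1, by rw [eq_one_of_trace _ Nat.card_pos.ne' (rho_pow_card ρ g₁) (hdet g₁) h,
        one_smul]⟩ hg₁
    · rw [h]; norm_num
    · rw [h]; norm_num
    · rw [h]; norm_num
    · exact absurd ⟨-1, by rw [eq_neg_one_of_trace _ Nat.card_pos.ne' (rho_pow_card ρ g₁)
        (hdet g₁) h, neg_smul, one_smul]⟩ hg₁
  have hB := hdet g
  have hA := hdet g₁
  -- the power
  have hcomm : ρ g₁ * (ρ g₁) ^ j = (ρ g₁) ^ j * ρ g₁ := (pow_succ' _ _).symm.trans (pow_succ _ _)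
  obtain ⟨x, y, hxy⟩ := exists_of_comm hg₁ hcomm
  have h1 : ρ g * ρ g₁ = (ρ g₁) ^ j * ρ g := by rw [← map_mul, hj, map_mul, map_pow]
  have h2 : (ρ g₁) ^ j = ρ g * ρ g₁ * ρ g⁻¹ := by
    rw [h1, mul_assoc, rho_mul_inv, mul_one]
  have h3 : ((ρ g₁) ^ j).trace = (ρ g₁).trace := by
    rw [h2, trace_mul_comm, ← mul_assoc, rho_inv_mul, one_mul]
  have h4 : ((ρ g₁) ^ j).det = 1 := by rw [det_pow, hA, one_pow]
  rw [hxy, trace_lin] at h3
  rw [hxy, det_lin, hA] at h4
  have h5 : (x - 1) * (x + 1) = 0 := by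
    have hy : y = (ρ g₁).trace * (1 - x) / 2 := by linarith
    rw [hy] at h4
    have h6 : (x ^ 2 - 1) * (4 - (ρ g₁).trace ^ 2) = 0 := by
      linear_combination 4 * h4
    have h7 := (mul_eq_zero.mp h6).resolve_right (by linarith)
    linear_combination h7
  rcases mul_eq_zero.mp h5 with h6 | h6
  · have hx : x = 1 := by linarith
    have hy : y = 0 := by rw [hx] at h3; linarith
    rw [hxy, hx, hy, one_smul, zero_smul, add_zero] at h1
    exact hg h1.symm
  · have hx : x = -1 := by linarith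
    have hy : y = (ρ g₁).trace := by rw [hx] at h3; linarith
    rw [hxy, hx, hy] at h1
    generalize ρ g = B at *
    generalize ρ g₁ = A at *
    have e := fun i j => congrArg (fun M : M2 => M i j) h1
    have e00 := e 0 0
    have e01 := e 0 1
    have e10 := e 1 0
    have e11 := e 1 1
    simp only [Matrix.mul_apply, Fin.sum_univ_two, Fin.isValue, Matrix.add_apply,
      Matrix.smul_apply, smul_eq_mul, Matrix.one_apply_eq, trace_fin_two, mul_one,
      Matrix.one_apply_ne, ne_eq, one_ne_zero, not_false_eq_true, mul_zero, add_zero,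
      zero_ne_one] at e00 e01 e10 e11
    rw [det_fin_two] at hA hB
    rw [trace_fin_two] at htr
    have hq : A 0 1 * (B 0 0 + B 1 1) = 0 := by linarith
    have hqr : A 0 1 * A 1 0 < 0 := by nlinarith [sq_nonneg (A 0 0 - A 1 1)]
    have hq0 : A 0 1 ≠ 0 := by
      intro h0
      rw [h0, zero_mul] at hqr
      exact lt_irrefl _ hqr
    have hd : B 1 1 = - B 0 0 := by
      have := (mul_eq_zero.mp hq).resolve_left hq0
      linarith
    rw [hd] at hB
    have hs1 : B 0 0 * (A 0 0 - A 1 1) + B 0 1 * A 1 0 + B 1 0 * A 0 1 = 0 := by linarith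
    have hbc : B 0 1 * B 1 0 = - B 0 0 ^ 2 - 1 := by linarith
    have hx2 : ((A 0 0 - A 1 1)) ^ 2 + 4 * (A 0 1 * A 1 0) < 0 := by nlinarith
    have key : (B 0 0 * (A 0 0 - A 1 1)) ^ 2 ≥ 4 * ((B 0 1 * B 1 0) * (A 0 1 * A 1 0)) := by
      have : B 0 0 * (A 0 0 - A 1 1) = -(B 0 1 * A 1 0 + B 1 0 * A 0 1) := by linarith
      rw [this]
      nlinarith [sq_nonneg (B 0 1 * A 1 0 - B 1 0 * A 0 1)]
    rw [hbc] at key
    nlinarith [sq_nonneg (B 0 0), sq_nonneg (A 0 0 - A 1 1), mul_nonneg (sq_nonneg (B 0 0)) (le_of_lt (neg_pos.mpr hx2))]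

end Pool.Agent.H447.Gal
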