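import Mathlib
import Pool.Agent.H447.Gal.Rot

set_option autoImplicit false
set_option linter.unusedSectionVars false

/-!
# The rotations
-/

namespace Pool.Agent.H447.Gal

open Matrix

variable {G : Type} [Group G] [Finite G] {ρ : G →* M2}

theorem scal_neg_one : IsScal (-1 : M2) := ⟨-1, by rw [neg_smul, one_smul]⟩

theorem scal_one : IsScal (1 : M2) := ⟨1, by rw [one_smul]⟩

theorem lin_unique {A : M2} (hA : ¬ IsScal A) {x y x' y' : ℚ}
    (h : x • A + y • (1 : M2) = x' • A + y' • (1 : M2)) : x = x' ∧ y = y' := by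
  have h1 : (x - x') • A = (y' - y) • (1 : M2) := by
    rw [sub_smul, sub_smul, sub_eq_sub_iff_add_eq_add, h, add_comm]
  by_cases hx : x - x' = 0
  · rw [hx, zero_smul] at h1
    have h2 := (smul_eq_zero.mp h1.symm).resolve_right one_ne_zero
    exact ⟨sub_eq_zero.mp hx, (sub_eq_zero.mp h2).symm⟩
  · exfalso
    apply hA
    refine ⟨(x - x')⁻¹ * (y' - y), ?_⟩
    rw [mul_smul, ← h1, smul_smul, inv_mul_cancel₀ hx, one_smul]

theorem exists_rot (hc : ∀ A : M2, (∀ g, A * ρ g = ρ g * A) → IsScal A) {h : G}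
    (hh : (ρ h).det = -1)
    (hd : ∀ c t, ρ c = -1 → (ρ t).det = 1 → ρ t * ρ t = 1 ∨ ρ t * ρ t = -1) :
    ∃ t, (ρ t).det = 1 ∧ (∀ g, (ρ g).det = 1 → ∃ k : ℕ, ρ g = ρ t ^ k) ∧
      (orderOf (ρ t) = 3 ∨ orderOf (ρ t) = 4 ∧ ρ t ^ 2 = -1) := by
  -- a rotation which is not scalar
  obtain ⟨t, ht, hts⟩ : ∃ t, (ρ t).det = 1 ∧ ¬ IsScal (ρ t) := by
    by_contra hcon
    push Not at hcon
    obtain ⟨g, hg⟩ := exists_not_comm hc (not_scal_of_neg hh)
    rcases rho_det ρ g with h1 | h1
    · obtain ⟨r, hr⟩ := hcon g h1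
      rw [hr, mul_smul_comm, smul_mul_assoc, mul_one, one_mul] at hg
      exact hg rfl
    · obtain ⟨r, hr⟩ := hcon (h * g) (by rw [det_mul', hh, h1]; norm_num)
      rw [map_mul] at hr
      have h2 : ρ g = ρ h * (r • 1) := by
        rw [← hr, ← mul_assoc, rho_sq_of_neg hh, one_mul]
      rw [h2, mul_smul_comm, mul_one, mul_smul_comm, smul_mul_assoc] at hg
      exact hg rfl
  have hcase := trace_of_det_one (ρ t) Nat.card_pos.ne' (rho_pow_card ρ t) ht
  have hch := ch (ρ t)
  rw [ht, one_smul] at hch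
  rcases hcase with htr | htr | htr | htr | htr
  · exact absurd ⟨1, by rw [eq_one_of_trace _ Nat.card_pos.ne' (rho_pow_card ρ t) ht htr,
      one_smul]⟩ hts
  · -- order six
    exfalso
    rw [htr, one_smul] at hch
    have h3 : ρ (t * t * t) = -1 := by
      rw [map_mul, map_mul, hch, sub_mul, one_mul, hch]
      abel
    rcases hd _ t h3 ht with h4 | h4
    · rw [hch] at h4
      exact hts ⟨2, by rw [sub_eq_iff_eq_add] at h4; rw [h4, two_smul]⟩
    · rw [hch] at h4
      exact hts ⟨0, by rw [sub_eq_iff_eq_add] at h4; rw [h4, zero_smul, neg_add_cancel]⟩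
  · -- order four
    rw [htr, zero_smul, zero_sub] at hch
    have hsq : ρ t ^ 2 = -1 := by rw [pow_two, hch]
    refine ⟨t, ht, ?_, Or.inr ⟨?_, hsq⟩⟩
    · intro g hg
      obtain ⟨x, y, hxy⟩ := exists_of_comm hts (rho_comm hh ht hg)
      have h1 := hg
      rw [hxy, det_lin, ht, htr] at h1
      have h2 : ρ g * ρ g = (2 * x * y) • ρ t + (y ^ 2 - x ^ 2) • (1 : M2) := by
        have e : ρ g * ρ g = (x * x) • (ρ t * ρ t) + (2 * x * y) • ρ t + (y * y) • (1 : M2) := by
          rw [hxy, add_mul, mul_add, mul_add]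
          simp only [smul_mul_assoc, mul_smul_comm, mul_one, one_mul, smul_smul]
          module
        rw [e, hch]
        module
      have h5 : 2 * x * y = 0 ∧ (y ^ 2 - x ^ 2 = 1 ∨ y ^ 2 - x ^ 2 = -1) := by
        have h3 : ρ (t * t) = -1 := by rw [map_mul, hch]
        rcases hd _ g h3 hg with h4 | h4
        · rw [h2] at h4
          have := lin_unique hts (x := 2 * x * y) (y := y ^ 2 - x ^ 2) (x' := 0) (y' := 1)
            (by rw [h4, zero_smul, zero_add, one_smul])
          exact ⟨this.1, Or.inl this.2⟩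
        · rw [h2] at h4
          have := lin_unique hts (x := 2 * x * y) (y := y ^ 2 - x ^ 2) (x' := 0) (y' := -1)
            (by rw [h4, zero_smul, zero_add, neg_smul, one_smul])
          exact ⟨this.1, Or.inr this.2⟩
      obtain ⟨h6, h7⟩ := h5
      have h8 : x = 0 ∨ y = 0 := by
        rcases mul_eq_zero.mp h6 with h | h
        · exact Or.inl ((mul_eq_zero.mp h).resolve_left (by norm_num))
        · exact Or.inr h
      rcases h8 with h8 | h8
      · subst h8
        have h9 : (y - 1) * (y + 1) = 0 := by linarith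
        rcases mul_eq_zero.mp h9 with h10 | h10
        · refine ⟨0, ?_⟩
          rw [hxy, zero_smul, zero_add, pow_zero, sub_eq_zero.mp h10, one_smul]
        · refine ⟨2, ?_⟩
          rw [hxy, zero_smul, zero_add, hsq, eq_neg_of_add_eq_zero_left h10, neg_smul, one_smul]
      · subst h8
        have h9 : (x - 1) * (x + 1) = 0 := by linarith
        rcases mul_eq_zero.mp h9 with h10 | h10
        · refine ⟨1, ?_⟩
          rw [hxy, zero_smul, add_zero, sub_eq_zero.mp h10, one_smul, pow_one]
        · refine ⟨3, ?_⟩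
          rw [hxy, zero_smul, add_zero, pow_succ, hsq, eq_neg_of_add_eq_zero_left h10, neg_smul,
            one_smul, neg_mul, one_mul]
    · have h4 : orderOf (ρ t) = 2 ^ (1 + 1) := by
        apply orderOf_eq_prime_pow
        · rw [pow_one, hsq]
          intro h
          have := congrArg (fun M : M2 => M 0 0) h
          simp at this
          norm_num at this
        · rw [show 2 ^ (1 + 1) = 2 * 2 by norm_num, pow_mul, hsq]
          norm_num
      rw [h4]
      norm_num
  · -- order three
    rw [htr] at hch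
    have hA2 : ρ t * ρ t = -(ρ t) - 1 := by rw [hch, neg_smul, one_smul]
    have hno : ∀ c, ρ c ≠ -1 := by
      intro c hcc
      rcases hd c t hcc ht with h4 | h4
      · rw [hA2] at h4
        have h5 : -(ρ t) = 1 + 1 := sub_eq_iff_eq_add.mp h4
        have h6 : ρ t = -(1 + 1) := by rw [← h5, neg_neg]
        exact hts ⟨-2, by rw [h6]; module⟩
      · rw [hA2, sub_eq_iff_eq_add, neg_add_cancel, neg_eq_zero] at h4
        exact hts ⟨0, by rw [h4, zero_smul]⟩
    have hA3 : ρ t ^ 3 = 1 := by
      rw [pow_succ, pow_two, hA2, sub_mul, neg_mul, hA2, one_mul]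
      abel
    refine ⟨t, ht, ?_, Or.inl ?_⟩
    · intro g hg
      obtain ⟨x, y, hxy⟩ := exists_of_comm hts (rho_comm hh ht hg)
      have h1 := hg
      rw [hxy, det_lin, ht, htr] at h1
      have h2 : (ρ g).trace = x * (-1) + 2 * y := by rw [hxy, trace_lin, htr]
      have hchg := ch (ρ g)
      rw [hg, one_smul] at hchg
      rcases trace_of_det_one (ρ g) Nat.card_pos.ne' (rho_pow_card ρ g) hg
        with h3 | h3 | h3 | h3 | h3
      · refine ⟨0, ?_⟩
        rw [pow_zero]
        exact eq_one_of_trace _ Nat.card_pos.ne' (rho_pow_card ρ g) hg h3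
      · exfalso
        rw [h3, one_smul] at hchg
        apply hno (g * g * g)
        rw [map_mul, map_mul, hchg, sub_mul, one_mul, hchg]
        abel
      · exfalso
        rw [h3, zero_smul, zero_sub] at hchg
        apply hno (g * g)
        rw [map_mul, hchg]
      · rw [h2] at h3
        have hx : x = 2 * y + 1 := by linarith
        rw [hx] at h1
        have h9 : y * (y + 1) = 0 := by linarith
        rcases mul_eq_zero.mp h9 with h10 | h10
        · refine ⟨1, ?_⟩
          rw [hxy, hx, h10, mul_zero, zero_add, one_smul, zero_smul, add_zero, pow_one]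
        · refine ⟨2, ?_⟩
          have hy : y = -1 := by linarith
          rw [hxy, hx, hy, pow_two, hA2]
          module
      · exact absurd (eq_neg_one_of_trace _ Nat.card_pos.ne' (rho_pow_card ρ g) hg h3) (hno g)
    · apply orderOf_eq_prime hA3
      intro h
      exact hts ⟨1, by rw [h, one_smul]⟩
  · exact absurd ⟨-1, by rw [eq_neg_one_of_trace _ Nat.card_pos.ne' (rho_pow_card ρ t) ht htr,
      neg_smul, one_smul]⟩ hts

end Pool.Agent.H447.Gal
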