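import Mathlib
import Pool.Agent.H447.Gal.Alg
import Pool.Agent.H447.Gal.Rot2

set_option autoImplicit false
set_option linter.unusedSectionVars false

/-!
# A nilpotent element in the group algebras of the groups `C_3 ⋊ C_(2^k)`, `k ≥ 3`
-/

namespace Pool.Agent.H447.Gal

open MonoidAlgebra

section ring

variable {R : Type} [Ring R]

/-- The nilpotent element: with `w = (1 - n) + (1 + n) s` and `v = (1 - n) - (1 + n) s`, where
`n = h ^ 2`, `s ^ 3 = - 3 s`, `n ^ 2 = - 1`, the element `(2 h + v) s (2 h - w)`. -/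
theorem nil_ring (h s n k : R) (hn : h * h = n) (hs : h * s = -(s * h)) (kh : k * h = h * k)
    (ks : k * s = s * k) (sss : s * s * s = -(s + s + s)) (knn : k * (n * n) = -k) :
    let w := (1 - n) + (1 + n) * s
    let v := (1 - n) - (1 + n) * s
    let b := k * ((h + h + v) * s * (h + h - w))
    b * b = 0 ∧ b = k * (s * (v * h)) + k * (s * (v * h)) + k * (s * (v * h)) + k * (s * (v * h))
      - (k * (s * n) + k * (s * n) + k * (s * n) + k * (s * n) + k * (s * n) + k * (s * n)
        + k * (s * n) + k * (s * n)) := by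
  intro w v b
  have nh : n * h = h * n := by rw [← hn, mul_assoc]
  have ns : n * s = s * n := by
    rw [← hn, mul_assoc, hs, mul_neg, ← mul_assoc, hs, neg_mul, neg_neg, mul_assoc]
  have kn : k * n = n * k := by rw [← hn, ← mul_assoc, kh, mul_assoc, kh, mul_assoc]
  have hv : h * v = w * h := by
    show h * ((1 - n) - (1 + n) * s) = ((1 - n) + (1 + n) * s) * h
    have e1 : h * ((1 - n) - (1 + n) * s) = h - h * n - (h * s + (h * n) * s) := by noncomm_ring
    have e2 : ((1 - n) + (1 + n) * s) * h = h - n * h + (s * h + n * (s * h)) := by noncomm_ring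
    rw [e1, e2, ← nh, mul_assoc n h s, hs]
    noncomm_ring
  have hw : h * w = v * h := by
    show h * ((1 - n) + (1 + n) * s) = ((1 - n) - (1 + n) * s) * h
    have e1 : h * ((1 - n) + (1 + n) * s) = h - h * n + (h * s + (h * n) * s) := by noncomm_ring
    have e2 : ((1 - n) - (1 + n) * s) * h = h - n * h - (s * h + n * (s * h)) := by noncomm_ring
    rw [e1, e2, ← nh, mul_assoc n h s, hs]
    noncomm_ring
  have sw : s * w = w * s := by
    show s * ((1 - n) + (1 + n) * s) = ((1 - n) + (1 + n) * s) * s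
    have e1 : s * ((1 - n) + (1 + n) * s) = s - s * n + (s + s * n) * s := by noncomm_ring
    have e2 : ((1 - n) + (1 + n) * s) * s = s - n * s + (s + n * s) * s := by noncomm_ring
    rw [e1, e2, ns]
  have sv : s * v = v * s := by
    show s * ((1 - n) - (1 + n) * s) = ((1 - n) - (1 + n) * s) * s
    have e1 : s * ((1 - n) - (1 + n) * s) = s - s * n - (s + s * n) * s := by noncomm_ring
    have e2 : ((1 - n) - (1 + n) * s) * s = s - n * s - (s + n * s) * s := by noncomm_ring
    rw [e1, e2, ns]
  have kv : k * v = v * k := by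
    show k * ((1 - n) - (1 + n) * s) = ((1 - n) - (1 + n) * s) * k
    have e1 : k * ((1 - n) - (1 + n) * s) = k - k * n - (k * s + (k * n) * s) := by noncomm_ring
    have e2 : ((1 - n) - (1 + n) * s) * k = k - n * k - (s * k + n * (s * k)) := by noncomm_ring
    rw [e1, e2, kn, mul_assoc n k s, ks]
  have hprod : (h + h - w) * (h + h + v) = n + n + n + n - w * v := by
    have e1 : (h + h - w) * (h + h + v) = (h * h + h * h + h * h + h * h) + (h * v + h * v)
        - (w * h + w * h) - w * v := by noncomm_ring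
    rw [e1, hv, hn]
    noncomm_ring
  -- the norm
  have hwv : w * v = (1 - n) * (1 - n) - (1 + n) * (1 + n) * (s * s) := by
    show ((1 - n) + (1 + n) * s) * ((1 - n) - (1 + n) * s) = _
    have e1 : ((1 - n) + (1 + n) * s) * ((1 - n) - (1 + n) * s) =
        (1 - n) * (1 - n) - (1 - n) * (s + n * s) + (1 + n) * (s - s * n)
          - (1 + n) * (s + s * n) * s := by noncomm_ring
    rw [e1, ← ns]
    noncomm_ring
  have knn' : k * s * (n * n) = - (k * s) := by
    have e1 : s * (n * n) = (n * n) * s := by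
      rw [← mul_assoc, ← ns, mul_assoc, ← ns, mul_assoc]
    rw [mul_assoc, e1, ← mul_assoc, knn, neg_mul]
  have hkey : k * s * (w * v) = k * s * n + k * s * n + k * s * n + k * s * n := by
    rw [hwv]
    have e0 : (1 + n) * (1 + n) * (s * s) = (s * s) * ((1 + n) * (1 + n)) := by
      have e3 : n * (s * s) = (s * s) * n := by rw [← mul_assoc, ns, mul_assoc, ns, mul_assoc]
      have e4 : n * n * (s * s) = s * s * (n * n) := by
        rw [mul_assoc, e3, ← mul_assoc, e3, mul_assoc]
      have e1 : (1 + n) * (1 + n) * (s * s) = s * s + (n * (s * s) + n * (s * s))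
        + n * n * (s * s) := by noncomm_ring
      rw [e1, e3, e4]
      noncomm_ring
    rw [e0, mul_sub]
    have e1 : k * s * ((s * s) * ((1 + n) * (1 + n))) = k * (s * s * s) * ((1 + n) * (1 + n)) := by
      simp only [mul_assoc]
    rw [e1, sss]
    have e2 : k * s * ((1 - n) * (1 - n)) - k * -(s + s + s) * ((1 + n) * (1 + n)) =
        (k * s + k * s + k * s + k * s)
        + (k * s * n + k * s * n + k * s * n + k * s * n)
        + (k * s * (n * n) + k * s * (n * n) + k * s * (n * n) + k * s * (n * n)) := by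
      noncomm_ring
    rw [e2, knn']
    abel
  have hz : k * s * ((h + h - w) * (h + h + v)) = 0 := by
    rw [hprod, mul_sub, hkey]
    noncomm_ring
  refine ⟨?_, ?_⟩
  · have e1 : ∀ z : R, (h + h + v) * s * (h + h - w) * k * z =
        (h + h + v) * s * ((h + h - w) * k) * z := by
      intro z
      simp only [mul_assoc]
    have kw : k * w = w * k := by
      show k * ((1 - n) + (1 + n) * s) = ((1 - n) + (1 + n) * s) * k
      have e1 : k * ((1 - n) + (1 + n) * s) = k - k * n + (k * s + (k * n) * s) := by noncomm_ring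
      have e2 : ((1 - n) + (1 + n) * s) * k = k - n * k + (s * k + n * (s * k)) := by noncomm_ring
      rw [e1, e2, kn, mul_assoc n k s, ks]
    have e2 : (h + h - w) * k = k * (h + h - w) := by
      rw [sub_mul, add_mul, mul_sub, mul_add, kh, kw]
    show k * ((h + h + v) * s * (h + h - w)) * (k * ((h + h + v) * s * (h + h - w))) = 0
    calc k * ((h + h + v) * s * (h + h - w)) * (k * ((h + h + v) * s * (h + h - w)))
        = k * (h + h + v) * s * ((h + h - w) * k) * ((h + h + v) * s * (h + h - w)) := by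
          simp only [mul_assoc]
      _ = k * (h + h + v) * (s * k * ((h + h - w) * (h + h + v))) * s * (h + h - w) := by
          rw [e2]
          simp only [mul_assoc]
      _ = 0 := by
          rw [← ks, hz, mul_zero, zero_mul, zero_mul]
  · show k * ((h + h + v) * s * (h + h - w)) = _
    have e1 : (h + h + v) * s * (h + h - w) = ((h * s) * h + (h * s) * h + (h * s) * h + (h * s) * h)
        - (h * (s * w) + h * (s * w)) + (v * s * h + v * s * h) - (v * s) * w := by noncomm_ring
    have e2 : h * (s * w) = -(s * (v * h)) := by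
      rw [← mul_assoc, hs, neg_mul, mul_assoc, hw]
    have e3 : v * s * h = s * (v * h) := by rw [← sv, mul_assoc]
    have e4 : v * s * w = s * (v * w) := by rw [← sv, mul_assoc]
    have e5 : v * w = w * v := by
      have e6 : v = w - ((1 + n) * s + (1 + n) * s) := by
        show (1 - n) - (1 + n) * s = (1 - n) + (1 + n) * s - ((1 + n) * s + (1 + n) * s)
        abel
      have e7 : ((1 + n) * s) * w = w * ((1 + n) * s) := by
        have nw : n * w = w * n := by
          show n * ((1 - n) + (1 + n) * s) = ((1 - n) + (1 + n) * s) * n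
          have e1 : n * ((1 - n) + (1 + n) * s) = n - n * n + (n * s + n * (n * s)) := by
            noncomm_ring
          have e2 : ((1 - n) + (1 + n) * s) * n = n - n * n + (s * n + n * (s * n)) := by
            noncomm_ring
          rw [e1, e2, ns]
        have e8 : ((1 + n) * s) * w = s * w + n * (s * w) := by noncomm_ring
        have e9 : w * ((1 + n) * s) = w * s + (w * n) * s := by noncomm_ring
        rw [e8, e9, sw, ← nw, mul_assoc]
      have e12 : ((1 + n) * s + (1 + n) * s) * w = w * ((1 + n) * s + (1 + n) * s) := by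
        rw [add_mul ((1 + n) * s) ((1 + n) * s) w, mul_add w ((1 + n) * s) ((1 + n) * s), e7]
      calc v * w = (w - ((1 + n) * s + (1 + n) * s)) * w := by rw [← e6]
        _ = w * w - ((1 + n) * s + (1 + n) * s) * w := sub_mul _ _ _
        _ = w * w - w * ((1 + n) * s + (1 + n) * s) := by rw [e12]
        _ = w * (w - ((1 + n) * s + (1 + n) * s)) := (mul_sub _ _ _).symm
        _ = w * v := by rw [← e6]
    rw [e1, e2, e3, e4, e5, hs, neg_mul, mul_assoc, hn]
    have e10 : k * (s * (w * v)) = k * s * (w * v) := by rw [mul_assoc]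
    have e11 : k * (-(s * n) + -(s * n) + -(s * n) + -(s * n) - (-(s * (v * h)) + -(s * (v * h)))
        + (s * (v * h) + s * (v * h)) - s * (w * v)) =
        k * (s * (v * h)) + k * (s * (v * h)) + k * (s * (v * h)) + k * (s * (v * h))
        - (k * (s * n) + k * (s * n) + k * (s * n) + k * (s * n)) - k * (s * (w * v)) := by
      noncomm_ring
    rw [e11, e10, hkey]
    simp only [mul_assoc]
    abel

end ring


section grp

variable {G : Type} [Group G] [Finite G] {ρ : G →* M2}

/-- The twist of the group algebra by the character `det ρ`. -/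
noncomputable def tw (ρ : G →* M2) : MonoidAlgebra ℚ G →ₐ[ℚ] MonoidAlgebra ℚ G :=
  MonoidAlgebra.lift ℚ (MonoidAlgebra ℚ G) G
    { toFun := fun g => (ρ g).det • el g
      map_one' := by rw [map_one, Matrix.det_one, one_smul, el_one]
      map_mul' := fun g h => by
        rw [det_mul', el_mul, smul_mul_smul_comm] }

theorem tw_el (g : G) : tw ρ (el g) = (ρ g).det • el g := by
  unfold tw
  rw [el, MonoidAlgebra.lift_single, one_smul]
  rfl

theorem tw_pos {g : G} (hg : (ρ g).det = 1) : tw ρ (el g) = el g := by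
  rw [tw_el, hg, one_smul]

theorem tw_neg {g : G} (hg : (ρ g).det = -1) : tw ρ (el g) = -el g := by
  rw [tw_el, hg, neg_smul, one_smul]

theorem el_hs_comm {g a : G} (h : g * a = a * g) : el g * hs a = hs a * el g := by
  unfold hs
  rw [Finset.mul_sum, Finset.sum_mul]
  refine Finset.sum_congr rfl fun k _ => ?_
  rw [← el_mul, ← el_mul]
  have : g * a ^ k = a ^ k * g := (Commute.pow_right h k)
  rw [this]

theorem nil_false (k : Key (fun _ => True) ρ) {h t : G} (hh : (ρ h).det = -1)
    (ht : (ρ t).det = 1) (ht1 : ρ t ≠ 1) (htt : h * t = t⁻¹ * h) (t3 : t * t = t⁻¹)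
    (h4 : 4 ∣ orderOf (h ^ 2)) : False := by
  have htt' : h * t⁻¹ = t * h := by
    have : h * t⁻¹ * t = t * h * t := by
      rw [inv_mul_cancel_right, mul_assoc, htt, mul_inv_cancel_left]
    exact mul_right_cancel this
  have t3' : t⁻¹ * t⁻¹ = t := by
    rw [← mul_inv_rev, t3, inv_inv]
  have hH := rho_sq_of_neg hh
  have hcomm : t * (h ^ 8) = (h ^ 8) * t := by
    have e : t * (h ^ 2) = (h ^ 2) * t := by
      rw [pow_two, mul_assoc, htt, ← mul_assoc h, htt', mul_assoc]
    have e2 : h ^ 8 = (h ^ 2) ^ 4 := by rw [← pow_mul]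
    rw [e2]
    exact Commute.pow_right e 4
  set κ : MonoidAlgebra ℚ G := hs (h ^ 8) * (1 - el (h ^ 4)) with hκ
  set T := el t with hT
  set T' := el t⁻¹ with hT'
  have TT : T * T = T' := by rw [hT, ← el_mul, t3]
  have TT' : T' * T' = T := by rw [hT', ← el_mul, t3']
  have T1 : T * T' = 1 := by rw [hT, hT', ← el_mul, mul_inv_cancel, el_one]
  have T2 : T' * T = 1 := by rw [hT, hT', ← el_mul, inv_mul_cancel, el_one]
  have hn : el h * el h = el (h ^ 2) := by rw [← el_mul, pow_two]
  have hnn : el (h ^ 2) * el (h ^ 2) = el (h ^ 4) := by rw [← el_mul, ← pow_add]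
  have hs1 : el h * (T - T') = -((T - T') * el h) := by
    rw [mul_sub, sub_mul, hT, hT', ← el_mul, ← el_mul, ← el_mul, ← el_mul, htt, htt', neg_sub]
  have hc1 : el (h ^ 8) = el (h ^ 4) * el (h ^ 4) := by rw [← el_mul, ← pow_add]
  have kh : κ * el h = el h * κ := by
    have e1 : el h * hs (h ^ 8) = hs (h ^ 8) * el h :=
      el_hs_comm ((pow_succ' h 8).symm.trans (pow_succ h 8))
    have e2 : el h * el (h ^ 4) = el (h ^ 4) * el h := by
      rw [← el_mul, ← el_mul, ← pow_succ, ← pow_succ']
    rw [hκ, ← mul_assoc, e1, mul_assoc, mul_assoc, mul_sub, sub_mul, mul_one, one_mul, e2]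
  have e4 : t * (h ^ 4) = (h ^ 4) * t := by
    have e : t * (h ^ 2) = (h ^ 2) * t := by
      rw [pow_two, mul_assoc, htt, ← mul_assoc h, htt', mul_assoc]
    have e2 : h ^ 4 = (h ^ 2) ^ 2 := by rw [← pow_mul]
    rw [e2]
    exact Commute.pow_right e 2
  have e4' : t⁻¹ * (h ^ 4) = (h ^ 4) * t⁻¹ := (Commute.inv_left (show Commute t (h ^ 4) from e4))
  have hcomm' : t⁻¹ * (h ^ 8) = (h ^ 8) * t⁻¹ :=
    (Commute.inv_left (show Commute t (h ^ 8) from hcomm))
  have kT : κ * T = T * κ := by
    have e1 : T * hs (h ^ 8) = hs (h ^ 8) * T := el_hs_comm hcomm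
    have e2 : T * el (h ^ 4) = el (h ^ 4) * T := by rw [hT, ← el_mul, ← el_mul, e4]
    rw [hκ, ← mul_assoc, e1, mul_assoc, mul_assoc, mul_sub, sub_mul, mul_one, one_mul, e2]
  have kT' : κ * T' = T' * κ := by
    have e1 : T' * hs (h ^ 8) = hs (h ^ 8) * T' := el_hs_comm hcomm'
    have e2 : T' * el (h ^ 4) = el (h ^ 4) * T' := by rw [hT', ← el_mul, ← el_mul, e4']
    rw [hκ, ← mul_assoc, e1, mul_assoc, mul_assoc, mul_sub, sub_mul, mul_one, one_mul, e2]
  have ks : κ * (T - T') = (T - T') * κ := by rw [mul_sub, sub_mul, kT, kT']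
  have sss : (T - T') * (T - T') * (T - T') = -((T - T') + (T - T') + (T - T')) := by
    have e1 : (T - T') * (T - T') = T' - 1 - 1 + T := by
      rw [sub_mul, mul_sub, mul_sub, TT, TT', T1, T2]
      abel
    have e2 : (T' - 1 - 1 + T) * (T - T') = T' * T - T' * T' - (T - T') - (T - T')
        + (T * T - T * T') := by noncomm_ring
    rw [e1, e2, TT, TT', T1, T2]
    abel
  have knn : κ * (el (h ^ 2) * el (h ^ 2)) = -κ := by
    rw [hnn, hκ, mul_assoc, sub_mul, one_mul, ← hc1, mul_sub, hs_mul_el, mul_sub, mul_one, neg_sub]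
  obtain ⟨hb, hform⟩ := nil_ring (el h) (T - T') (el (h ^ 2)) κ hn hs1 kh ks sss knn
  set w := (1 - el (h ^ 2)) + (1 + el (h ^ 2)) * (T - T') with hw
  set v := (1 - el (h ^ 2)) - (1 + el (h ^ 2)) * (T - T') with hv
  set b := κ * ((el h + el h + v) * (T - T') * (el h + el h - w)) with hbdef
  -- `b = 0`
  have hb0 : b = 0 := by
    have h1 : b * el (h ^ 4) = b := by
      apply k.mul_el hb trivial
      rw [show (4 : ℕ) = 2 * 2 by norm_num, pow_mul, map_pow, map_pow, pow_two (ρ h), hH, one_pow]
    have h2 : b * el (h ^ 4) = -b := by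
      have e1 : ∀ x : MonoidAlgebra ℚ G, x * el (h ^ 4) = el (h ^ 4) * x → (κ * x) * el (h ^ 4) =
          -(κ * x) := by
        intro x hx
        rw [mul_assoc, hx, ← mul_assoc, ← hnn, knn, neg_mul]
      apply e1
      have eh : el h * el (h ^ 4) = el (h ^ 4) * el h := by
        rw [← el_mul, ← el_mul, ← pow_succ, ← pow_succ']
      have en : el (h ^ 2) * el (h ^ 4) = el (h ^ 4) * el (h ^ 2) := by
        rw [← el_mul, ← el_mul, ← pow_add, ← pow_add]
      have eT : T * el (h ^ 4) = el (h ^ 4) * T := by rw [hT, ← el_mul, ← el_mul, e4]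
      have eT' : T' * el (h ^ 4) = el (h ^ 4) * T' := by rw [hT', ← el_mul, ← el_mul, e4']
      have es : Commute (T - T') (el (h ^ 4)) := Commute.sub_left eT eT'
      have ew : Commute w (el (h ^ 4)) :=
        ((Commute.one_left _).sub_left en).add_left
          (((Commute.one_left _).add_left en).mul_left es)
      have ev : Commute v (el (h ^ 4)) :=
        ((Commute.one_left _).sub_left en).sub_left
          (((Commute.one_left _).add_left en).mul_left es)
      exact ((((show Commute (el h) (el (h ^ 4)) from eh).add_left eh).add_left ev).mul_left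
        es).mul_left (((show Commute (el h) (el (h ^ 4)) from eh).add_left eh).sub_left ew)
    rw [h1] at h2
    have h3 : (2 : ℚ) • b = 0 := by
      rw [two_smul]
      nth_rewrite 1 [h2]
      exact neg_add_cancel b
    exact (smul_eq_zero.mp h3).resolve_left (by norm_num)
  rw [hb0] at hform
  -- the twist
  have hdet : ∀ j : ℕ, (ρ (h ^ (2 * j))).det = 1 := by
    intro j
    rw [pow_mul, map_pow, map_pow, pow_two, hH, one_pow, Matrix.det_one]
  have tκ : tw ρ κ = κ := by
    have e1 : tw ρ (hs (h ^ 8)) = hs (h ^ 8) := by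
      unfold hs
      rw [map_sum]
      refine Finset.sum_congr rfl fun i _ => ?_
      apply tw_pos
      rw [← pow_mul, show 8 * i = 2 * (4 * i) by ring]
      exact hdet _
    rw [hκ, map_mul, map_sub, map_one, e1, tw_pos (hdet 2)]
  have tn : tw ρ (el (h ^ 2)) = el (h ^ 2) := tw_pos (hdet 1)
  have ts : tw ρ (T - T') = T - T' := by
    rw [map_sub, hT, hT', tw_pos ht, tw_pos (by rw [det_inv', ht])]
  have tv : tw ρ v = v := by
    rw [hv, map_sub, map_sub, map_mul, map_add, map_one, tn, ts]
  have thh : tw ρ (el h) = -el h := tw_neg hh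
  clear_value κ
  set X := κ * ((T - T') * (v * el h)) with hX
  set Y := κ * ((T - T') * el (h ^ 2)) with hY
  have tX : tw ρ X = -X := by
    rw [hX, map_mul, map_mul, map_mul, tκ, ts, tv, thh, mul_neg, mul_neg, mul_neg]
  have tY : tw ρ Y = Y := by
    rw [hY, map_mul, map_mul, tκ, ts, tn]
  have htw := congrArg (tw ρ) hform
  simp only [map_zero, map_sub, map_add] at htw
  rw [tX, tY] at htw
  have hY0 : Y = 0 := by
    have h5 : (16 : ℚ) • Y = 0 := by
      have h6 : X + X + X + X = (8 : ℚ) • Y := by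
        have := sub_eq_zero.mp hform.symm
        rw [this]
        module
      have h7 : -X + -X + -X + -X = (8 : ℚ) • Y := by
        have := sub_eq_zero.mp htw.symm
        rw [this]
        module
      have h8 : (8 : ℚ) • Y + (8 : ℚ) • Y = 0 := by
        nth_rewrite 1 [← h6]
        rw [← h7]
        abel
      rw [← h8, ← add_smul]
      norm_num
    exact (smul_eq_zero.mp h5).resolve_left (by norm_num)
  -- the coefficient
  have hκs : κ * (T - T') = 0 := by
    have h5 : Y * el (h⁻¹ ^ 2) = 0 := by rw [hY0, zero_mul]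
    rw [hY, mul_assoc, mul_assoc, ← el_mul, inv_pow, mul_inv_cancel, el_one, mul_one] at h5
    exact h5
  have hκ1 : κ = κ * T' := by
    have h5 : κ * (T - T') * T' = 0 := by rw [hκs, zero_mul]
    rw [mul_assoc, sub_mul, T1, TT', mul_sub, mul_one] at h5
    have h6 : κ * (T - T') = 0 := hκs
    rw [mul_sub] at h6
    exact (sub_eq_zero.mp h5).trans (sub_eq_zero.mp h6)
  have hnot : h ^ 4 ∉ Subgroup.zpowers (h ^ 8) := by
    intro hmem
    obtain ⟨j, hj⟩ := Subgroup.mem_zpowers_iff.mp hmem
    have h5 : (h ^ 2) ^ (4 * j - 2 : ℤ) = 1 := by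
      have e1 : (h ^ 8 : G) = h ^ (8 : ℤ) := by norm_cast
      have e2 : (h ^ 4 : G) = h ^ (4 : ℤ) := by norm_cast
      have e3 : (h ^ 2 : G) = h ^ (2 : ℤ) := by norm_cast
      rw [e1, e2, ← zpow_mul] at hj
      rw [e3, ← zpow_mul, show (2 : ℤ) * (4 * j - 2) = 8 * j - 4 by ring, zpow_sub, hj,
        mul_inv_cancel]
    have h6 : (orderOf (h ^ 2) : ℤ) ∣ 4 * j - 2 := orderOf_dvd_iff_zpow_eq_one.mpr h5
    have h7 : (4 : ℤ) ∣ 4 * j - 2 := dvd_trans (by exact_mod_cast h4) h6
    omega
  have hρ8 : ∀ x ∈ Subgroup.zpowers (h ^ 8), ρ x = 1 := by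
    intro x hx
    obtain ⟨j, hj⟩ := mem_powers_iff_mem_zpowers.mpr hx
    have hj' : (h ^ 8) ^ j = x := hj
    rw [← hj', show (8 : ℕ) = 2 * 4 by norm_num, pow_mul, map_pow, map_pow, map_pow,
      pow_two (ρ h), hH, one_pow, one_pow]
  have hρ4 : ρ (h ^ 4) = 1 := by
    rw [show (4 : ℕ) = 2 * 2 by norm_num, pow_mul, map_pow, map_pow, pow_two (ρ h), hH, one_pow]
  have c1 : κ.coeff 1 = 1 := by
    rw [hκ, mul_sub, mul_one, coeff_sub, Finsupp.sub_apply, hs_coeff_one, coeff_mul_single_apply,
      one_mul, mul_one, hs_coeff_of_not, sub_zero]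
    intro hmem
    exact hnot ((Subgroup.inv_mem_iff _).mp hmem)
  have c2 : (κ * T').coeff 1 = 0 := by
    rw [hT', coeff_mul_single_apply, one_mul, mul_one, inv_inv, hκ, mul_sub, mul_one, coeff_sub,
      Finsupp.sub_apply, coeff_mul_single_apply, mul_one, hs_coeff_of_not, hs_coeff_of_not,
      sub_zero]
    · intro hmem
      have := hρ8 _ hmem
      have e5 : ρ (h ^ 4)⁻¹ = 1 := by
        have := rho_mul_inv ρ (h ^ 4)
        rwa [hρ4, one_mul] at this
      rw [map_mul, e5, mul_one] at this
      exact ht1 this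
    · intro hmem
      exact ht1 (hρ8 _ hmem)
  rw [← hκ1, c1] at c2
  exact one_ne_zero c2

end grp

end Pool.Agent.H447.Gal
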