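import Mathlib
import Pool.Agent.H447.Gal.Alg
import Pool.Agent.H447.Gal.Rot2
import Pool.Agent.H447.Gal.Nil

set_option autoImplicit false
set_option linter.unusedSectionVars false

/-!
# The groups with a key representation
-/

namespace Pool.Agent.H447.Gal

open MonoidAlgebra

/-- `G` is the group with two generators `t`, `h` and the relations `h t h⁻¹ = t⁻¹`, `t ^ a = 1`,
`h ^ b = t ^ j`, of order `a * b`. -/
def IsInvMeta (G : Type) [Group G] (a b j : ℕ) : Prop :=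
  ∃ t h : G, Subgroup.closure {t, h} = ⊤ ∧ h * t * h⁻¹ = t⁻¹ ∧ t ^ a = 1 ∧ h ^ b = t ^ j ∧
    Nat.card G = a * b

/-- `G` is one of the groups `S_3`, `D_4` (of order eight), `C_3 ⋊ C_4`, `C_4 ⋊ C_4`, `Q_16`. -/
def Exceptional (G : Type) [Group G] : Prop :=
  IsInvMeta G 3 2 0 ∨ IsInvMeta G 4 2 0 ∨ IsInvMeta G 3 4 0 ∨ IsInvMeta G 4 4 0 ∨
    IsInvMeta G 8 2 4

variable {G : Type} [Group G] [Finite G] {ρ : G →* M2}

theorem Key.isScal {P : MonoidAlgebra ℚ G → Prop} (k : Key P ρ) :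
    ∀ A : M2, (∀ g, A * ρ g = ρ g * A) → IsScal A := k.comm

theorem rho_pow_cases {h : G} (hh : (ρ h).det = -1) (j : ℕ) :
    (Even j ∧ ρ h ^ j = 1) ∨ (Odd j ∧ ρ h ^ j = ρ h) := by
  have h2 := rho_sq_of_neg hh
  rcases Nat.even_or_odd j with hj | hj
  · left
    obtain ⟨i, rfl⟩ := hj
    refine ⟨⟨i, rfl⟩, ?_⟩
    rw [← two_mul, pow_mul, pow_two, h2, one_pow]
  · right
    obtain ⟨i, rfl⟩ := hj
    refine ⟨⟨i, rfl⟩, ?_⟩
    rw [pow_succ, pow_mul, pow_two, h2, one_pow, one_mul]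

theorem rho_ne_one_of_neg {h : G} (hh : (ρ h).det = -1) : ρ h ≠ 1 := by
  intro h1
  rw [h1, Matrix.det_one] at hh
  norm_num at hh

theorem exists_pow_of_mem {h x : G} (hx : x ∈ Subgroup.zpowers h) : ∃ j : ℕ, h ^ j = x :=
  mem_powers_iff_mem_zpowers.mpr hx

theorem lift_nb (h g : G) : MonoidAlgebra.lift ℚ M2 G ρ (nb h g) =
    (1 - ρ h) * ρ g * MonoidAlgebra.lift ℚ M2 G ρ (hs h) := by
  unfold nb
  rw [map_mul, map_mul, map_sub, map_one, lift_el, lift_el]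

/-- a cyclic subgroup which is not normal is generated by a reflection -/
theorem Key.det_neg {P : MonoidAlgebra ℚ G → Prop} (k : Key P ρ) {h g : G} (hP : P (nb h g))
    (hg : g⁻¹ * h * g ∉ Subgroup.zpowers h) : (ρ h).det = -1 := by
  have h1 := k.lift_ne (nb_sq h g) hP (nb_ne_zero hg)
  rw [lift_nb] at h1
  rcases rho_det ρ h with hd | hd
  · exfalso
    have h2 : (ρ h - 1) * MonoidAlgebra.lift ℚ M2 G ρ (hs h) = 0 := by
      rw [sub_mul, one_mul, ← lift_el (ρ := ρ) h, ← map_mul, el_mul_hs, sub_self]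
    have h3 : (ρ h - 1).det = 0 := by
      by_contra hne
      apply h1
      have h4 : MonoidAlgebra.lift ℚ M2 G ρ (hs h) = 0 := by
        have hu : IsUnit (ρ h - 1).det := isUnit_iff_ne_zero.mpr hne
        have h5 := congrArg (fun M => (ρ h - 1)⁻¹ * M) h2
        simp only [mul_zero] at h5
        rwa [← mul_assoc, Matrix.nonsing_inv_mul _ hu, one_mul] at h5
      rw [h4, mul_zero]
    have h4 : (ρ h).trace = 2 := by
      have e : ρ h - 1 = (1 : ℚ) • ρ h + (-1 : ℚ) • (1 : M2) := by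
        rw [one_smul, neg_smul, one_smul, sub_eq_add_neg]
      rw [e, det_lin, hd] at h3
      linarith
    have h5 := eq_one_of_trace _ Nat.card_pos.ne' (rho_pow_card ρ h) hd h4
    apply h1
    rw [h5, sub_self, zero_mul, zero_mul]
  · exact hd

/-- a reflection generates a subgroup which is not normal -/
theorem exists_not_normal (hc : ∀ A : M2, (∀ g, A * ρ g = ρ g * A) → IsScal A) {h : G}
    (hh : (ρ h).det = -1) : ∃ g, g⁻¹ * h * g ∉ Subgroup.zpowers h := by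
  by_contra hcon
  push Not at hcon
  apply not_scal_of_neg hh
  apply hc
  intro g
  obtain ⟨j, hj⟩ := exists_pow_of_mem (hcon g)
  have h1 : ρ h ^ j = ρ g⁻¹ * ρ h * ρ g := by rw [← map_pow, hj, map_mul, map_mul]
  have h2 : (ρ g⁻¹ * ρ h * ρ g).det = -1 := by
    rw [Matrix.det_mul, Matrix.det_mul, det_inv', hh]
    rcases rho_det ρ g with hd | hd <;> rw [hd] <;> norm_num
  rcases rho_pow_cases hh j with ⟨-, h3⟩ | ⟨-, h3⟩
  · rw [h3] at h1
    rw [← h1, Matrix.det_one] at h2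
    norm_num at h2
  · rw [h3] at h1
    calc ρ h * ρ g = ρ g * ρ g⁻¹ * ρ h * ρ g := by rw [rho_mul_inv, one_mul]
      _ = ρ g * (ρ g⁻¹ * ρ h * ρ g) := by simp only [mul_assoc]
      _ = ρ g * ρ h := by rw [← h1]

theorem rot_sq {P : MonoidAlgebra ℚ G → Prop} (k : Key P ρ) {h : G} (hP : ∀ g, P (nb h g))
    (hh : (ρ h).det = -1) :
    ∀ c t, ρ c = -1 → (ρ t).det = 1 → ρ t * ρ t = 1 ∨ ρ t * ρ t = -1 := by
  intro c t hc ht
  have hH := rho_sq_of_neg hh
  have hinv : ρ h⁻¹ = ρ h := by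
    calc ρ h⁻¹ = ρ h⁻¹ * (ρ h * ρ h) := by rw [hH, mul_one]
      _ = ρ h := by rw [← mul_assoc, rho_inv_mul, one_mul]
  have hconj : ρ h * ρ t = ρ t⁻¹ * ρ h := by
    have := rho_conj hh ht
    rw [map_mul, map_mul, hinv] at this
    rw [← this, mul_assoc, hH, mul_one]
  have hTT : ∀ {r : M2}, r * r = 1 → ρ t⁻¹ * ρ t⁻¹ = r → ρ t * ρ t = r := by
    intro r hr hr'
    have e1 : ρ t⁻¹ * ρ t⁻¹ * (ρ t * ρ t) = 1 := by
      rw [mul_assoc, ← mul_assoc (ρ t⁻¹) (ρ t), rho_inv_mul, one_mul, rho_inv_mul]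
    rw [hr'] at e1
    calc ρ t * ρ t = r * r * (ρ t * ρ t) := by rw [hr, one_mul]
      _ = r * (r * (ρ t * ρ t)) := by rw [mul_assoc]
      _ = r := by rw [e1, mul_one]
  have hneg : ((ρ t⁻¹ * ρ t⁻¹) * ρ h).det = -1 := by
    rw [Matrix.det_mul, Matrix.det_mul, det_inv', ht, hh]
    norm_num
  have hcancel : ∀ {r : M2}, (ρ t⁻¹ * ρ t⁻¹) * ρ h = r * ρ h → ρ t⁻¹ * ρ t⁻¹ = r := by
    intro r hr
    have := congrArg (fun M => M * ρ h) hr
    rwa [mul_assoc, hH, mul_one, mul_assoc, hH, mul_one] at this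
  by_cases hm : t⁻¹ * h * t ∈ Subgroup.zpowers h
  · left
    obtain ⟨j, hj⟩ := exists_pow_of_mem hm
    have h1 : ρ h ^ j = (ρ t⁻¹ * ρ t⁻¹) * ρ h := by
      rw [← map_pow, hj, map_mul, map_mul, mul_assoc, hconj, mul_assoc]
    rcases rho_pow_cases hh j with ⟨-, h3⟩ | ⟨-, h3⟩
    · rw [h3] at h1
      rw [← h1, Matrix.det_one] at hneg
      norm_num at hneg
    · rw [h3] at h1
      exact hTT (mul_one 1) (hcancel (by rw [← h1, one_mul]))
  · right
    have h0 := k.mul_el_neg (nb_sq h t) (hP t) hc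
    obtain ⟨j, hj⟩ := exists_pow_of_mem (mem_of_nb_mul_neg hm h0)
    have h1 : ρ h ^ j = -((ρ t⁻¹ * ρ t⁻¹) * ρ h) := by
      rw [← map_pow, hj, map_mul, map_mul, map_mul, hc, hinv, mul_neg, mul_one, mul_neg, mul_neg,
        hconj, mul_assoc]
    have hneg' : (-((ρ t⁻¹ * ρ t⁻¹) * ρ h)).det = -1 := by
      rw [Matrix.det_neg, hneg]
      norm_num
    rcases rho_pow_cases hh j with ⟨-, h3⟩ | ⟨-, h3⟩
    · rw [h3] at h1
      rw [← h1, Matrix.det_one] at hneg'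
      norm_num at hneg'
    · rw [h3] at h1
      refine hTT (by rw [neg_mul_neg, one_mul]) (hcancel ?_)
      rw [neg_mul, one_mul]
      exact (neg_eq_iff_eq_neg.mpr h1).symm

section top

variable (k : Key (fun _ => True) ρ)

include k

theorem normal_of_det {h : G} (hh : (ρ h).det = 1) (g : G) :
    g⁻¹ * h * g ∈ Subgroup.zpowers h := by
  by_contra hcon
  have := k.det_neg trivial hcon
  rw [hh] at this
  norm_num at this

theorem conj_pow {t : G} (ht : (ρ t).det = 1) (h : G) : ∃ j : ℕ, h * t = t ^ j * h := by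
  obtain ⟨j, hj⟩ := exists_pow_of_mem (normal_of_det k ht h⁻¹)
  refine ⟨j, ?_⟩
  rw [hj, inv_inv, inv_mul_cancel_right]

theorem ker_mem {h n : G} (hh : (ρ h).det = -1) (hn : ρ n = 1) :
    n ∈ Subgroup.zpowers (h ^ 2) := by
  obtain ⟨g, hg⟩ := exists_not_normal k.isScal hh
  have h1 := k.mul_el (nb_sq h g) trivial hn
  obtain ⟨j, hj⟩ := exists_pow_of_mem (mem_of_nb_mul hg h1)
  have h2 : ρ h ^ j = 1 := by rw [← map_pow, hj, hn]
  rcases rho_pow_cases hh j with ⟨⟨i, hi⟩, -⟩ | ⟨-, h3⟩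
  · rw [← hj, hi, ← two_mul, pow_mul]
    exact Subgroup.npow_mem_zpowers _ _
  · rw [h3] at h2
    exact absurd h2 (rho_ne_one_of_neg hh)

theorem ker_comm {h₀ n : G} (h0 : (ρ h₀).det = -1) (hn : ρ n = 1) (g : G) : n * g = g * n := by
  have key : ∀ h : G, (ρ h).det = -1 → n * h = h * n := by
    intro h hh
    obtain ⟨j, hj⟩ := exists_pow_of_mem (ker_mem k hh hn)
    rw [← hj, ← pow_mul, ← pow_succ, ← pow_succ']
  rcases rho_det ρ g with hd | hd
  · have h1 := key h₀ h0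
    have h2 := key (h₀ * g) (by rw [det_mul', h0, hd, mul_one])
    have h3 : h₀ * (n * g) = h₀ * (g * n) := by
      rw [← mul_assoc, ← h1, mul_assoc, h2, mul_assoc]
    exact mul_left_cancel h3
  · exact key g hd

/-- the order of the square of a reflection is a power of two -/
theorem order_sq {h : G} (hh : (ρ h).det = -1) : ∃ a : ℕ, orderOf (h ^ 2) = 2 ^ a := by
  obtain ⟨a, u, hu, hq⟩ := Nat.exists_eq_two_pow_mul_odd (orderOf_pos (h ^ 2)).ne'
  refine ⟨a, ?_⟩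
  have h1 : (ρ (h ^ u)).det = -1 := by
    rw [map_pow]
    rcases rho_pow_cases hh u with ⟨h2, -⟩ | ⟨-, h3⟩
    · exact absurd h2 (Nat.not_even_iff_odd.mpr hu)
    · rw [h3, hh]
  have h2 : ρ (h ^ 2) = 1 := by rw [map_pow, pow_two, rho_sq_of_neg hh]
  have h3 := ker_mem k h1 h2
  have h4 : orderOf (h ^ 2) ∣ orderOf ((h ^ u) ^ 2) := by
    obtain ⟨j, hj⟩ := exists_pow_of_mem h3
    rw [← hj]
    exact orderOf_pow_dvd j
  have h5 : (h ^ u) ^ 2 = (h ^ 2) ^ u := by rw [← pow_mul, ← pow_mul, mul_comm]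
  have hu0 : 0 < u := hu.pos
  have h6 : orderOf ((h ^ 2) ^ u) = 2 ^ a := by
    rw [orderOf_pow, hq, Nat.gcd_eq_right (Dvd.intro_left _ rfl), Nat.mul_div_cancel _ hu0]
  rw [h5, h6] at h4
  exact Nat.dvd_antisymm h4 (by rw [hq]; exact Dvd.intro _ rfl)

end top

end Pool.Agent.H447.Gal
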