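import Mathlib
import Pool.Agent.H447.Gal.Struct

set_option autoImplicit false
set_option linter.unusedSectionVars false

/-!
# The groups with a key representation: the classification
-/

namespace Pool.Agent.H447.Gal

open MonoidAlgebra

variable {G : Type} [Group G] [Finite G] {ρ : G →* M2}

theorem card_of {a b j : ℕ} (ha : 0 < a) (hb : 0 < b) {t h : G} (hta : t ^ a = 1)
    (hhb : h ^ b = t ^ j) (hall : ∀ g : G, ∃ i k : ℕ, g = t ^ i * h ^ k)
    (hinj : ∀ i i' k k' : ℕ, i < a → i' < a → k < b → k' < b → t ^ i * h ^ k = t ^ i' * h ^ k' →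
      i = i' ∧ k = k') : Nat.card G = a * b := by
  let f : Fin a × Fin b → G := fun x => t ^ (x.1 : ℕ) * h ^ (x.2 : ℕ)
  have hf : Function.Bijective f := by
    constructor
    · rintro ⟨x, y⟩ ⟨x', y'⟩ hxy
      obtain ⟨h1, h2⟩ := hinj _ _ _ _ x.2 x'.2 y.2 y'.2 hxy
      rw [Prod.mk.injEq]
      exact ⟨Fin.ext h1, Fin.ext h2⟩
    · intro g
      obtain ⟨i, k, rfl⟩ := hall g
      refine ⟨(⟨(i + j * (k / b)) % a, Nat.mod_lt _ ha⟩, ⟨k % b, Nat.mod_lt _ hb⟩), ?_⟩
      show t ^ ((i + j * (k / b)) % a) * h ^ (k % b) = t ^ i * h ^ k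
      rw [← pow_eq_pow_mod _ hta, pow_add, pow_mul, ← hhb, ← pow_mul, mul_assoc, ← pow_add,
        Nat.div_add_mod]
  rw [← Nat.card_eq_of_bijective f hf, Nat.card_prod, Nat.card_fin, Nat.card_fin]

theorem det_pow_neg {h : G} (hh : (ρ h).det = -1) (k : ℕ) : (ρ (h ^ k)).det = (-1) ^ k := by
  rw [map_pow, Matrix.det_pow, hh]

theorem inj_of {t h : G} (ht : (ρ t).det = 1) (hh : (ρ h).det = -1) {i i' k k' : ℕ}
    (heq : t ^ i * h ^ k = t ^ i' * h ^ k') :
    k % 2 = k' % 2 ∧ i % orderOf (ρ t) = i' % orderOf (ρ t) := by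
  have h1 : ((-1 : ℚ)) ^ k = (-1) ^ k' := by
    have := congrArg (fun g => (ρ g).det) heq
    rw [det_mul', det_mul', det_pow_neg hh, det_pow_neg hh, map_pow, map_pow, Matrix.det_pow,
      Matrix.det_pow, ht, one_pow, one_pow, one_mul, one_mul] at this
    exact this
  have h2 : k % 2 = k' % 2 := by
    rcases Nat.even_or_odd k with hk | hk <;> rcases Nat.even_or_odd k' with hk' | hk'
    · rw [Nat.even_iff.mp hk, Nat.even_iff.mp hk']
    · rw [hk.neg_one_pow, hk'.neg_one_pow] at h1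
      norm_num at h1
    · rw [hk.neg_one_pow, hk'.neg_one_pow] at h1
      norm_num at h1
    · rw [Nat.odd_iff.mp hk, Nat.odd_iff.mp hk']
  refine ⟨h2, ?_⟩
  have h3 : ρ h ^ k = ρ h ^ k' := by
    rcases rho_pow_cases hh k with ⟨e1, e2⟩ | ⟨e1, e2⟩ <;>
      rcases rho_pow_cases hh k' with ⟨e3, e4⟩ | ⟨e3, e4⟩
    · rw [e2, e4]
    · rw [Nat.even_iff] at e1
      rw [Nat.odd_iff] at e3
      omega
    · rw [Nat.odd_iff] at e1
      rw [Nat.even_iff] at e3
      omega
    · rw [e2, e4]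
  have h4 : ρ (t ^ i) = ρ (t ^ i') := by
    have h5 := congrArg ρ heq
    rw [map_mul, map_mul, map_pow ρ h, map_pow ρ h, h3, ← map_pow ρ h] at h5
    calc ρ (t ^ i) = ρ (t ^ i) * ρ (h ^ k') * ρ (h ^ k')⁻¹ := by
          rw [mul_assoc, rho_mul_inv, mul_one]
      _ = ρ (t ^ i') := by rw [h5, mul_assoc, rho_mul_inv, mul_one]
  have key : ∀ m n : ℕ, m ≤ n → ρ (t ^ n) = ρ (t ^ m) →
      n % orderOf (ρ t) = m % orderOf (ρ t) := by
    intro m n hmn e
    have e1 : ρ (t ^ (n - m)) = 1 := by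
      have e2 : t ^ (n - m) = t ^ n * (t ^ m)⁻¹ := by
        rw [eq_mul_inv_iff_mul_eq, ← pow_add, Nat.sub_add_cancel hmn]
      rw [e2, map_mul, e, rho_mul_inv]
    rw [map_pow] at e1
    have e3 := orderOf_dvd_of_pow_eq_one e1
    exact ((Nat.modEq_iff_dvd' hmn).mpr e3).symm
  rcases le_total i i' with hle | hle
  · exact (key i i' hle h4.symm).symm
  · exact key i' i hle h4

theorem sq_of_pow {x : G} {a c : ℕ} (h1 : x ^ (4 * c + 2) = 1) (h2 : x ^ (2 ^ a) = 1) :
    x ^ 2 = 1 := by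
  have h3 := orderOf_dvd_of_pow_eq_one h2
  obtain ⟨b, hb, hb'⟩ := (Nat.dvd_prime_pow Nat.prime_two).mp h3
  have h4 := orderOf_dvd_of_pow_eq_one h1
  rw [hb'] at h4
  have h5 : b ≤ 1 := by
    by_contra hcon
    have h6 : (2 : ℕ) ^ 2 ∣ 2 ^ b := pow_dvd_pow 2 (by omega)
    have h7 := dvd_trans h6 h4
    norm_num at h7
    omega
  rw [← orderOf_dvd_iff_pow_eq_one, hb']
  exact dvd_trans (pow_dvd_pow 2 h5) (by norm_num)

section top

variable (k : Key (fun _ => True) ρ)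

include k

theorem all_elems {t h : G} (hh : (ρ h).det = -1)
    (hD : ∀ g, (ρ g).det = 1 → ∃ m : ℕ, ρ g = ρ t ^ m) (g : G) :
    ∃ i j : ℕ, g = t ^ i * h ^ j := by
  have key : ∀ g, (ρ g).det = 1 → ∃ i j : ℕ, g = t ^ i * h ^ j := by
    intro g hg
    obtain ⟨m, hm⟩ := hD g hg
    have h1 : ρ ((t ^ m)⁻¹ * g) = 1 := by
      rw [map_mul, hm, ← map_pow, rho_inv_mul]
    obtain ⟨j, hj⟩ := exists_pow_of_mem (ker_mem k hh h1)
    refine ⟨m, 2 * j, ?_⟩
    rw [pow_mul, hj, mul_inv_cancel_left]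
  rcases rho_det ρ g with hd | hd
  · exact key g hd
  · obtain ⟨i, j, hij⟩ := key (g * h⁻¹) (by rw [det_mul', hd, det_inv', hh]; norm_num)
    refine ⟨i, j + 1, ?_⟩
    rw [pow_succ, ← mul_assoc, ← hij, inv_mul_cancel_right]

theorem closure_of {t h : G} (hall : ∀ g : G, ∃ i j : ℕ, g = t ^ i * h ^ j) :
    Subgroup.closure {t, h} = ⊤ := by
  rw [eq_top_iff]
  intro g _
  obtain ⟨i, j, rfl⟩ := hall g
  exact Subgroup.mul_mem _ (Subgroup.pow_mem _ (Subgroup.subset_closure (by simp)) _)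
    (Subgroup.pow_mem _ (Subgroup.subset_closure (by simp)) _)

/-- the exponent of the action of a reflection on a rotation -/
theorem conj_exp {t h : G} (ht : (ρ t).det = 1) (hh : (ρ h).det = -1) :
    ∃ j : ℕ, h * t = t ^ j * h ∧ orderOf (ρ t) ∣ j + 1 := by
  obtain ⟨j, hj⟩ := conj_pow k ht h
  refine ⟨j, hj, ?_⟩
  apply orderOf_dvd_of_pow_eq_one
  have h1 : h * t * h⁻¹ = t ^ j := by rw [hj, mul_inv_cancel_right]
  have h2 := rho_conj hh ht
  rw [h1, map_pow] at h2
  rw [pow_succ, h2, rho_inv_mul]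

theorem pow_of_ker {h n : G} {a : ℕ} (hh : (ρ h).det = -1) (ha : orderOf (h ^ 2) = 2 ^ a)
    (hn : ρ n = 1) : n ^ (2 ^ a) = 1 := by
  obtain ⟨j, hj⟩ := exists_pow_of_mem (ker_mem k hh hn)
  rw [← hj, ← pow_mul, mul_comm, pow_mul, ← ha, pow_orderOf_eq_one, one_pow]

theorem case_three {t₀ h : G} (ht₀ : (ρ t₀).det = 1) (hh : (ρ h).det = -1)
    (hD : ∀ g, (ρ g).det = 1 → ∃ m : ℕ, ρ g = ρ t₀ ^ m) (h3 : orderOf (ρ t₀) = 3) :
    IsInvMeta G 3 2 0 ∨ IsInvMeta G 3 4 0 := by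
  obtain ⟨a, ha⟩ := order_sq k hh
  obtain ⟨t, ht, htρ, t3⟩ : ∃ t, (ρ t).det = 1 ∧ ρ t = ρ t₀ ∧ t ^ 3 = 1 := by
    refine ⟨t₀ ^ (4 ^ a), ?_, ?_, ?_⟩
    · rw [map_pow, Matrix.det_pow, ht₀, one_pow]
    · rw [map_pow, ← pow_mod_orderOf, h3, Nat.pow_mod]
      norm_num
    · have h1 : ρ (t₀ ^ 3) = 1 := by rw [map_pow, ← h3, pow_orderOf_eq_one]
      have h2 := pow_of_ker k hh ha h1
      rw [← pow_mul, mul_comm, show (4 : ℕ) = 2 * 2 by norm_num, mul_pow, ← mul_assoc, pow_mul,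
        pow_mul, h2, one_pow]
  have h3' : orderOf (ρ t) = 3 := by rw [htρ, h3]
  have hD' : ∀ g, (ρ g).det = 1 → ∃ m : ℕ, ρ g = ρ t ^ m := by
    rw [htρ]
    exact hD
  have t3' : t * t = t⁻¹ := by
    rw [eq_inv_iff_mul_eq_one, ← pow_two, ← pow_succ, t3]
  have htt : h * t = t⁻¹ * h := by
    obtain ⟨j, hj, hd⟩ := conj_exp k ht hh
    rw [h3'] at hd
    obtain ⟨c, hc⟩ := hd
    have : t ^ j = t⁻¹ := by
      rw [eq_inv_iff_mul_eq_one, ← pow_succ, hc, pow_mul, t3, one_pow]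
    rw [hj, this]
  have ht1 : ρ t ≠ 1 := by
    intro h1
    rw [h1, orderOf_one] at h3'
    norm_num at h3'
  have ha1 : a ≤ 1 := by
    by_contra hcon
    refine nil_false k hh ht ht1 htt t3' ?_
    rw [ha]
    have : (2 : ℕ) ^ 2 ∣ 2 ^ a := pow_dvd_pow 2 (by omega)
    norm_num at this
    exact this
  have hall := all_elems k hh hD'
  have hcl := closure_of k hall
  have hconj : h * t * h⁻¹ = t⁻¹ := by rw [htt, mul_inv_cancel_right]
  interval_cases a
  · left
    rw [pow_zero, orderOf_eq_one_iff] at ha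
    have hh2 : h ^ 2 = t ^ 0 := by rw [ha, pow_zero]
    refine ⟨t, h, hcl, hconj, t3, hh2, card_of (by norm_num) (by norm_num) t3 hh2 hall ?_⟩
    intro i i' m m' hi hi' hm hm' heq
    obtain ⟨e1, e2⟩ := inj_of ht hh heq
    rw [h3'] at e2
    omega
  · right
    rw [pow_one] at ha
    have hh4' : (h ^ 2) ^ 2 = 1 := by
      have := pow_orderOf_eq_one (h ^ 2)
      rwa [ha] at this
    have hh4 : h ^ 4 = t ^ 0 := by rw [pow_zero, ← hh4', ← pow_mul]
    have hh2 : h ^ 2 ≠ 1 := by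
      intro h1
      rw [h1, orderOf_one] at ha
      norm_num at ha
    refine ⟨t, h, hcl, hconj, t3, hh4, card_of (by norm_num) (by norm_num) t3 hh4 hall ?_⟩
    intro i i' m m' hi hi' hm hm' heq
    obtain ⟨e1, e2⟩ := inj_of ht hh heq
    rw [h3'] at e2
    have e3 : i = i' := by omega
    refine ⟨e3, ?_⟩
    rw [e3] at heq
    have e4 := mul_left_cancel heq
    by_contra hne
    rcases Nat.lt_or_gt_of_ne hne with hlt | hlt
    · have e5 : m' = m + 2 := by omega
      rw [e5, pow_add, eq_comm, mul_eq_left] at e4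
      exact hh2 e4
    · have e5 : m = m' + 2 := by omega
      rw [e5, pow_add, mul_eq_left] at e4
      exact hh2 e4

theorem rot_exp {t h : G} (ht : (ρ t).det = 1) (hh : (ρ h).det = -1) (h4 : orderOf (ρ t) = 4) :
    t ^ 8 = 1 ∧ (h * t = t⁻¹ * h ∨ h * t = t ^ 3 * h) ∧ (t ^ 4 = 1 → h * t = t⁻¹ * h) := by
  obtain ⟨a, ha⟩ := order_sq k hh
  obtain ⟨j, hj, hd⟩ := conj_exp k ht hh
  rw [h4] at hd
  obtain ⟨c, hc⟩ : ∃ c, j = 4 * c + 3 := ⟨j / 4, by omega⟩
  have hw : ρ (t ^ 4) = 1 := by rw [map_pow, ← h4, pow_orderOf_eq_one]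
  have hpow : ∀ m : ℕ, h * t ^ m = (t ^ j) ^ m * h := by
    intro m
    induction m with
    | zero => rw [pow_zero, pow_zero, mul_one, one_mul]
    | succ m ih => rw [pow_succ, ← mul_assoc, ih, mul_assoc, hj, ← mul_assoc, ← pow_succ]
  have h1 : t ^ 4 = (t ^ j) ^ 4 := by
    have e1 := hpow 4
    rw [← ker_comm k hh hw h] at e1
    exact mul_right_cancel e1
  have h2 : (t ^ 4) ^ (4 * c + 2) = 1 := by
    have e1 : t ^ 4 * (t ^ 4) ^ (4 * c + 2) = t ^ 4 * 1 := by
      calc t ^ 4 * (t ^ 4) ^ (4 * c + 2) = (t ^ (4 * c + 3)) ^ 4 := by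
            rw [← pow_mul, ← pow_add, ← pow_mul]
            congr 1
            ring
        _ = t ^ 4 * 1 := by rw [← hc, ← h1, mul_one]
    exact mul_left_cancel e1
  have h3 := sq_of_pow h2 (pow_of_ker k hh ha hw)
  have h8 : t ^ 8 = 1 := by rw [← h3, ← pow_mul]
  have h7 : t ^ 7 = t⁻¹ := by rw [eq_inv_iff_mul_eq_one, ← pow_succ, h8]
  refine ⟨h8, ?_, ?_⟩
  · rcases Nat.even_or_odd c with ⟨d, hd'⟩ | ⟨d, hd'⟩
    · right
      rw [hj, hc, hd', show 4 * (d + d) + 3 = 8 * d + 3 by ring, pow_add, pow_mul, h8, one_pow,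
        one_mul]
    · left
      rw [hj, hc, hd', show 4 * (2 * d + 1) + 3 = 8 * d + 7 by ring, pow_add, pow_mul, h8, one_pow,
        one_mul, h7]
  · intro h5
    have h6 : t ^ 3 = t⁻¹ := by rw [eq_inv_iff_mul_eq_one, ← pow_succ, h5]
    rw [hj, hc, pow_add, pow_mul, h5, one_pow, one_mul, h6]

theorem order_four {t : G} (ht : ρ t ^ 2 = -1) : orderOf (ρ t) = 4 := by
  have h4 : orderOf (ρ t) = 2 ^ (1 + 1) := by
    apply orderOf_eq_prime_pow
    · rw [pow_one, ht]
      intro h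
      have := congrArg (fun M : M2 => M 0 0) h
      simp at this
      norm_num at this
    · rw [show 2 ^ (1 + 1) = 2 * 2 by norm_num, pow_mul, ht]
      norm_num
  rw [h4]
  norm_num

theorem case_four {t₀ h : G} (ht₀ : (ρ t₀).det = 1) (hh : (ρ h).det = -1)
    (hD : ∀ g, (ρ g).det = 1 → ∃ m : ℕ, ρ g = ρ t₀ ^ m) (hsq : ρ t₀ ^ 2 = -1) :
    IsInvMeta G 4 2 0 ∨ IsInvMeta G 4 4 0 ∨ IsInvMeta G 8 2 4 := by
  obtain ⟨a, ha⟩ := order_sq k hh
  have hhsq : ρ (h ^ 2) = 1 := by rw [map_pow, pow_two, rho_sq_of_neg hh]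
  by_cases hA : ∃ t, (ρ t).det = 1 ∧ ρ t = ρ t₀ ∧ t ^ 4 = 1
  · obtain ⟨t, ht, htρ, t4⟩ := hA
    have h4 : orderOf (ρ t) = 4 := order_four k (by rw [htρ, hsq])
    obtain ⟨h8, -, hcj⟩ := rot_exp k ht hh h4
    have htt := hcj t4
    have hD' : ∀ g, (ρ g).det = 1 → ∃ m : ℕ, ρ g = ρ t ^ m := by
      rw [htρ]
      exact hD
    have hall := all_elems k hh hD'
    have hcl := closure_of k hall
    have hconj : h * t * h⁻¹ = t⁻¹ := by rw [htt, mul_inv_cancel_right]
    -- the square of `h` has order at most two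
    have hz : (h ^ 2) ^ 2 = 1 := by
      have e1 : ρ (t * h ^ 2) = ρ t := by rw [map_mul, hhsq, mul_one]
      have e2 : (ρ (t * h ^ 2)).det = 1 := by rw [e1, ht]
      obtain ⟨j, hj, hd⟩ := conj_exp k e2 hh
      rw [e1, h4] at hd
      obtain ⟨c, hc⟩ : ∃ c, j = 4 * c + 3 := ⟨j / 4, by omega⟩
      have e3 : h ^ 2 * t = t * h ^ 2 := ker_comm k hh hhsq t
      have e4 : (t * h ^ 2) ^ j = t⁻¹ * (h ^ 2) ^ j := by
        rw [(show Commute t (h ^ 2) from e3.symm).mul_pow]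
        congr 1
        rw [eq_inv_iff_mul_eq_one, ← pow_succ, hc, show 4 * c + 3 + 1 = 4 * (c + 1) by ring,
          pow_mul, t4, one_pow]
      rw [e4, ← mul_assoc, htt, mul_assoc, mul_assoc] at hj
      have e5 := mul_left_cancel hj
      have e6 : h * h ^ 2 = h ^ 2 * h := (pow_succ' h 2).symm.trans (pow_succ h 2)
      rw [e6] at e5
      have e7 := mul_right_cancel e5
      have e8 : (h ^ 2) ^ (4 * c + 2) = 1 := by
        have e9 : (h ^ 2) ^ (4 * c + 2) * h ^ 2 = 1 * h ^ 2 := by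
          rw [← pow_succ, one_mul]
          rw [hc] at e7
          exact e7.symm
        exact mul_right_cancel e9
      exact sq_of_pow e8 (pow_of_ker k hh ha hhsq)
    by_cases h1 : h ^ 2 = 1
    · left
      have hh2 : h ^ 2 = t ^ 0 := by rw [h1, pow_zero]
      refine ⟨t, h, hcl, hconj, t4, hh2, card_of (by norm_num) (by norm_num) t4 hh2 hall ?_⟩
      intro i i' m m' hi hi' hm hm' heq
      obtain ⟨e1, e2⟩ := inj_of ht hh heq
      rw [h4] at e2
      omega
    · right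
      left
      have hh4 : h ^ 4 = t ^ 0 := by rw [pow_zero, ← hz, ← pow_mul]
      refine ⟨t, h, hcl, hconj, t4, hh4, card_of (by norm_num) (by norm_num) t4 hh4 hall ?_⟩
      intro i i' m m' hi hi' hm hm' heq
      obtain ⟨e1, e2⟩ := inj_of ht hh heq
      rw [h4] at e2
      have e3 : i = i' := by omega
      refine ⟨e3, ?_⟩
      rw [e3] at heq
      have e4 := mul_left_cancel heq
      by_contra hne
      rcases Nat.lt_or_gt_of_ne hne with hlt | hlt
      · have e5 : m' = m + 2 := by omega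
        rw [e5, pow_add, eq_comm, mul_eq_left] at e4
        exact h1 e4
      · have e5 : m = m' + 2 := by omega
        rw [e5, pow_add, mul_eq_left] at e4
        exact h1 e4
  · right
    right
    have h4 : orderOf (ρ t₀) = 4 := order_four k hsq
    have hw1 : t₀ ^ 4 ≠ 1 := fun h1 => hA ⟨t₀, ht₀, rfl, h1⟩
    obtain ⟨h8, hcj, -⟩ := rot_exp k ht₀ hh h4
    have hwk : ρ (t₀ ^ 4) = 1 := by rw [map_pow, ← h4, pow_orderOf_eq_one]
    obtain ⟨j, hj⟩ := exists_pow_of_mem (ker_mem k hh hwk)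
    have hw2 : (t₀ ^ 4) ^ 2 = 1 := by rw [← pow_mul, h8]
    have ha0 : a ≠ 0 := by
      rintro rfl
      rw [pow_zero, orderOf_eq_one_iff] at ha
      rw [ha, one_pow] at hj
      exact hw1 hj.symm
    -- the involution
    have hinv : t₀ ^ 4 = (h ^ 2) ^ (2 ^ (a - 1)) := by
      have e1 : 2 ^ a ∣ j * 2 := by
        rw [← ha]
        apply orderOf_dvd_of_pow_eq_one
        rw [pow_mul, hj, hw2]
      obtain ⟨b, rfl⟩ : ∃ b, a = b + 1 := ⟨a - 1, by omega⟩
      rw [Nat.add_sub_cancel]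
      rw [pow_succ] at e1
      obtain ⟨c, hc⟩ := Nat.dvd_of_mul_dvd_mul_right (by norm_num) e1
      rcases Nat.even_or_odd c with ⟨d, hd⟩ | ⟨d, hd⟩
      · exfalso
        apply hw1
        rw [← hj, hc, hd, show 2 ^ b * (d + d) = 2 ^ (b + 1) * d by ring, pow_mul, ← ha,
          pow_orderOf_eq_one, one_pow]
      · rw [← hj, hc, hd, show 2 ^ b * (2 * d + 1) = 2 ^ (b + 1) * d + 2 ^ b by ring, pow_add,
          pow_mul, ← ha, pow_orderOf_eq_one, one_pow, one_mul]
    have ha1 : a = 1 := by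
      by_contra hne
      obtain ⟨b, rfl⟩ : ∃ b, a = b + 2 := ⟨a - 2, by omega⟩
      set z := (h ^ 2) ^ (2 ^ b) with hz
      have hzk : ρ z = 1 := by rw [hz, map_pow, hhsq, one_pow]
      have hz2 : z ^ 2 = t₀ ^ 4 := by
        rw [hinv, hz, ← pow_mul]
        congr 1
      have hzt : ∀ g, z * g = g * z := ker_comm k hh hzk
      set x := t₀ ^ 2 * z with hx
      have hx2 : x * x = 1 := by
        have e1 : x * x = t₀ ^ 2 * (z * t₀ ^ 2) * z := by rw [hx]; simp only [mul_assoc]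
        rw [e1, hzt, ← mul_assoc, ← pow_add, mul_assoc, ← pow_two, hz2, ← pow_add]
        exact h8
      have hxρ : ρ x = -1 := by rw [hx, map_mul, hzk, mul_one, map_pow, hsq]
      have hxd : (ρ x).det = 1 := by
        rw [hxρ, Matrix.det_neg, Matrix.det_one]
        norm_num
      obtain ⟨i, hi⟩ := conj_pow k hxd h
      have hxh : h * x = x * h := by
        rcases Nat.even_or_odd i with ⟨d, hd⟩ | ⟨d, hd⟩
        · exfalso
          rw [hd, ← two_mul, pow_mul, pow_two, hx2, one_pow, one_mul, mul_eq_left] at hi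
          rw [hi, map_one] at hxρ
          have := congrArg (fun M : M2 => M 0 0) hxρ
          simp at this
          norm_num at this
        · rwa [hd, pow_succ, pow_mul, pow_two, hx2, one_pow, one_mul] at hi
      have e1 : h * t₀ ^ 2 = t₀⁻¹ ^ 2 * h := by
        rcases hcj with e | e
        · rw [pow_two, ← mul_assoc, e, mul_assoc, e, ← mul_assoc, pow_two]
        · rw [pow_two, ← mul_assoc, e, mul_assoc, e, ← mul_assoc, ← pow_add]
          congr 1
          rw [inv_pow, eq_inv_iff_mul_eq_one, ← pow_add]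
          exact h8
      have e2 : t₀⁻¹ ^ 2 * h * z = t₀ ^ 2 * h * z := by
        have e3 : h * x = t₀⁻¹ ^ 2 * h * z := by rw [hx, ← mul_assoc, e1]
        have e4 : x * h = t₀ ^ 2 * h * z := by rw [hx, mul_assoc, hzt, mul_assoc]
        rw [← e3, hxh, e4]
      have e3 := mul_right_cancel (mul_right_cancel e2)
      apply hw1
      rw [show (4 : ℕ) = 2 + 2 by norm_num, pow_add]
      nth_rewrite 1 [← e3]
      rw [inv_pow, inv_mul_cancel]
    subst ha1
    rw [Nat.sub_self, pow_zero, pow_one] at hinv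
    rw [pow_one] at ha
    have htt : h * t₀ = t₀⁻¹ * h := by
      rcases hcj with e | e
      · exact e
      · exfalso
        have e1 : (ρ (t₀ * h)).det = -1 := by rw [det_mul', ht₀, hh, one_mul]
        have e2 : (t₀ * h) ^ 2 = 1 := by
          calc (t₀ * h) ^ 2 = t₀ * (h * t₀) * h := by rw [pow_two]; simp only [mul_assoc]
            _ = t₀ * t₀ ^ 3 * (h * h) := by rw [e]; simp only [mul_assoc]
            _ = t₀ ^ 4 * h ^ 2 := by rw [← pow_succ', pow_two h]
            _ = 1 := by rw [← hinv, ← pow_two, hw2]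
        have e3 := ker_mem k e1 hhsq
        rw [e2, Subgroup.zpowers_one_eq_bot, Subgroup.mem_bot] at e3
        rw [e3, orderOf_one] at ha
        norm_num at ha
    have hall := all_elems k hh hD
    have hcl := closure_of k hall
    have hconj : h * t₀ * h⁻¹ = t₀⁻¹ := by rw [htt, mul_inv_cancel_right]
    refine ⟨t₀, h, hcl, hconj, h8, hinv.symm,
      card_of (by norm_num) (by norm_num) h8 hinv.symm hall ?_⟩
    intro i i' m m' hi hi' hm hm' heq
    obtain ⟨e1, e2⟩ := inj_of ht₀ hh heq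
    rw [h4] at e2
    have e3 : m = m' := by omega
    refine ⟨?_, e3⟩
    rw [e3] at heq
    have e4 := mul_right_cancel heq
    by_contra hne
    rcases Nat.lt_or_gt_of_ne hne with hlt | hlt
    · have e5 : i' = i + 4 := by omega
      rw [e5, pow_add, eq_comm, mul_eq_left] at e4
      exact hw1 e4
    · have e5 : i = i' + 4 := by omega
      rw [e5, pow_add, mul_eq_left] at e4
      exact hw1 e4

/-- the classification of the groups with a key representation -/
theorem exceptional_of_key : Exceptional G := by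
  have hc := k.isScal
  obtain ⟨h, hh⟩ := exists_neg hc (fun g h hd => conj_pow k hd g)
  obtain ⟨t, ht, hD, h3 | ⟨-, h4⟩⟩ := exists_rot hc hh (rot_sq k (fun _ => trivial) hh)
  · rcases case_three k ht hh hD h3 with h | h
    · exact Or.inl h
    · exact Or.inr (Or.inr (Or.inl h))
  · rcases case_four k ht hh hD h4 with h | h | h
    · exact Or.inr (Or.inl h)
    · exact Or.inr (Or.inr (Or.inr (Or.inl h)))
    · exact Or.inr (Or.inr (Or.inr (Or.inr h)))

end top

end Pool.Agent.H447.Gal
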