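import Mathlib
import Pool.Agent.H447.Gal.Five

set_option autoImplicit false
set_option linter.unusedSectionVars false

/-!
# The case of an involution which is not central
-/

namespace Pool.Agent.H447.Gal

open MonoidAlgebra

variable {G : Type} [Group G] [Finite G] {ρ : G →* M2}

theorem mem_zpowers_invol {c x : G} (hc : c * c = 1) (hx : x ∈ Subgroup.zpowers c) :
    x = 1 ∨ x = c := by
  obtain ⟨j, rfl⟩ := exists_pow_of_mem hx
  rcases Nat.even_or_odd j with ⟨i, hi⟩ | ⟨i, hi⟩
  · left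
    rw [hi, ← two_mul, pow_mul, pow_two, hc, one_pow]
  · right
    rw [hi, pow_succ, pow_mul, pow_two, hc, one_pow, one_mul]

theorem exceptional_of_nonc {c : G} (hc : c * c = 1) {P : MonoidAlgebra ℚ G → Prop}
    (hP : ∀ g, P (nb c g)) (k : Key P ρ) {g : G} (hg : g * c ≠ c * g) :
    IsInvMeta G 3 2 0 ∨ IsInvMeta G 4 2 0 := by
  have hg' : g⁻¹ * c * g ∉ Subgroup.zpowers c := by
    intro hmem
    rcases mem_zpowers_invol hc hmem with h | h
    · have : c = 1 := by
        have e : g * (g⁻¹ * c * g) * g⁻¹ = c := by group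
        rw [h, mul_one, mul_inv_cancel] at e
        exact e.symm
      rw [this, mul_one, one_mul] at hg
      exact hg rfl
    · apply hg
      nth_rewrite 1 [← h]
      group
  have hh := k.det_neg (hP g) hg'
  have hinj : ∀ n, ρ n = 1 → n = 1 := by
    intro n hn
    have h1 := k.mul_el (nb_sq c g) (hP g) hn
    rcases mem_zpowers_invol hc (mem_of_nb_mul hg' h1) with h | h
    · exact h
    · rw [h] at hn
      exact absurd hn (rho_ne_one_of_neg hh)
  have hinj' : ∀ x y, ρ x = ρ y → x = y := by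
    intro x y hxy
    have h1 := hinj (x * y⁻¹) (by rw [map_mul, hxy, rho_mul_inv])
    exact mul_inv_eq_one.mp h1
  obtain ⟨t, ht, hD, hor⟩ := exists_rot k.isScal hh (rot_sq k hP hh)
  have hall : ∀ g : G, ∃ i j : ℕ, g = t ^ i * c ^ j := by
    have key : ∀ g, (ρ g).det = 1 → ∃ i : ℕ, g = t ^ i := by
      intro g hg
      obtain ⟨m, hm⟩ := hD g hg
      exact ⟨m, hinj' _ _ (by rw [hm, map_pow])⟩
    intro g
    rcases rho_det ρ g with hd | hd
    · obtain ⟨i, hi⟩ := key g hd
      exact ⟨i, 0, by rw [pow_zero, mul_one]; exact hi⟩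
    · obtain ⟨i, hi⟩ := key (g * c⁻¹) (by rw [det_mul', hd, det_inv', hh]; norm_num)
      exact ⟨i, 1, by rw [pow_one, ← hi, inv_mul_cancel_right]⟩
  have hcl : Subgroup.closure {t, c} = ⊤ := by
    rw [eq_top_iff]
    intro g _
    obtain ⟨i, j, rfl⟩ := hall g
    exact Subgroup.mul_mem _ (Subgroup.pow_mem _ (Subgroup.subset_closure (by simp)) _)
      (Subgroup.pow_mem _ (Subgroup.subset_closure (by simp)) _)
  have hconj : c * t * c⁻¹ = t⁻¹ := hinj' _ _ (rho_conj hh ht)
  have hc2 : c ^ 2 = t ^ 0 := by rw [pow_two, hc, pow_zero]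
  rcases hor with h3 | ⟨h4, -⟩
  · left
    have t3 : t ^ 3 = 1 := hinj _ (by rw [map_pow, ← h3, pow_orderOf_eq_one])
    refine ⟨t, c, hcl, hconj, t3, hc2, card_of (by norm_num) (by norm_num) t3 hc2 hall ?_⟩
    intro i i' m m' hi hi' hm hm' heq
    obtain ⟨e1, e2⟩ := inj_of ht hh heq
    rw [h3] at e2
    omega
  · right
    have t4 : t ^ 4 = 1 := hinj _ (by rw [map_pow, ← h4, pow_orderOf_eq_one])
    refine ⟨t, c, hcl, hconj, t4, hc2, card_of (by norm_num) (by norm_num) t4 hc2 hall ?_⟩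
    intro i i' m m' hi hi' hm hm' heq
    obtain ⟨e1, e2⟩ := inj_of ht hh heq
    rw [h4] at e2
    omega

end Pool.Agent.H447.Gal
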