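import Mathlib
import Pool.Agent.H447.Gal.Nonc
import Pool.Agent.H447.Gen.NMF

set_option autoImplicit false
set_option linter.unusedSectionVars false

/-!
# The quotient by a central involution
-/

namespace Pool.Agent.H447.Gal

open MonoidAlgebra
open Pool.Agent.H447.Gen (idem idem_mul idem_mul_el)

theorem exists_sq_zero {R : Type} [Ring R] (h : ¬ IsReduced R) : ∃ b : R, b ≠ 0 ∧ b * b = 0 := by
  rw [isReduced_iff_pow_one_lt 2 (by norm_num)] at h
  push Not at h
  obtain ⟨b, h1, h2⟩ := h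
  exact ⟨b, h2, by rw [← pow_two, h1]⟩

variable {G : Type} [Group G] [Finite G] {Γ : Type} [Group Γ]

theorem el_mul_idem {c g g' : G} (hc : c * c = 1) (h : g⁻¹ * g' ∈ Subgroup.zpowers c) :
    el g * idem c = el g' * idem c := by
  have h1 : el c * idem c = idem c := by
    have : el c * idem c = idem c * el c := by
      unfold Pool.Agent.H447.Gen.idem
      rw [mul_smul_comm, smul_mul_assoc, mul_add, add_mul, mul_one, one_mul]
    rw [this, idem_mul_el c hc]
  rcases mem_zpowers_invol hc h with h2 | h2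
  · rw [inv_mul_eq_one] at h2
    rw [h2]
  · have : g' = g * c := by rw [← h2, mul_inv_cancel_left]
    rw [this, el_mul, mul_assoc, h1]

theorem central_of_ker {c : G} (hc : c * c = 1) (π : G →* Γ)
    (hker : π.ker = Subgroup.zpowers c) (g : G) : g * c = c * g := by
  have h1 : c ∈ π.ker := by
    rw [hker]
    exact Subgroup.mem_zpowers c
  have h2 : g * c * g⁻¹ ∈ π.ker := (MonoidHom.normal_ker π).conj_mem c h1 g
  rw [hker] at h2
  rcases mem_zpowers_invol hc h2 with h | h
  · have : c = 1 := by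
      have e : g⁻¹ * (g * c * g⁻¹) * g = c := by group
      rw [h, mul_one, inv_mul_cancel] at e
      exact e.symm
    rw [this, mul_one, one_mul]
  · exact mul_inv_eq_iff_eq_mul.mp h

theorem classify_quotient {c : G} (hc : c * c = 1)
    (hkey : ∀ b₀ : MonoidAlgebra ℚ G, b₀ ≠ 0 → b₀ * b₀ = 0 → b₀ * idem c = b₀ →
      ∃ ρ : G →* M2, Key (fun b => b * idem c = b) ρ)
    (π : G →* Γ) (hπ : Function.Surjective π) (hker : π.ker = Subgroup.zpowers c) :
    IsReduced (MonoidAlgebra ℚ Γ) ∨ Exceptional Γ := by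
  classical
  by_contra hcon
  push Not at hcon
  obtain ⟨hred, hexc⟩ := hcon
  obtain ⟨b', hb', hb'sq⟩ := exists_sq_zero hred
  have hfin : Finite Γ := Finite.of_surjective π hπ
  -- the section
  let s : Γ → G := Function.surjInv hπ
  have hs : ∀ γ, π (s γ) = γ := Function.surjInv_eq hπ
  let pr : MonoidAlgebra ℚ G →ₐ[ℚ] MonoidAlgebra ℚ Γ :=
    MonoidAlgebra.lift ℚ (MonoidAlgebra ℚ Γ) G ((MonoidAlgebra.of ℚ Γ).comp π)
  have hpr : ∀ g, pr (el g) = el (π g) := by
    intro g
    show MonoidAlgebra.lift ℚ (MonoidAlgebra ℚ Γ) G ((MonoidAlgebra.of ℚ Γ).comp π) (el g) = _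
    rw [el, MonoidAlgebra.lift_single, one_smul]
    rfl
  -- every element is a combination of group elements
  have hspan : ∀ (H : Type) [Group H] (y : MonoidAlgebra ℚ H) (p : MonoidAlgebra ℚ H → Prop),
      (∀ g, p (el g)) → (∀ x y, p x → p y → p (x + y)) → (∀ (r : ℚ) x, p x → p (r • x)) → p y := by
    intro H _ y p h1 h2 h3
    exact MonoidAlgebra.induction_on (motive := p) y h1 h2 h3
  have hprs : Function.Surjective pr := by
    intro y
    refine hspan Γ y (fun y => ∃ x, pr x = y) ?_ ?_ ?_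
    · intro γ
      exact ⟨el (s γ), by rw [hpr, hs]⟩
    · rintro x y ⟨a, rfl⟩ ⟨b, rfl⟩
      exact ⟨a + b, map_add _ _ _⟩
    · rintro r x ⟨a, rfl⟩
      exact ⟨r • a, map_smul _ _ _⟩
  have hcen : ∀ g, g * c = c * g := central_of_ker hc π hker
  have hπc : π c = 1 := by
    have : c ∈ π.ker := by
      rw [hker]
      exact Subgroup.mem_zpowers c
    exact this
  have hpre : pr (idem c) = 1 := by
    have : pr (idem c) = (1 / 2 : ℚ) • (1 + el (π c)) := by
      unfold Pool.Agent.H447.Gen.idem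
      rw [map_smul, map_add, map_one]
      congr 2
      exact hpr c
    rw [this, hπc, el_one, ← two_smul ℚ, smul_smul]
    norm_num
  -- the linear map `el γ ↦ el (s γ) * e`
  have hsec : ∃ σ : MonoidAlgebra ℚ Γ →ₗ[ℚ] MonoidAlgebra ℚ G,
      ∀ y, y * idem c = σ (pr y) := by
    let σ : MonoidAlgebra ℚ Γ →ₗ[ℚ] MonoidAlgebra ℚ G :=
      (Finsupp.lsum ℚ fun γ => LinearMap.toSpanSingleton ℚ _ (el (s γ) * idem c)) ∘ₗ
        (MonoidAlgebra.coeffLinearEquiv ℚ).toLinearMap
    have hσ : ∀ γ, σ (el γ) = el (s γ) * idem c := by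
      intro γ
      show (Finsupp.lsum ℚ fun γ => LinearMap.toSpanSingleton ℚ _ (el (s γ) * idem c))
        (Finsupp.single γ (1 : ℚ)) = _
      rw [Finsupp.lsum_single, LinearMap.toSpanSingleton_apply, one_smul]
    refine ⟨σ, fun y => ?_⟩
    refine hspan G y (fun y => y * idem c = σ (pr y)) ?_ ?_ ?_
    · intro g
      show el g * idem c = σ (pr (el g))
      rw [hpr, hσ]
      apply el_mul_idem hc
      rw [← hker, MonoidHom.mem_ker, map_mul, hs, ← map_mul, inv_mul_cancel, map_one]
    · intro x y hx hy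
      show (x + y) * idem c = σ (pr (x + y))
      rw [add_mul, map_add, map_add, hx, hy]
    · intro r x hx
      show (r • x) * idem c = σ (pr (r • x))
      rw [smul_mul_assoc, map_smul, map_smul, hx]
  obtain ⟨σ, hσ⟩ := hsec
  have hkill : ∀ y, pr y = 0 → y * idem c = 0 := by
    intro y hy
    rw [hσ, hy, map_zero]
  have hecen : ∀ y, idem c * y = y * idem c := by
    intro y
    refine hspan G y (fun y => idem c * y = y * idem c) ?_ ?_ ?_
    · intro g
      show idem c * el g = el g * idem c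
      unfold Pool.Agent.H447.Gen.idem
      rw [mul_smul_comm, smul_mul_assoc, mul_add, add_mul, mul_one, one_mul]
      have e : el c * el g = el g * el c := by rw [← el_mul, ← el_mul, hcen]
      exact congrArg (fun z => (1 / 2 : ℚ) • (el g + z)) e
    · intro x y hx hy
      show idem c * (x + y) = (x + y) * idem c
      rw [mul_add, add_mul, hx, hy]
    · intro r x hx
      show idem c * (r • x) = (r • x) * idem c
      rw [smul_mul_assoc, mul_smul_comm, hx]
  have hee : idem c * idem c = idem c := idem_mul c hc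
  -- lifting of elements of square zero
  have hliftsq : ∀ x' : MonoidAlgebra ℚ Γ, x' * x' = 0 → ∃ x, pr x = x' ∧ x * x = 0 ∧
      x * idem c = x := by
    intro x' hx'
    obtain ⟨y, hy⟩ := hprs x'
    refine ⟨y * idem c, by rw [map_mul, hpre, mul_one, hy], ?_, by rw [mul_assoc, hee]⟩
    rw [mul_assoc, ← mul_assoc (idem c), hecen, mul_assoc y (idem c), hee, ← mul_assoc]
    apply hkill
    rw [map_mul, hy, hx']
  obtain ⟨b₀, hb₀, hb₀sq, hb₀e⟩ := hliftsq b' hb'sq
  have hb₀0 : b₀ ≠ 0 := by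
    rintro rfl
    rw [map_zero] at hb₀
    exact hb' hb₀.symm
  obtain ⟨ρ, hρ⟩ := hkey b₀ hb₀0 hb₀sq hb₀e
  -- `c` acts trivially
  have hρc : ρ c = 1 := by
    obtain ⟨r, hr⟩ := hρ.comm (ρ c) (fun g => by rw [← map_mul, ← map_mul, hcen])
    have h1 : ρ c * ρ c = 1 := by rw [← map_mul, hc, map_one]
    have h2 : r = 1 ∨ r = -1 := by
      rw [hr, smul_mul_smul_comm, mul_one] at h1
      have h3 := congrArg (fun M : M2 => M 0 0) h1
      simp only [Matrix.smul_apply, Matrix.one_apply_eq, smul_eq_mul, mul_one] at h3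
      exact mul_self_eq_one_iff.mp h3
    rcases h2 with h2 | h2
    · rw [hr, h2, one_smul]
    · exfalso
      apply hρ.lift_ne hb₀sq hb₀e hb₀0
      rw [← hb₀e, map_mul]
      have h3 : MonoidAlgebra.lift ℚ M2 G ρ (idem c) = (1 / 2 : ℚ) • (1 + ρ c) := by
        unfold Pool.Agent.H447.Gen.idem
        rw [map_smul, map_add, map_one]
        exact congrArg (fun z => (1 / 2 : ℚ) • (1 + z)) (lift_el c)
      rw [h3, hr, h2, neg_smul, one_smul, add_neg_cancel, smul_zero, mul_zero]
  have hρker : ∀ g g', π g = π g' → ρ g = ρ g' := by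
    intro g g' h
    have h1 : g⁻¹ * g' ∈ Subgroup.zpowers c := by
      rw [← hker, MonoidHom.mem_ker, map_mul, ← h, ← map_mul, inv_mul_cancel, map_one]
    rcases mem_zpowers_invol hc h1 with h2 | h2
    · rw [inv_mul_eq_one.mp h2]
    · have : g' = g * c := by rw [← h2, mul_inv_cancel_left]
      rw [this, map_mul, hρc, mul_one]
  let ρ' : Γ →* M2 :=
    { toFun := fun γ => ρ (s γ)
      map_one' := by
        rw [← map_one ρ]
        exact hρker _ _ (by rw [hs, map_one])
      map_mul' := fun γ δ => by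
        rw [← map_mul]
        exact hρker _ _ (by rw [hs, map_mul, hs, hs]) }
  have hρ' : ∀ g, ρ' (π g) = ρ g := fun g => hρker _ _ (hs _)
  have hlift : ∀ y, MonoidAlgebra.lift ℚ M2 G ρ y = MonoidAlgebra.lift ℚ M2 Γ ρ' (pr y) := by
    intro y
    refine hspan G y (fun y => MonoidAlgebra.lift ℚ M2 G ρ y =
      MonoidAlgebra.lift ℚ M2 Γ ρ' (pr y)) ?_ ?_ ?_
    · intro g
      show MonoidAlgebra.lift ℚ M2 G ρ (el g) = MonoidAlgebra.lift ℚ M2 Γ ρ' (pr (el g))
      rw [hpr, lift_el, lift_el, hρ']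
    · intro x y hx hy
      show MonoidAlgebra.lift ℚ M2 G ρ (x + y) = MonoidAlgebra.lift ℚ M2 Γ ρ' (pr (x + y))
      rw [map_add, map_add, map_add, hx, hy]
    · intro r x hx
      show MonoidAlgebra.lift ℚ M2 G ρ (r • x) = MonoidAlgebra.lift ℚ M2 Γ ρ' (pr (r • x))
      rw [map_smul, map_smul, map_smul, hx]
  apply hexc
  apply exceptional_of_key (ρ := ρ')
  refine ⟨?_, ?_⟩
  · intro A hA
    exact hρ.comm A (fun g => by rw [← hρ', hA])
  · intro b x hb _ hl
    obtain ⟨y, hy, hysq, hye⟩ := hliftsq b hb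
    obtain ⟨z, hz⟩ := hprs x
    have h1 := hρ.sep y z hysq hye (by rw [hlift, map_mul, hy, hz, hl])
    rw [← hy, ← hz, ← map_mul, h1, map_zero]

end Pool.Agent.H447.Gal
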