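import Mathlib
import Pool.Agent.H447.Clo.Rep
import Pool.Agent.H447.Clo.CharDefs
import Pool.Agent.H447.Clo.Class
import Pool.Agent.H447.Gal.Quot

set_option autoImplicit false
set_option linter.unusedSectionVars false

/-!
# Multiplicities in the group algebra
-/

namespace Pool.Agent.H447.Gal

open MonoidAlgebra Module Pool.Agent.H447.Clo

variable {G : Type} [Group G] {V : Type} [AddCommGroup V] [Module ℚ V]

/-- The `m`-th power of `ρ` is a quotient of the group algebra. -/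
def Pow (m : ℕ) (ρ : Representation ℚ G V) : Prop :=
  ∃ v : Fin m → V, ∀ x : Fin m → V, ∃ a : MonoidAlgebra ℚ G, ∀ j, ρ.asAlgebraHom a (v j) = x j

theorem asAlg_el (ρ : Representation ℚ G V) (g : G) : ρ.asAlgebraHom (el g) = ρ g := by
  rw [el, Representation.asAlgebraHom_single_one]

/-- what commutes with the group commutes with the group algebra -/
theorem asAlg_comm {W : Type} [AddCommGroup W] [Module ℚ W] (ρ : Representation ℚ G V)
    (σ : Representation ℚ G W) (f : V →ₗ[ℚ] W) (hf : Equi ρ σ f) (a : MonoidAlgebra ℚ G) (v : V) :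
    f (ρ.asAlgebraHom a v) = σ.asAlgebraHom a (f v) := by
  refine MonoidAlgebra.induction_on (motive := fun a => f (ρ.asAlgebraHom a v) =
    σ.asAlgebraHom a (f v)) a ?_ ?_ ?_
  · intro g
    show f (ρ.asAlgebraHom (el g) v) = σ.asAlgebraHom (el g) (f v)
    rw [asAlg_el, asAlg_el, hf]
  · intro x y hx hy
    rw [map_add, map_add, LinearMap.add_apply, LinearMap.add_apply, map_add, hx, hy]
  · intro r x hx
    rw [map_smul, map_smul, LinearMap.smul_apply, LinearMap.smul_apply, map_smul, hx]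

/-- the alternative for stable subspaces -/
theorem irr_cases (ρ : Representation ℚ G V) [ρ.IsIrreducible] (W : Submodule ℚ V)
    (hW : ∀ g, ∀ w ∈ W, ρ g w ∈ W) : W = ⊥ ∨ W = ⊤ := by
  let S : Subrepresentation ρ :=
    { toSubmodule := W
      apply_mem_toSubmodule := fun g u hu => hW g u hu }
  rcases eq_bot_or_eq_top S with h | h
  · exact Or.inl (congrArg Subrepresentation.toSubmodule h)
  · exact Or.inr (congrArg Subrepresentation.toSubmodule h)

/-- a central operator on an irreducible representation vanishes if it kills a vector -/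
theorem central_zero (ρ : Representation ℚ G V) [ρ.IsIrreducible] (c : V →ₗ[ℚ] V)
    (hc : ∀ g v, c (ρ g v) = ρ g (c v)) {v : V} (hv : v ≠ 0) (h : c v = 0) : c = 0 := by
  by_contra h0
  exact hv (inj_of_equi ρ ρ c hc h0 (by rw [h, map_zero]))

/-- **No multiplicity if the group algebra is reduced.** -/
theorem not_pow_of_reduced [Finite G] (hG : IsReduced (MonoidAlgebra ℚ G))
    (ρ : Representation ℚ G V) [ρ.IsIrreducible] : ¬ Pow 2 ρ := by
  rintro ⟨v, hv⟩
  have hss : IsSemisimpleRing (MonoidAlgebra ℚ G) := by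
    have : NeZero (Nat.card G : ℚ) := ⟨by exact_mod_cast Nat.card_pos.ne'⟩
    infer_instance
  -- the map
  let f : MonoidAlgebra ℚ G →ₗ[MonoidAlgebra ℚ G] (Fin 2 → Gen.AM ρ) :=
    LinearMap.toSpanSingleton (MonoidAlgebra ℚ G) (Fin 2 → Gen.AM ρ)
      (fun j => Gen.toAM ρ (v j))
  have hf : Function.Surjective f := by
    intro x
    obtain ⟨a, ha⟩ := hv (fun j => (Gen.toAM ρ).symm (x j))
    refine ⟨a, ?_⟩
    funext j
    show a • Gen.toAM ρ (v j) = x j
    rw [Gen.smul_AM, ha, LinearEquiv.apply_symm_apply]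
  obtain ⟨h, hh⟩ := IsSemisimpleModule.lifting_property f hf LinearMap.id
  let ν : (Fin 2 → Gen.AM ρ) →ₗ[MonoidAlgebra ℚ G] (Fin 2 → Gen.AM ρ) :=
    LinearMap.single (MonoidAlgebra ℚ G) (fun _ => Gen.AM ρ) 1 ∘ₗ LinearMap.proj 0
  have hν : ∀ x, ν (ν x) = 0 := by
    intro x
    show Pi.single 1 ((Pi.single 1 (x 0) : Fin 2 → Gen.AM ρ) 0) = (0 : Fin 2 → Gen.AM ρ)
    rw [Pi.single_eq_of_ne (by decide), Pi.single_zero]
  let φ : MonoidAlgebra ℚ G →ₗ[MonoidAlgebra ℚ G] MonoidAlgebra ℚ G := h ∘ₗ ν ∘ₗ f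
  have hfh : ∀ x, f (h x) = x := fun x => LinearMap.congr_fun hh x
  have hφ : ∀ x, φ (φ x) = 0 := by
    intro x
    show h (ν (f (h (ν (f x))))) = 0
    rw [hfh, hν, map_zero]
  have hφ1 : ∀ a, φ a = a * φ 1 := by
    intro a
    have := φ.map_smul a 1
    rwa [smul_eq_mul, mul_one, smul_eq_mul] at this
  have hsq : φ 1 * φ 1 = 0 := by rw [← hφ1, hφ]
  have h0 : φ 1 = 0 := by
    have hn : IsNilpotent (φ 1) := ⟨2, by rw [pow_two, hsq]⟩
    exact hG.eq_zero _ hn
  have hφ0 : ∀ a, φ a = 0 := fun a => by rw [hφ1, h0, mul_zero]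
  obtain ⟨w, hw⟩ := (nontrivial_of_irr ρ).exists_pair_ne
  obtain ⟨w', hw'⟩ := hw
  have hu : w - w' ≠ 0 := sub_ne_zero.mpr hw'
  obtain ⟨a, ha⟩ := hf (fun _ => Gen.toAM ρ (w - w'))
  have h1 := hφ0 a
  have h2 : f (φ a) = ν (f a) := by
    show f (h (ν (f a))) = ν (f a)
    rw [hfh]
  rw [h1, map_zero, ha] at h2
  have h3 := congrFun h2 1
  have h4 : (ν (fun _ => Gen.toAM ρ (w - w'))) 1 = Gen.toAM ρ (w - w') := by
    show (Pi.single 1 (Gen.toAM ρ (w - w')) : Fin 2 → Gen.AM ρ) 1 = _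
    rw [Pi.single_eq_same]
  rw [h4] at h3
  apply hu
  exact (Gen.toAM ρ).injective (h3.symm.trans (map_zero _).symm)

section form

variable [Fintype G] [FiniteDimensional ℚ V] (ρ : Representation ℚ G V)

/-- The operator `∑ c_g g⁻¹`. -/
noncomputable def adj (a : MonoidAlgebra ℚ G) : V →ₗ[ℚ] V := ∑ g : G, a.coeff g • ρ g⁻¹

theorem asAlg_eq (a : MonoidAlgebra ℚ G) : ρ.asAlgebraHom a = ∑ g : G, a.coeff g • ρ g := by
  classical
  refine MonoidAlgebra.induction_on (motive := fun a => ρ.asAlgebraHom a =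
    ∑ g : G, a.coeff g • ρ g) a ?_ ?_ ?_
  · intro g
    show ρ.asAlgebraHom (el g) = ∑ k : G, (el g).coeff k • ρ k
    rw [asAlg_el, Finset.sum_eq_single g]
    · rw [el, MonoidAlgebra.coeff_single, Finsupp.single_eq_same, one_smul]
    · intro k _ hk
      rw [el, MonoidAlgebra.coeff_single, Finsupp.single_eq_of_ne hk, zero_smul]
    · intro h
      exact absurd (Finset.mem_univ g) h
  · intro x y hx hy
    rw [map_add, hx, hy, ← Finset.sum_add_distrib]
    exact Finset.sum_congr rfl fun g _ => (add_smul _ _ _).symm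
  · intro r x hx
    rw [map_smul, hx, Finset.smul_sum]
    exact Finset.sum_congr rfl fun g _ => (mul_smul _ _ _).symm

/-- If all `g + g⁻¹` act centrally, then `a* a` acts centrally. -/
theorem norm_central (hq : ∀ g k : G, ∀ v, ρ g (ρ k v) + ρ g (ρ k⁻¹ v) =
      ρ k (ρ g v) + ρ k⁻¹ (ρ g v)) (a : MonoidAlgebra ℚ G) (l : G) (v : V) :
    adj ρ a (ρ.asAlgebraHom a (ρ l v)) = ρ l (adj ρ a (ρ.asAlgebraHom a v)) := by
  have key : ∀ w : V, (2 : ℚ) • adj ρ a (ρ.asAlgebraHom a w) =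
      ∑ g : G, ∑ k : G, (a.coeff g * a.coeff k) • (ρ (g⁻¹ * k) w + ρ (g⁻¹ * k)⁻¹ w) := by
    intro w
    have e1 : adj ρ a (ρ.asAlgebraHom a w) =
        ∑ g : G, ∑ k : G, (a.coeff g * a.coeff k) • ρ (g⁻¹ * k) w := by
      rw [asAlg_eq]
      unfold adj
      rw [LinearMap.sum_apply]
      refine Finset.sum_congr rfl fun g _ => ?_
      rw [LinearMap.sum_apply, LinearMap.smul_apply, map_sum, Finset.smul_sum]
      refine Finset.sum_congr rfl fun k _ => ?_
      rw [LinearMap.smul_apply, map_smul, smul_smul, map_mul]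
      rfl
    have e2 : ∑ g : G, ∑ k : G, (a.coeff g * a.coeff k) • ρ (g⁻¹ * k) w =
        ∑ g : G, ∑ k : G, (a.coeff g * a.coeff k) • ρ (g⁻¹ * k)⁻¹ w := by
      rw [Finset.sum_comm]
      refine Finset.sum_congr rfl fun g _ => Finset.sum_congr rfl fun k _ => ?_
      rw [mul_inv_rev, inv_inv, mul_comm (a.coeff k)]
    rw [two_smul]
    nth_rewrite 2 [e1]
    rw [e1, e2, ← e2]
    nth_rewrite 2 [e2]
    rw [← Finset.sum_add_distrib]
    refine Finset.sum_congr rfl fun g _ => ?_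
    rw [← Finset.sum_add_distrib]
    exact Finset.sum_congr rfl fun k _ => (smul_add _ _ _).symm
  have h2 : (2 : ℚ) • adj ρ a (ρ.asAlgebraHom a (ρ l v)) =
      (2 : ℚ) • ρ l (adj ρ a (ρ.asAlgebraHom a v)) := by
    rw [← map_smul (ρ l), key, key, map_sum]
    refine Finset.sum_congr rfl fun g _ => ?_
    rw [map_sum]
    refine Finset.sum_congr rfl fun k _ => ?_
    rw [map_smul, map_add]
    congr 1
    exact (hq l (g⁻¹ * k) v).symm
  have h3 := congrArg (fun x => (1 / 2 : ℚ) • x) h2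
  simp only [smul_smul] at h3
  norm_num at h3
  exact h3

/-- an invariant positive definite form -/
theorem exists_form : ∃ B : V → V → ℚ, (∀ x y z, B (x + y) z = B x z + B y z) ∧
    (∀ (r : ℚ) x z, B (r • x) z = r * B x z) ∧ (∀ x y z, B z (x + y) = B z x + B z y) ∧
    (∀ (r : ℚ) x z, B z (r • x) = r * B z x) ∧ (∀ g x y, B (ρ g x) y = B x (ρ g⁻¹ y)) ∧
    ∀ x, B x x = 0 → x = 0 := by
  classical
  let b := Module.finBasis ℚ V
  refine ⟨fun x y => ∑ g : G, ∑ i, b.repr (ρ g x) i * b.repr (ρ g y) i, ?_, ?_, ?_, ?_, ?_, ?_⟩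
  · intro x y z
    simp only [map_add, Finsupp.add_apply, add_mul, Finset.sum_add_distrib]
  · intro r x z
    simp only [map_smul, Finsupp.smul_apply, smul_eq_mul, Finset.mul_sum, mul_assoc]
  · intro x y z
    simp only [map_add, Finsupp.add_apply, mul_add, Finset.sum_add_distrib]
  · intro r x z
    simp only [map_smul, Finsupp.smul_apply, smul_eq_mul, Finset.mul_sum]
    refine Finset.sum_congr rfl fun g _ => Finset.sum_congr rfl fun i _ => ?_
    ring
  · intro k x y
    refine Fintype.sum_equiv (Equiv.mulRight k) _ _ fun g => ?_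
    refine Finset.sum_congr rfl fun i _ => ?_
    have e1 : ρ (g * k) x = ρ g (ρ k x) := by rw [map_mul]; rfl
    have e2 : ρ (g * k) (ρ k⁻¹ y) = ρ g y := by
      rw [← Module.End.mul_apply, ← map_mul, mul_inv_cancel_right]
    show b.repr (ρ g (ρ k x)) i * b.repr (ρ g y) i =
      b.repr (ρ (g * k) x) i * b.repr (ρ (g * k) (ρ k⁻¹ y)) i
    rw [e1, e2]
  · intro x hx
    have h1 : ∀ g ∈ (Finset.univ : Finset G), 0 ≤ ∑ i, b.repr (ρ g x) i * b.repr (ρ g x) i :=
      fun g _ => Finset.sum_nonneg fun i _ => mul_self_nonneg _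
    have h2 := (Finset.sum_eq_zero_iff_of_nonneg h1).mp hx 1 (Finset.mem_univ _)
    have h3 := (Finset.sum_eq_zero_iff_of_nonneg
      (fun i _ => mul_self_nonneg (b.repr (ρ 1 x) i))).mp h2
    apply b.repr.injective
    rw [map_zero]
    ext i
    have h4 := mul_self_eq_zero.mp (h3 i (Finset.mem_univ i))
    rw [map_one] at h4
    exact h4

/-- **The quaternion criterion.** -/
theorem not_pow_of_central [ρ.IsIrreducible]
    (hq : ∀ g k : G, ∀ v, ρ g (ρ k v) + ρ g (ρ k⁻¹ v) = ρ k (ρ g v) + ρ k⁻¹ (ρ g v)) :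
    ¬ Pow 2 ρ := by
  rintro ⟨v, hv⟩
  -- `v 1` is not zero
  have hv1 : v 1 ≠ 0 := by
    intro h
    obtain ⟨w, w', hw⟩ := (nontrivial_of_irr ρ).exists_pair_ne
    obtain ⟨a, ha⟩ := hv (fun _ => w - w')
    have := ha 1
    rw [h, map_zero] at this
    exact sub_ne_zero.mpr hw this.symm
  obtain ⟨a, ha⟩ := hv ![v 1, 0]
  have ha0 : ρ.asAlgebraHom a (v 0) = v 1 := ha 0
  have ha1 : ρ.asAlgebraHom a (v 1) = 0 := ha 1
  have hN : (adj ρ a) ∘ₗ (ρ.asAlgebraHom a) = 0 := by
    apply central_zero ρ _ (fun g w => norm_central ρ hq a g w) hv1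
    rw [LinearMap.comp_apply, ha1, map_zero]
  obtain ⟨B, hB1, hB2, hB3, hB4, hB5, hB6⟩ := exists_form ρ
  have hsum : ∀ (s : Finset G) (F : G → V) (y : V), B (∑ g ∈ s, F g) y = ∑ g ∈ s, B (F g) y := by
    classical
    intro s F y
    induction s using Finset.induction_on with
    | empty =>
      rw [Finset.sum_empty, Finset.sum_empty]
      have := hB2 0 0 y
      rwa [zero_smul, zero_mul] at this
    | insert a s ha ih => rw [Finset.sum_insert ha, Finset.sum_insert ha, hB1, ih]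
  have hsum' : ∀ (s : Finset G) (F : G → V) (y : V), B y (∑ g ∈ s, F g) = ∑ g ∈ s, B y (F g) := by
    classical
    intro s F y
    induction s using Finset.induction_on with
    | empty =>
      rw [Finset.sum_empty, Finset.sum_empty]
      have := hB4 0 0 y
      rwa [zero_smul, zero_mul] at this
    | insert a s ha ih => rw [Finset.sum_insert ha, Finset.sum_insert ha, hB3, ih]
  have hadj : ∀ x y, B (ρ.asAlgebraHom a x) y = B x (adj ρ a y) := by
    intro x y
    rw [asAlg_eq]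
    unfold adj
    rw [LinearMap.sum_apply, LinearMap.sum_apply, hsum, hsum']
    refine Finset.sum_congr rfl fun g _ => ?_
    rw [LinearMap.smul_apply, LinearMap.smul_apply, hB2, hB4, hB5]
  have h1 : B (ρ.asAlgebraHom a (v 0)) (ρ.asAlgebraHom a (v 0)) = 0 := by
    rw [hadj]
    have : adj ρ a (ρ.asAlgebraHom a (v 0)) = 0 := LinearMap.congr_fun hN (v 0)
    rw [this]
    have := hB4 0 0 (v 0)
    rwa [zero_smul, zero_mul] at this
  rw [ha0] at h1
  exact hv1 (hB6 _ h1)

end form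

end Pool.Agent.H447.Gal
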