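import Mathlib
import Pool.Agent.H447.Gal.Pow

set_option autoImplicit false
set_option linter.unusedSectionVars false

/-!
# The exceptional groups are nearly multiplicity free
-/

namespace Pool.Agent.H447.Gal

open MonoidAlgebra Module Pool.Agent.H447.Clo

/-- The group algebra of `G` is nearly multiplicity free. -/
structure GroupNMF (G : Type) [Group G] : Prop where
  no_three : ∀ (V : Type) [AddCommGroup V] [Module ℚ V] (ρ : Representation ℚ G V),
    ρ.IsIrreducible → Pow 2 ρ → ¬ Pow 3 ρ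
  scalar : ∀ (V : Type) [AddCommGroup V] [Module ℚ V] (ρ : Representation ℚ G V),
    ρ.IsIrreducible → Pow 2 ρ → ∀ α : V →ₗ[ℚ] V, (∀ g v, α (ρ g v) = ρ g (α v)) →
      ∃ r : ℚ, ∀ v, α v = r • v
  unique : ∀ (V V' : Type) [AddCommGroup V] [Module ℚ V] [AddCommGroup V'] [Module ℚ V']
    (ρ : Representation ℚ G V) (ρ' : Representation ℚ G V'),
    ρ.IsIrreducible → ρ'.IsIrreducible → Pow 2 ρ → Pow 2 ρ' →
      ∃ e : V ≃ₗ[ℚ] V', ∀ g v, e (ρ g v) = ρ' g (e v)

theorem groupNMF_of_reduced {G : Type} [Group G] [Finite G]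
    (hG : IsReduced (MonoidAlgebra ℚ G)) : GroupNMF G where
  no_three _ _ _ ρ _ h := absurd h (not_pow_of_reduced hG ρ)
  scalar _ _ _ ρ _ h := absurd h (not_pow_of_reduced hG ρ)
  unique _ _ _ _ _ _ ρ _ _ _ h := absurd h (not_pow_of_reduced hG ρ)

section exc

variable {G : Type} [Group G] {t h : G} {V : Type} [AddCommGroup V] [Module ℚ V]
  (ρ : Representation ℚ G V)

theorem comm_all (hcl : Subgroup.closure {t, h} = ⊤) {W : Type} [AddCommGroup W] [Module ℚ W]
    (σ : Representation ℚ G W) (f : V →ₗ[ℚ] W) (ht : ∀ v, f (ρ t v) = σ t (f v))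
    (hh : ∀ v, f (ρ h v) = σ h (f v)) (g : G) (v : V) : f (ρ g v) = σ g (f v) := by
  have hg : g ∈ Subgroup.closure {t, h} := by rw [hcl]; exact Subgroup.mem_top g
  revert v
  induction hg using Subgroup.closure_induction with
  | mem x hx =>
    rcases hx with rfl | hx
    · exact ht
    · rw [Set.mem_singleton_iff] at hx
      rw [hx]
      exact hh
  | one =>
    intro v
    rw [map_one, map_one]
    rfl
  | mul x y _ _ hx hy =>
    intro v
    rw [map_mul, map_mul, Module.End.mul_apply, Module.End.mul_apply, hx, hy]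
  | inv x _ hx =>
    intro v
    have h1 : f (ρ x (ρ x⁻¹ v)) = σ x (f (ρ x⁻¹ v)) := hx _
    have h2 : ρ x (ρ x⁻¹ v) = v := by
      rw [← Module.End.mul_apply, ← map_mul, mul_inv_cancel, map_one]
      rfl
    rw [h2] at h1
    rw [h1, ← Module.End.mul_apply, ← map_mul, inv_mul_cancel, map_one]
    rfl

theorem form_all (hcl : Subgroup.closure {t, h} = ⊤) (htt : h * t = t⁻¹ * h) (h4 : h ^ 4 = 1)
    (g : G) : ∃ (i : ℤ) (e : ℕ), g = t ^ i * h ^ e := by
  have hswap1 : ∀ i : ℤ, h * t ^ i = t ^ (-i) * h := by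
    intro i
    have h1 : h * t * h⁻¹ = t⁻¹ := by rw [htt, mul_inv_cancel_right]
    have h2 : h * t ^ i * h⁻¹ = t ^ (-i) := by
      rw [← conj_zpow, h1, inv_zpow, zpow_neg]
    rw [← h2, inv_mul_cancel_right]
  have hswap : ∀ (e : ℕ) (i : ℤ), ∃ i' : ℤ, h ^ e * t ^ i = t ^ i' * h ^ e := by
    intro e
    induction e with
    | zero => exact fun i => ⟨i, by rw [pow_zero, one_mul, mul_one]⟩
    | succ e ih =>
      intro i
      obtain ⟨i', hi'⟩ := ih (-i)
      exact ⟨i', by rw [pow_succ, mul_assoc, hswap1, ← mul_assoc, hi', mul_assoc]⟩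
  have hg : g ∈ Subgroup.closure {t, h} := by rw [hcl]; exact Subgroup.mem_top g
  induction hg using Subgroup.closure_induction with
  | mem x hx =>
    rcases hx with rfl | hx
    · exact ⟨1, 0, by rw [zpow_one, pow_zero, mul_one]⟩
    · rw [Set.mem_singleton_iff] at hx
      exact ⟨0, 1, by rw [hx, zpow_zero, pow_one, one_mul]⟩
  | one => exact ⟨0, 0, by rw [zpow_zero, pow_zero, mul_one]⟩
  | mul x y _ _ hx hy =>
    obtain ⟨i, e, rfl⟩ := hx
    obtain ⟨i', e', rfl⟩ := hy
    obtain ⟨k, hk⟩ := hswap e i'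
    exact ⟨i + k, e + e', by
      rw [zpow_add, pow_add, mul_assoc, ← mul_assoc (h ^ e), hk]
      simp only [mul_assoc]⟩
  | inv x _ hx =>
    obtain ⟨i, e, rfl⟩ := hx
    have h1 : (h ^ e)⁻¹ = h ^ (3 * e) := by
      rw [inv_eq_iff_mul_eq_one, ← pow_add, show e + 3 * e = 4 * e by ring, pow_mul, h4, one_pow]
    obtain ⟨k, hk⟩ := hswap (3 * e) (-i)
    exact ⟨k, 3 * e, by rw [mul_inv_rev, h1, ← zpow_neg, hk]⟩

theorem central_invol (c : V →ₗ[ℚ] V) [ρ.IsIrreducible] (hc : ∀ g v, c (ρ g v) = ρ g (c v))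
    (h2 : ∀ v, c (c v) = v) : (∀ v, c v = v) ∨ ∀ v, c v = -v := by
  by_cases h : ∃ v, c v + v ≠ 0
  · left
    obtain ⟨v, hv⟩ := h
    have h3 : (c - LinearMap.id) = 0 := by
      apply central_zero ρ _ _ hv
      · rw [LinearMap.sub_apply, map_add, h2, LinearMap.id_apply]
        abel
      · intro g w
        rw [LinearMap.sub_apply, LinearMap.sub_apply, map_sub, hc]
        rfl
    intro w
    have := LinearMap.congr_fun h3 w
    rw [LinearMap.sub_apply, LinearMap.zero_apply] at this
    exact sub_eq_zero.mp this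
  · right
    push Not at h
    exact fun v => eq_neg_of_add_eq_zero_left (h v)

variable [Fintype G] [FiniteDimensional ℚ V]

/-- The structure of an irreducible representation of multiplicity at least two. -/
theorem exists_model (hcl : Subgroup.closure {t, h} = ⊤) (htt : h * t = t⁻¹ * h)
    (h4 : h ^ 4 = 1) (τ : ℚ) (hτ : (t ^ 3 = 1 ∧ τ = 1) ∨ ((t ^ 4 = 1 ∨ t ^ 4 = h ^ 2) ∧ τ = 0))
    [ρ.IsIrreducible] (hP : Pow 2 ρ) : ∃ φ : (ℚ × ℚ) ≃ₗ[ℚ] V,
      (∀ x y : ℚ, ρ t (φ (x, y)) = φ (-y, x - τ * y)) ∧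
      ∀ x y : ℚ, ρ h (φ (x, y)) = φ (x - τ * y, -y) := by
  have hmul : ∀ a b : G, ∀ v, ρ (a * b) v = ρ a (ρ b v) := fun a b v => by
    rw [map_mul, Module.End.mul_apply]
  have hinv : ∀ a : G, ∀ v, ρ a (ρ a⁻¹ v) = v := fun a v => by
    rw [← hmul, mul_inv_cancel, map_one]; rfl
  have hinv' : ∀ a : G, ∀ v, ρ a⁻¹ (ρ a v) = v := fun a v => by
    rw [← hmul, inv_mul_cancel, map_one]; rfl
  have hsw : ∀ v, ρ h (ρ t v) = ρ t⁻¹ (ρ h v) := fun v => by rw [← hmul, htt, hmul]
  have hsw' : ∀ v, ρ t (ρ h v) = ρ h (ρ t⁻¹ v) := by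
    intro v
    have : ρ h (ρ t (ρ t⁻¹ v)) = ρ t⁻¹ (ρ h (ρ t⁻¹ v)) := hsw _
    rw [hinv] at this
    rw [this, hinv]
  have hn_t : ∀ v, ρ (h ^ 2) (ρ t v) = ρ t (ρ (h ^ 2) v) := by
    intro v
    rw [pow_two, hmul, hsw, hmul, hsw']
  have hn_h : ∀ v, ρ (h ^ 2) (ρ h v) = ρ h (ρ (h ^ 2) v) := by
    intro v
    rw [pow_two, hmul, hmul]
  have hn := comm_all ρ hcl ρ (ρ (h ^ 2)) hn_t hn_h
  have hn2 : ∀ v, ρ (h ^ 2) (ρ (h ^ 2) v) = v := by
    intro v
    rw [← hmul, ← pow_add, h4, map_one]
    rfl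
  -- the square of `h` acts trivially
  have hn1 : ∀ v, ρ (h ^ 2) v = v := by
    rcases central_invol ρ (ρ (h ^ 2)) hn hn2 with hc | hc
    · exact hc
    · exfalso
      have hed' : ∀ (d : ℕ) (v : V), ρ ((h ^ 2) ^ d) v = (-1 : ℚ) ^ d • v := by
        intro d
        induction d with
        | zero => intro v; rw [pow_zero, pow_zero, one_smul, map_one]; rfl
        | succ d ih =>
          intro v
          rw [pow_succ, hmul, hc, map_neg, ih, pow_succ, mul_neg_one, neg_smul]
      refine not_pow_of_central ρ ?_ hP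
      intro g k v
      obtain ⟨i, e, rfl⟩ := form_all hcl htt h4 k
      set C : V →ₗ[ℚ] V := ρ (t ^ i * h ^ e) + ρ (t ^ i * h ^ e)⁻¹ with hC
      have key : ∀ (g : G) (v : V), C (ρ g v) = ρ g (C v) := by
        rcases Nat.even_or_odd e with ⟨d, hd⟩ | ⟨d, hd⟩
        · have hz : ∀ i : ℤ, ∀ v, ρ h (ρ (t ^ i) v) = ρ (t ^ (-i)) (ρ h v) := by
            intro i v
            have h1 : h * t * h⁻¹ = t⁻¹ := by rw [htt, mul_inv_cancel_right]
            have h2 : h * t ^ i * h⁻¹ = t ^ (-i) := by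
              rw [← conj_zpow, h1, inv_zpow, zpow_neg]
            rw [← hmul, ← hmul, ← h2, inv_mul_cancel_right]
          have hed : ∀ v, ρ (h ^ e) v = (-1 : ℚ) ^ d • v := by
            intro v
            rw [hd, ← two_mul, pow_mul, hed']
          have hC1 : ∀ v, C v = (-1 : ℚ) ^ d • (ρ (t ^ i) v + ρ (t ^ (-i)) v) := by
            intro v
            have e1 : ρ (t ^ i * h ^ e) v = (-1 : ℚ) ^ d • ρ (t ^ i) v := by
              rw [hmul, hed, map_smul]
            have e2 : ρ (t ^ i * h ^ e)⁻¹ v = (-1 : ℚ) ^ d • ρ (t ^ (-i)) v := by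
              have e3 : ρ (t ^ i * h ^ e) ((-1 : ℚ) ^ d • ρ (t ^ (-i)) v) = v := by
                rw [map_smul, hmul, hed, map_smul, smul_smul, ← hmul, ← zpow_add, add_neg_cancel,
                  zpow_zero, map_one, ← mul_pow]
                norm_num
              calc ρ (t ^ i * h ^ e)⁻¹ v = ρ (t ^ i * h ^ e)⁻¹
                    (ρ (t ^ i * h ^ e) ((-1 : ℚ) ^ d • ρ (t ^ (-i)) v)) := by rw [e3]
                _ = _ := hinv' _ _
            rw [hC, LinearMap.add_apply, e1, e2, smul_add]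
          apply comm_all ρ hcl ρ C
          · intro v
            rw [hC1, hC1, map_smul, map_add, ← hmul, ← hmul, ← hmul, ← hmul]
            congr 3
            · congr 1
              exact (zpow_add_one t i).symm.trans (zpow_one_add t i ▸ by rw [add_comm])
            · congr 1
              exact (zpow_add_one t (-i)).symm.trans (zpow_one_add t (-i) ▸ by rw [add_comm])
          · intro v
            rw [hC1, hC1, map_smul, map_add, hz, hz, neg_neg, add_comm]
        · have hsq : ∀ v, ρ (t ^ i * h ^ e) (ρ (t ^ i * h ^ e) v) = -v := by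
            intro v
            have e1 : (t ^ i * h ^ e) * (t ^ i * h ^ e) = h ^ 2 * h ^ (4 * d) := by
              have h1 : h ^ e * t ^ i = t ^ (-i) * h ^ e := by
                have h2 : h * t * h⁻¹ = t⁻¹ := by rw [htt, mul_inv_cancel_right]
                have h5 : h ^ 2 * t = t * h ^ 2 := by
                  rw [pow_two, mul_assoc, htt, ← mul_assoc]
                  have : h * t⁻¹ = t * h := by
                    have e : h * t⁻¹ * t = t * h * t := by
                      rw [inv_mul_cancel_right, mul_assoc, htt, mul_inv_cancel_left]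
                    exact mul_right_cancel e
                  rw [this, mul_assoc]
                have h6 : h ^ e * t * (h ^ e)⁻¹ = t⁻¹ := by
                  rw [hd, pow_succ', pow_mul]
                  have h7 : (h ^ 2) ^ d * t = t * (h ^ 2) ^ d :=
                    (show Commute (h ^ 2) t from h5).pow_left d
                  rw [mul_inv_rev, mul_assoc h, h7]
                  calc h * (t * (h ^ 2) ^ d) * (((h ^ 2) ^ d)⁻¹ * h⁻¹) = h * t * h⁻¹ := by group
                    _ = t⁻¹ := h2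
                have h8 : h ^ e * t ^ i * (h ^ e)⁻¹ = t ^ (-i) := by
                  rw [← conj_zpow, h6, inv_zpow, zpow_neg]
                rw [← h8, inv_mul_cancel_right]
              calc (t ^ i * h ^ e) * (t ^ i * h ^ e) = t ^ i * (h ^ e * t ^ i) * h ^ e := by
                    simp only [mul_assoc]
                _ = h ^ e * h ^ e := by
                    rw [h1, ← mul_assoc, ← zpow_add, add_neg_cancel, zpow_zero, one_mul]
                _ = h ^ 2 * h ^ (4 * d) := by
                    rw [← pow_add, ← pow_add, hd]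
                    congr 1
                    ring
            rw [← hmul, e1, pow_mul, h4, one_pow, mul_one, hc]
          have hC0 : ∀ v, C v = 0 := by
            intro v
            have e1 : ρ (t ^ i * h ^ e)⁻¹ v = -(ρ (t ^ i * h ^ e) v) := by
              have e2 := congrArg (ρ (t ^ i * h ^ e)⁻¹) (hsq v)
              rw [hinv', map_neg] at e2
              rw [e2, neg_neg]
            rw [hC, LinearMap.add_apply, e1, add_neg_cancel]
          intro g v
          rw [hC0, hC0, map_zero]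
      have h1 := key g v
      rw [hC, LinearMap.add_apply, LinearMap.add_apply, map_add] at h1
      exact h1.symm
  -- `t` does not act as an involution
  have hT2 : ¬ ∀ v, ρ t (ρ t v) = v := by
    intro hT
    have htinv : ∀ v, ρ t⁻¹ v = ρ t v := by
      intro v
      have := congrArg (ρ t⁻¹) (hT v)
      rw [hinv'] at this
      exact this.symm
    have hth : ∀ v, ρ t (ρ h v) = ρ h (ρ t v) := fun v => by rw [hsw, htinv]
    have hct := comm_all ρ hcl ρ (ρ t) (fun v => rfl) (fun v => hth v)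
    have hch := comm_all ρ hcl ρ (ρ h) (fun v => (hth v).symm) (fun v => rfl)
    have hall : ∀ g k v, ρ g (ρ k v) = ρ k (ρ g v) := by
      intro g
      have := comm_all ρ hcl ρ (ρ g) (fun v => (hct g v).symm) (fun v => (hch g v).symm)
      exact this
    refine not_pow_of_central ρ ?_ hP
    intro g k v
    rw [hall g k, hall g k⁻¹]
  -- the quadratic equation
  have hquad : ∀ v, ρ t (ρ t v) = -v - τ • ρ t v := by
    rcases hτ with ⟨t3, rfl⟩ | ⟨t4, rfl⟩
    · have hTT : ∀ v, ρ t⁻¹ v = ρ t (ρ t v) := by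
        intro v
        rw [← hmul]
        congr 2
        rw [inv_eq_iff_mul_eq_one, ← pow_two, ← pow_succ', t3]
      have hc0 : (ρ t + ρ t⁻¹ + LinearMap.id : V →ₗ[ℚ] V) = 0 := by
        obtain ⟨v, hv⟩ : ∃ v, ρ t v - v ≠ 0 := by
          by_contra hcon
          push Not at hcon
          apply hT2
          intro v
          rw [sub_eq_zero.mp (hcon v), sub_eq_zero.mp (hcon v)]
        apply central_zero ρ _ _ hv
        · show ρ t (ρ t v - v) + ρ t⁻¹ (ρ t v - v) + (ρ t v - v) = 0
          rw [map_sub, map_sub, hinv', hTT]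
          abel
        · apply comm_all ρ hcl ρ
          · intro v
            show ρ t (ρ t v) + ρ t⁻¹ (ρ t v) + ρ t v = ρ t (ρ t v + ρ t⁻¹ v + v)
            rw [map_add, map_add, hinv', hinv]
          · intro v
            show ρ t (ρ h v) + ρ t⁻¹ (ρ h v) + ρ h v = ρ h (ρ t v + ρ t⁻¹ v + v)
            rw [map_add, map_add, hsw', hsw]
            abel
      intro v
      have h1 := LinearMap.congr_fun hc0 v
      have h2 : ρ t v + ρ t⁻¹ v + v = 0 := h1
      rw [hTT] at h2
      rw [one_smul]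
      have h3 : ρ t (ρ t v) = (ρ t v + ρ t (ρ t v) + v) - v - ρ t v := by abel
      rw [h3, h2, zero_sub]
    · have ht4 : ∀ v, ρ (t ^ 2) (ρ (t ^ 2) v) = v := by
        intro v
        rw [← hmul, ← pow_add]
        rcases t4 with t4 | t4
        · rw [show 2 + 2 = 4 by norm_num, t4, map_one]
          rfl
        · rw [show 2 + 2 = 4 by norm_num, t4, hn1]
      have h2 : ∀ v, ρ (t ^ 2) (ρ h v) = ρ h (ρ (t ^ 2) v) := by
        intro v
        have e1 : ρ (t ^ 2) v = ρ t⁻¹ (ρ t⁻¹ v) := by
          rw [← hmul]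
          have e2 := congrArg (ρ (t⁻¹ * t⁻¹)) (ht4 v)
          rw [← hmul] at e2
          have e3 : t⁻¹ * t⁻¹ * t ^ 2 = 1 := by rw [pow_two]; group
          rw [e3, map_one] at e2
          exact e2
        rw [e1, pow_two, hmul, hsw', hsw']
      have hct := comm_all ρ hcl ρ (ρ (t ^ 2)) (fun v => by rw [pow_two, hmul, hmul]) h2
      rcases central_invol ρ (ρ (t ^ 2)) hct ht4 with hc | hc
      · exfalso
        apply hT2
        intro v
        rw [← hmul, ← pow_two]
        exact hc v
      · intro v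
        rw [zero_smul, sub_zero, ← hmul, ← pow_two]
        exact hc v
  have htinv : ∀ v, ρ t⁻¹ v = -(ρ t v) - τ • v := by
    intro v
    have e1 := congrArg (ρ t⁻¹) (hquad v)
    rw [hinv', map_sub, map_neg, map_smul, hinv'] at e1
    rw [e1]
    abel
  -- a fixed vector
  obtain ⟨v, hv, hhv⟩ : ∃ v, v ≠ 0 ∧ ρ h v = v := by
    by_contra hcon
    push Not at hcon
    have hneg : ∀ w, ρ h w = -w := by
      intro w
      by_contra hne
      have h1 : ρ h w + w ≠ 0 := fun h0 => hne (eq_neg_of_add_eq_zero_left h0)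
      apply hcon _ h1
      rw [map_add, ← hmul, ← pow_two, hn1]
      abel
    apply hT2
    intro w
    have e1 := hsw w
    rw [hneg, hneg, map_neg, neg_inj] at e1
    have e2 := congrArg (ρ t) e1
    rw [hinv] at e2
    exact e2
  have hhtv : ρ h (ρ t v) = -(ρ t v) - τ • v := by rw [hsw, hhv, htinv]
  have hτ4 : (4 : ℚ) - τ ^ 2 ≠ 0 := by
    rcases hτ with ⟨-, rfl⟩ | ⟨-, rfl⟩ <;> norm_num
  let φ₀ : (ℚ × ℚ) →ₗ[ℚ] V :=
    (LinearMap.toSpanSingleton ℚ V v).coprod (LinearMap.toSpanSingleton ℚ V (ρ t v))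
  have hφ₀ : ∀ x y : ℚ, φ₀ (x, y) = x • v + y • ρ t v := fun x y => rfl
  have htφ : ∀ x y : ℚ, ρ t (φ₀ (x, y)) = φ₀ (-y, x - τ * y) := by
    intro x y
    rw [hφ₀, hφ₀, map_add, map_smul, map_smul, hquad]
    module
  have hhφ : ∀ x y : ℚ, ρ h (φ₀ (x, y)) = φ₀ (x - τ * y, -y) := by
    intro x y
    rw [hφ₀, hφ₀, map_add, map_smul, map_smul, hhv, hhtv]
    module
  have hinj : Function.Injective φ₀ := by
    rw [← LinearMap.ker_eq_bot, LinearMap.ker_eq_bot']
    rintro ⟨x, y⟩ hxy
    rw [hφ₀] at hxy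
    have e1 := congrArg (ρ h) hxy
    rw [map_add, map_smul, map_smul, hhv, hhtv, map_zero] at e1
    have e2 : y • ((2 : ℚ) • ρ t v + τ • v) = 0 := by
      have : y • ((2 : ℚ) • ρ t v + τ • v) = (x • v + y • ρ t v) -
        (x • v + y • (-(ρ t v) - τ • v)) := by module
      rw [this, hxy, e1, sub_zero]
    have hy : y = 0 := by
      rcases smul_eq_zero.mp e2 with h0 | h0
      · exact h0
      · exfalso
        have e3 := congrArg (ρ t) h0
        rw [map_add, map_smul, map_smul, hquad, map_zero] at e3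
        have e4 : ((4 : ℚ) - τ ^ 2) • v = 0 := by
          have : ((4 : ℚ) - τ ^ 2) • v = (-τ) • ((2 : ℚ) • ρ t v + τ • v) -
            (2 : ℚ) • ((2 : ℚ) • (-v - τ • ρ t v) + τ • ρ t v) := by module
          rw [this, h0, e3, smul_zero, smul_zero, sub_zero]
        exact hv ((smul_eq_zero.mp e4).resolve_left hτ4)
    rw [hy, zero_smul, add_zero] at hxy
    have hx := (smul_eq_zero.mp hxy).resolve_right hv
    rw [hx, hy]
    rfl
  have hsurj : Function.Surjective φ₀ := by
    have hfor : ∀ g : G, ∀ w ∈ LinearMap.range φ₀, ρ g w ∈ LinearMap.range φ₀ := by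
      intro g w hw
      obtain ⟨i, e, rfl⟩ := form_all hcl htt h4 g
      have e1 : ∀ e : ℕ, ∀ w ∈ LinearMap.range φ₀, ρ (h ^ e) w ∈ LinearMap.range φ₀ := by
        intro e
        induction e with
        | zero => intro w hw; rw [pow_zero, map_one]; exact hw
        | succ e ih =>
          intro w hw
          rw [pow_succ, hmul]
          apply ih
          obtain ⟨⟨x, y⟩, rfl⟩ := hw
          exact ⟨_, (hhφ x y).symm⟩
      have e2 : ∀ i : ℕ, ∀ w ∈ LinearMap.range φ₀, ρ (t ^ i) w ∈ LinearMap.range φ₀ := by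
        intro i
        induction i with
        | zero => intro w hw; rw [pow_zero, map_one]; exact hw
        | succ i ih =>
          intro w hw
          rw [pow_succ, hmul]
          apply ih
          obtain ⟨⟨x, y⟩, rfl⟩ := hw
          exact ⟨_, (htφ x y).symm⟩
      rw [hmul]
      obtain ⟨m, hm⟩ := exists_pow_of_mem (Subgroup.zpow_mem_zpowers t i)
      rw [← hm]
      exact e2 m _ (e1 e w hw)
    rcases irr_cases ρ (LinearMap.range φ₀) hfor with h0 | h0
    · exfalso
      have h1 : v ∈ LinearMap.range φ₀ := ⟨(1, 0), by rw [hφ₀, one_smul, zero_smul, add_zero]⟩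
      rw [h0] at h1
      exact hv ((Submodule.mem_bot ℚ).mp h1)
    · exact LinearMap.range_eq_top.mp h0
  exact ⟨LinearEquiv.ofBijective φ₀ ⟨hinj, hsurj⟩, htφ, hhφ⟩

end exc

end Pool.Agent.H447.Gal
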