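import Mathlib
import Pool.Agent.H447.Gal.Exc

set_option autoImplicit false
set_option linter.unusedSectionVars false

/-!
# The exceptional groups are nearly multiplicity free: conclusion
-/

namespace Pool.Agent.H447.Gal

open MonoidAlgebra Module Pool.Agent.H447.Clo

variable {G : Type} [Group G] {V : Type} [AddCommGroup V] [Module ℚ V]

theorem finite_of_Pow [Finite G] (m : ℕ) (ρ : Representation ℚ G V) (h : Pow (m + 1) ρ) :
    FiniteDimensional ℚ V := by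
  have : FiniteDimensional ℚ (MonoidAlgebra ℚ G) :=
    Module.Finite.equiv (MonoidAlgebra.coeffLinearEquiv ℚ).symm
  obtain ⟨v, hv⟩ := h
  refine Module.Finite.of_surjective
    ((LinearMap.applyₗ (v 0)) ∘ₗ (ρ.asAlgebraHom.toLinearMap)) ?_
  intro w
  obtain ⟨a, ha⟩ := hv (fun _ => w)
  exact ⟨a, ha 0⟩

/-- The power is at most the dimension. -/
theorem not_Pow_of_finrank [FiniteDimensional ℚ V] (ρ : Representation ℚ G V)
    [ρ.IsIrreducible] (m : ℕ) (hm : finrank ℚ V < m) : ¬ Pow m ρ := by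
  classical
  rintro ⟨v, hv⟩
  have hdep : ¬ LinearIndependent ℚ v := by
    intro h
    have := h.fintype_card_le_finrank
    rw [Fintype.card_fin] at this
    omega
  rw [Fintype.not_linearIndependent_iff] at hdep
  obtain ⟨r, hr, j, hj⟩ := hdep
  obtain ⟨w, w', hw⟩ := (nontrivial_of_irr ρ).exists_pair_ne
  obtain ⟨a, ha⟩ := hv (Pi.single j (w - w'))
  have h1 := congrArg (ρ.asAlgebraHom a) hr
  rw [map_sum, map_zero, Finset.sum_eq_single j] at h1
  · rw [map_smul, ha, Pi.single_eq_same] at h1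
    rcases smul_eq_zero.mp h1 with h2 | h2
    · exact hj h2
    · exact sub_ne_zero.mpr hw h2
  · intro i _ hi
    rw [map_smul, ha, Pi.single_eq_of_ne hi, smul_zero]
  · intro h
    exact absurd (Finset.mem_univ j) h

theorem groupNMF_of_gen [Finite G] {t h : G} (hcl : Subgroup.closure {t, h} = ⊤)
    (htt : h * t = t⁻¹ * h) (h4 : h ^ 4 = 1) (τ : ℚ)
    (hτ : (t ^ 3 = 1 ∧ τ = 1) ∨ ((t ^ 4 = 1 ∨ t ^ 4 = h ^ 2) ∧ τ = 0)) : GroupNMF G where
  no_three V _ _ ρ _ h2 h3 := by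
    have := Fintype.ofFinite G
    have := finite_of_Pow 1 ρ h2
    obtain ⟨φ, -, -⟩ := exists_model ρ hcl htt h4 τ hτ h2
    refine not_Pow_of_finrank ρ 3 ?_ h3
    rw [← φ.finrank_eq, Module.finrank_prod, Module.finrank_self]
    norm_num
  scalar V _ _ ρ _ h2 α hα := by
    have := Fintype.ofFinite G
    have := finite_of_Pow 1 ρ h2
    obtain ⟨φ, h1, h2⟩ := exists_model ρ hcl htt h4 τ hτ h2
    obtain ⟨⟨a, b⟩, hab⟩ := φ.surjective (α (φ (1, 0)))
    have e1 : α (ρ h (φ (1, 0))) = ρ h (α (φ (1, 0))) := hα _ _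
    rw [h2, ← hab, h2] at e1
    simp only [mul_zero, sub_zero, neg_zero] at e1
    rw [← hab] at e1
    have e2 := congrArg Prod.snd (φ.injective e1)
    have hb : b = 0 := by
      have e3 : b = -b := e2
      linarith
    refine ⟨a, ?_⟩
    have hz : α - a • LinearMap.id = 0 := by
      apply central_zero ρ _ (v := φ (1, 0))
      · intro g v
        rw [LinearMap.sub_apply, LinearMap.sub_apply, map_sub, hα, LinearMap.smul_apply,
          LinearMap.smul_apply, map_smul]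
        rfl
      · intro h0
        have := congrArg Prod.fst (φ.injective (h0.trans (map_zero φ).symm))
        exact one_ne_zero this
      · rw [LinearMap.sub_apply, ← hab, hb, LinearMap.smul_apply, LinearMap.id_apply,
          ← map_smul, sub_eq_zero]
        congr 1
        rw [Prod.smul_mk, smul_eq_mul, mul_one, smul_zero]
    intro v
    have := LinearMap.congr_fun hz v
    exact sub_eq_zero.mp this
  unique V V' _ _ _ _ ρ ρ' _ _ h2 h2' := by
    have := Fintype.ofFinite G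
    have := finite_of_Pow 1 ρ h2
    have := finite_of_Pow 1 ρ' h2'
    obtain ⟨φ, a1, a2⟩ := exists_model ρ hcl htt h4 τ hτ h2
    obtain ⟨φ', b1, b2⟩ := exists_model ρ' hcl htt h4 τ hτ h2'
    refine ⟨φ.symm.trans φ', ?_⟩
    have key : ∀ xy, (φ.symm.trans φ') (φ xy) = φ' xy := fun xy => by
      rw [LinearEquiv.trans_apply, LinearEquiv.symm_apply_apply]
    apply comm_all ρ hcl ρ' (φ.symm.trans φ').toLinearMap
    · intro v
      obtain ⟨⟨x, y⟩, rfl⟩ := φ.surjective v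
      show (φ.symm.trans φ') (ρ t (φ (x, y))) = ρ' t ((φ.symm.trans φ') (φ (x, y)))
      rw [a1, key, key, b1]
    · intro v
      obtain ⟨⟨x, y⟩, rfl⟩ := φ.surjective v
      show (φ.symm.trans φ') (ρ h (φ (x, y))) = ρ' h ((φ.symm.trans φ') (φ (x, y)))
      rw [a2, key, key, b2]

theorem groupNMF_of_invMeta {a b j : ℕ} (hab : 0 < a * b)
    (h : IsInvMeta G a b j) (hpos : ∀ t h : G, t ^ a = 1 → h ^ b = t ^ j →
      h ^ 4 = 1 ∧ ∃ τ : ℚ, (t ^ 3 = 1 ∧ τ = 1) ∨ ((t ^ 4 = 1 ∨ t ^ 4 = h ^ 2) ∧ τ = 0)) :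
    GroupNMF G := by
  obtain ⟨t, h, h1, h2, h3, h4, h5⟩ := h
  have : Finite G := Nat.finite_of_card_ne_zero (by omega)
  obtain ⟨h6, τ, h7⟩ := hpos t h h3 h4
  exact groupNMF_of_gen h1 (by rw [← h2]; group) h6 τ h7

theorem groupNMF_32 (h : IsInvMeta G 3 2 0) : GroupNMF G := by
  refine groupNMF_of_invMeta (by norm_num) h ?_
  intro t h h1 h2
  rw [pow_zero] at h2
  exact ⟨by rw [show 4 = 2 * 2 by norm_num, pow_mul, h2, one_pow], 1, Or.inl ⟨h1, rfl⟩⟩

theorem groupNMF_42 (h : IsInvMeta G 4 2 0) : GroupNMF G := by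
  refine groupNMF_of_invMeta (by norm_num) h ?_
  intro t h h1 h2
  rw [pow_zero] at h2
  exact ⟨by rw [show 4 = 2 * 2 by norm_num, pow_mul, h2, one_pow], 0, Or.inr ⟨Or.inl h1, rfl⟩⟩

theorem groupNMF_of_exceptional (h : Exceptional G) : GroupNMF G := by
  rcases h with h | h | h | h | h
  · exact groupNMF_32 h
  · exact groupNMF_42 h
  · refine groupNMF_of_invMeta (by norm_num) h ?_
    intro t h h1 h2
    rw [pow_zero] at h2
    exact ⟨h2, 1, Or.inl ⟨h1, rfl⟩⟩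
  · refine groupNMF_of_invMeta (by norm_num) h ?_
    intro t h h1 h2
    rw [pow_zero] at h2
    exact ⟨h2, 0, Or.inr ⟨Or.inl h1, rfl⟩⟩
  · refine groupNMF_of_invMeta (by norm_num) h ?_
    intro t h h1 h2
    refine ⟨?_, 0, Or.inr ⟨Or.inr h2.symm, rfl⟩⟩
    rw [show 4 = 2 * 2 by norm_num, pow_mul, h2, ← pow_mul]
    exact h1

/-! ## Passing to a quotient -/

theorem irreducible_of_cases (ρ : Representation ℚ G V) [Nontrivial V]
    (h : ∀ W : Submodule ℚ V, (∀ g, ∀ w ∈ W, ρ g w ∈ W) → W = ⊥ ∨ W = ⊤) : ρ.IsIrreducible := by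
  refine @IsSimpleOrder.mk _ _ _ ?_ ?_
  · refine ⟨⊥, ⊤, ?_⟩
    intro h
    exact bot_ne_top (congrArg Subrepresentation.toSubmodule h)
  · intro S
    rcases h S.toSubmodule (fun g w hw => S.apply_mem_toSubmodule g hw) with h | h
    · exact Or.inl (Subrepresentation.toSubmodule_injective h)
    · exact Or.inr (Subrepresentation.toSubmodule_injective h)

section quot

variable {Γ : Type} [Group Γ] (π : G →* Γ) (hπ : Function.Surjective π)
  (ρ : Representation ℚ G V) (htriv : ∀ g, π g = 1 → ρ g = 1)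

include htriv in
theorem rho_eq_of_pi_eq {g g' : G} (h : π g = π g') : ρ g = ρ g' := by
  have h1 : ρ (g * g'⁻¹) = 1 := htriv _ (by rw [map_mul, map_inv, h, mul_inv_cancel])
  have h2 : g = g * g'⁻¹ * g' := by group
  rw [h2, map_mul, h1, one_mul]

include htriv in
theorem exists_desc (hπ : Function.Surjective π) : ∃ ρ' : Representation ℚ Γ V,
    ∀ g, ρ' (π g) = ρ g := by
  have hs : ∀ γ, π (Function.surjInv hπ γ) = γ := Function.surjInv_eq hπ
  refine ⟨{ toFun := fun γ => ρ (Function.surjInv hπ γ)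
            map_one' := ?_
            map_mul' := fun γ δ => ?_ }, fun g => ?_⟩
  · rw [← map_one ρ]
    exact rho_eq_of_pi_eq π ρ htriv (by rw [hs, map_one])
  · rw [← map_mul]
    exact rho_eq_of_pi_eq π ρ htriv (by rw [hs, map_mul, hs, hs])
  · exact rho_eq_of_pi_eq π ρ htriv (hs _)

theorem desc_irreducible {π : G →* Γ} {ρ : Representation ℚ G V} [ρ.IsIrreducible]
    {ρ' : Representation ℚ Γ V} (h : ∀ g, ρ' (π g) = ρ g) : ρ'.IsIrreducible := by
  have := nontrivial_of_irr ρ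
  apply irreducible_of_cases
  intro W hW
  apply irr_cases ρ
  intro g w hw
  rw [← h]
  exact hW _ _ hw

theorem desc_pow {π : G →* Γ} {ρ : Representation ℚ G V}
    {ρ' : Representation ℚ Γ V} (h : ∀ g, ρ' (π g) = ρ g) {m : ℕ} (hP : Pow m ρ) : Pow m ρ' := by
  obtain ⟨v, hv⟩ := hP
  refine ⟨v, fun x => ?_⟩
  obtain ⟨a, ha⟩ := hv x
  have key : ∀ a : MonoidAlgebra ℚ G, ∃ b : MonoidAlgebra ℚ Γ,
      ρ'.asAlgebraHom b = ρ.asAlgebraHom a := by
    intro a
    refine MonoidAlgebra.induction_on (motive := fun a => ∃ b : MonoidAlgebra ℚ Γ,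
      ρ'.asAlgebraHom b = ρ.asAlgebraHom a) a ?_ ?_ ?_
    · intro g
      refine ⟨el (π g), ?_⟩
      show ρ'.asAlgebraHom (el (π g)) = ρ.asAlgebraHom (el g)
      rw [asAlg_el, asAlg_el, h]
    · rintro x y ⟨a, ha⟩ ⟨b, hb⟩
      exact ⟨a + b, by rw [map_add, map_add, ha, hb]⟩
    · rintro r x ⟨a, ha⟩
      exact ⟨r • a, by rw [map_smul, map_smul, ha]⟩
  obtain ⟨b, hb⟩ := key a
  exact ⟨b, fun j => by rw [hb, ha]⟩

end quot

section field

variable {N : Type} [Field N] [NumberField N] [IsGalois ℚ N]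

theorem pow_of_hasPower {m : ℕ} (ρ : Representation ℚ (N ≃ₐ[ℚ] N) V) (h : HasPower N N m ρ) :
    Pow m ρ := by
  classical
  obtain ⟨f, hf, he⟩ := h
  let δ : (N →ₐ[ℚ] N) → ((N →ₐ[ℚ] N) → ℚ) := fun τ => Pi.single τ 1
  have hδ : ∀ g : N ≃ₐ[ℚ] N, charRep N N g (δ (AlgHom.id ℚ N)) = δ (g : N →ₐ[ℚ] N) := by
    intro g
    funext τ
    rw [charRep_apply]
    show (Pi.single (AlgHom.id ℚ N) 1 : (N →ₐ[ℚ] N) → ℚ) _ =
      (Pi.single (g : N →ₐ[ℚ] N) 1 : (N →ₐ[ℚ] N) → ℚ) _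
    by_cases h : τ = (g : N →ₐ[ℚ] N)
    · have h1 : ((g⁻¹ : N ≃ₐ[ℚ] N) : N →ₐ[ℚ] N).comp τ = AlgHom.id ℚ N := by
        ext x
        rw [h]
        show g⁻¹ (g x) = x
        rw [← AlgEquiv.mul_apply, inv_mul_cancel, AlgEquiv.one_apply]
      rw [h1, h, Pi.single_eq_same, Pi.single_eq_same]
    · have h1 : ((g⁻¹ : N ≃ₐ[ℚ] N) : N →ₐ[ℚ] N).comp τ ≠ AlgHom.id ℚ N := by
        intro h1
        apply h
        ext x
        have h2 : g⁻¹ (τ x) = x := congrArg (fun f : N →ₐ[ℚ] N => f x) h1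
        show τ x = g x
        rw [← h2, ← AlgEquiv.mul_apply, mul_inv_cancel, AlgEquiv.one_apply, h2]
      rw [Pi.single_eq_of_ne h1, Pi.single_eq_of_ne h]
  refine ⟨fun j => f (δ (AlgHom.id ℚ N)) j, fun x => ?_⟩
  obtain ⟨y, rfl⟩ := hf x
  refine ⟨∑ g : N ≃ₐ[ℚ] N, y (g : N →ₐ[ℚ] N) • el g, fun j => ?_⟩
  have hy : y = ∑ g : N ≃ₐ[ℚ] N, y (g : N →ₐ[ℚ] N) • δ (g : N →ₐ[ℚ] N) := by
    have h1 : y = ∑ τ : N →ₐ[ℚ] N, y τ • δ τ := by
      funext τ
      rw [Finset.sum_apply]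
      simp [δ, Pi.single_apply]
    have h2 : ∑ g : N ≃ₐ[ℚ] N, y (g : N →ₐ[ℚ] N) • δ (g : N →ₐ[ℚ] N) =
        ∑ τ : N →ₐ[ℚ] N, y τ • δ τ :=
      Fintype.sum_equiv (algEquivEquivAlgHom ℚ N).toEquiv _ _ fun g => rfl
    rw [h2]
    exact h1
  rw [map_sum, LinearMap.sum_apply]
  conv_rhs => rw [hy, map_sum, Finset.sum_apply]
  refine Finset.sum_congr rfl fun g _ => ?_
  rw [map_smul, LinearMap.smul_apply, asAlg_el, ← he, hδ, map_smul, Pi.smul_apply]

theorem nmf_of_groupNMF (h : GroupNMF (N ≃ₐ[ℚ] N)) (c : N ≃ₐ[ℚ] N) :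
    NearlyMultiplicityFree N N c where
  no_three V _ _ ρ h1 _ h3 := by
    have h3' := pow_of_hasPower ρ h3
    have h2' : Pow 2 ρ := by
      obtain ⟨v, hv⟩ := h3'
      refine ⟨fun j => v (Fin.castSucc j), fun x => ?_⟩
      obtain ⟨a, ha⟩ := hv (Fin.snoc (α := fun _ => V) x 0)
      refine ⟨a, fun j => ?_⟩
      rw [ha, Fin.snoc_castSucc]
    exact h.no_three V ρ h1 h2' h3'
  scalar V _ _ ρ h1 _ h2 := h.scalar V ρ h1 (pow_of_hasPower ρ h2)
  unique V V' _ _ _ _ ρ ρ' h1 h1' _ _ h2 h2' :=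
    h.unique V V' ρ ρ' h1 h1' (pow_of_hasPower ρ h2) (pow_of_hasPower ρ' h2')

theorem pow_two_of_three (ρ : Representation ℚ G V) (h3' : Pow 3 ρ) : Pow 2 ρ := by
  obtain ⟨v, hv⟩ := h3'
  refine ⟨fun j => v (Fin.castSucc j), fun x => ?_⟩
  obtain ⟨a, ha⟩ := hv (Fin.snoc (α := fun _ => V) x 0)
  refine ⟨a, fun j => ?_⟩
  rw [ha, Fin.snoc_castSucc]

theorem nmf_of_quotient {Γ : Type} [Group Γ] (h : GroupNMF Γ) {c : N ≃ₐ[ℚ] N} (hc : c * c = 1)
    (π : (N ≃ₐ[ℚ] N) →* Γ) (hπ : Function.Surjective π) (hker : π.ker = Subgroup.zpowers c) :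
    NearlyMultiplicityFree N N c := by
  have hcen := central_of_ker hc π hker
  have hdesc : ∀ (V : Type) [AddCommGroup V] [Module ℚ V] (ρ : Representation ℚ (N ≃ₐ[ℚ] N) V)
      [ρ.IsIrreducible], (∃ v, v ≠ 0 ∧ ρ c v = v) →
      ∃ ρ' : Representation ℚ Γ V, ∀ g, ρ' (π g) = ρ g := by
    intro V _ _ ρ _ hv
    apply exists_desc π ρ _ hπ
    obtain ⟨v, hv0, hv⟩ := hv
    have h1 : ρ c - LinearMap.id = 0 := by
      apply central_zero ρ _ _ hv0
      · rw [LinearMap.sub_apply, hv, LinearMap.id_apply, sub_self]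
      · intro g w
        have e1 : ρ c (ρ g w) = ρ g (ρ c w) := by
          rw [← Module.End.mul_apply, ← Module.End.mul_apply, ← map_mul, ← map_mul, hcen]
        rw [LinearMap.sub_apply, LinearMap.sub_apply, map_sub, e1]
        rfl
    have h2 : ρ c = 1 := sub_eq_zero.mp h1
    intro g hg
    have h3 : g ∈ π.ker := hg
    rw [hker] at h3
    rcases mem_zpowers_invol hc h3 with h4 | h4
    · rw [h4, map_one]
    · rw [h4, h2]
  refine ⟨?_, ?_, ?_⟩
  · intro V _ _ ρ h1 h2 h3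
    obtain ⟨ρ', hρ'⟩ := hdesc V ρ h2
    have h3' := pow_of_hasPower ρ h3
    exact h.no_three V ρ' (desc_irreducible hρ') (desc_pow hρ' (pow_two_of_three ρ h3'))
      (desc_pow hρ' h3')
  · intro V _ _ ρ h1 h2 h3 α hα
    obtain ⟨ρ', hρ'⟩ := hdesc V ρ h2
    refine h.scalar V ρ' (desc_irreducible hρ') (desc_pow hρ' (pow_of_hasPower ρ h3)) α ?_
    intro γ v
    obtain ⟨g, rfl⟩ := hπ γ
    rw [hρ', hα]
  · intro V V' _ _ _ _ ρ τ h1 h1' h2 h2' h3 h3'
    obtain ⟨ρ', hρ'⟩ := hdesc V ρ h2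
    obtain ⟨τ', hτ'⟩ := hdesc V' τ h2'
    obtain ⟨e, he⟩ := h.unique V V' ρ' τ' (desc_irreducible hρ') (desc_irreducible hτ')
      (desc_pow hρ' (pow_of_hasPower ρ h3)) (desc_pow hτ' (pow_of_hasPower τ h3'))
    refine ⟨e, fun g v => ?_⟩
    rw [← hρ', ← hτ', he]

end field

end Pool.Agent.H447.Gal
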