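import Mathlib
import Pool.Agent.H447.Gal.Alg
import Pool.Agent.H447.Gen.NMF

set_option autoImplicit false
set_option linter.unusedSectionVars false

/-!
# The key representation of a nearly multiplicity free group algebra
-/

namespace Pool.Agent.H447.Gal

open MonoidAlgebra Module Pool.Agent.H447.Clo
open Pool.Agent.H447.Gen (idem idem_smul idem_mul idem_fixed sr sr_apply sr_irreducible ofComm)

section simple

variable {R : Type} [Ring R] {S : Type} [AddCommGroup S] [Module R S]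

/-- two vectors of a simple module, the second one obtained by an element of square zero -/
theorem dense_two [IsSimpleModule R S] (b : R) (s : S) (h1 : b • s ≠ 0) (h2 : b • (b • s) = 0)
    (x y : S) : ∃ a : R, a • s = x ∧ a • (b • s) = y := by
  have hs : s ≠ 0 := by
    rintro rfl
    exact h1 (smul_zero b)
  let f₀ : R →ₗ[R] S := LinearMap.toSpanSingleton R S s
  let f₁ : R →ₗ[R] S := LinearMap.toSpanSingleton R S (b • s)
  have hf₀ : Function.Surjective f₀ := IsSimpleModule.toSpanSingleton_surjective R hs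
  rcases eq_bot_or_eq_top (Submodule.map f₁ (LinearMap.ker f₀)) with h | h
  · exfalso
    have hle : LinearMap.ker f₀ ≤ LinearMap.ker f₁ := by
      intro z hz
      have : f₁ z ∈ Submodule.map f₁ (LinearMap.ker f₀) := Submodule.mem_map_of_mem hz
      rw [h] at this
      exact (Submodule.mem_bot R).mp this
    let φ : S →ₗ[R] S := (LinearMap.ker f₀).liftQ f₁ hle ∘ₗ
      (f₀.quotKerEquivOfSurjective hf₀).symm.toLinearMap
    have hφ : ∀ a : R, φ (a • s) = a • (b • s) := by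
      intro a
      have e1 : (f₀.quotKerEquivOfSurjective hf₀).symm (a • s) = Submodule.Quotient.mk a := by
        rw [LinearEquiv.symm_apply_eq]
        rfl
      show (LinearMap.ker f₀).liftQ f₁ hle ((f₀.quotKerEquivOfSurjective hf₀).symm (a • s)) = _
      rw [e1]
      rfl
    have h3 : φ s = b • s := by
      have := hφ 1
      rwa [one_smul, one_smul] at this
    have h4 : φ (b • s) = 0 := by rw [hφ, h2]
    rcases LinearMap.injective_or_eq_zero φ with h5 | h5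
    · exact h1 (h5 (by rw [h4, map_zero]))
    · rw [h5, LinearMap.zero_apply] at h3
      exact h1 h3.symm
  · obtain ⟨a, ha⟩ := hf₀ x
    have h3 : y - f₁ a ∈ Submodule.map f₁ (LinearMap.ker f₀) := by
      rw [h]
      exact Submodule.mem_top
    obtain ⟨a', ha', ha''⟩ := h3
    refine ⟨a + a', ?_, ?_⟩
    · have e1 : f₀ a' = 0 := ha'
      show f₀ (a + a') = x
      rw [map_add, ha, e1, add_zero]
    · show f₁ (a + a') = y
      rw [map_add, ha'', add_sub_cancel]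

/-- Jacobson density if there are only scalar endomorphisms -/
theorem dense_three [Algebra ℚ R] [Module ℚ S] [IsScalarTower ℚ R S] [IsSimpleModule R S]
    (hsc : ∀ α : S →ₗ[R] S, ∃ r : ℚ, ∀ v, α v = r • v) {m : ℕ} (v : Fin m → S)
    (hv : LinearIndependent ℚ v) (x : Fin m → S) : ∃ a : R, ∀ j, a • v j = x j := by
  classical
  obtain ⟨L, hL⟩ : ∃ L : S →ₗ[ℚ] S, ∀ j, L (v j) = x j := by
    obtain ⟨L, hL⟩ := LinearMap.exists_extend ((Module.Basis.span hv).constr ℚ x :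
      Submodule.span ℚ (Set.range v) →ₗ[ℚ] S)
    refine ⟨L, fun j => ?_⟩
    have e1 := LinearMap.congr_fun hL ⟨v j, Submodule.subset_span ⟨j, rfl⟩⟩
    have e2 : (⟨v j, Submodule.subset_span ⟨j, rfl⟩⟩ : Submodule.span ℚ (Set.range v)) =
        Module.Basis.span hv j := by
      apply Subtype.ext
      rw [Module.Basis.span_apply]
    rw [e2, Module.Basis.constr_basis] at e1
    rw [← e1, ← e2]
    rfl
  let f : Module.End (Module.End R S) S :=
    { toFun := L
      map_add' := map_add L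
      map_smul' := fun α s => by
        obtain ⟨r, hr⟩ := hsc α
        show L (α s) = α (L s)
        rw [hr, hr, map_smul] }
  obtain ⟨a, ha⟩ := jacobson_density f (Finset.univ.image v)
  refine ⟨a, fun j => ?_⟩
  rw [← ha (v j) (Finset.mem_image_of_mem _ (Finset.mem_univ j))]
  exact hL j

end simple


section field

variable {N : Type} [Field N] [NumberField N] [IsGalois ℚ N]

/-- simultaneous density gives powers in the character module -/
theorem hasPower_of_dense {m : ℕ} (S : Submodule (MonoidAlgebra ℚ (N ≃ₐ[ℚ] N))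
    (MonoidAlgebra ℚ (N ≃ₐ[ℚ] N))) (v : Fin m → S)
    (hv : ∀ x : Fin m → S, ∃ a : MonoidAlgebra ℚ (N ≃ₐ[ℚ] N), ∀ j, a • v j = x j) :
    HasPower N N m (V := S) (sr S) := by
  classical
  let F : ((N →ₐ[ℚ] N) → ℚ) →ₗ[ℚ] (Fin m → S) :=
    { toFun := fun x j => ∑ g : N ≃ₐ[ℚ] N, x (g : N →ₐ[ℚ] N) • (el g • v j)
      map_add' := fun x y => by
        funext j
        show ∑ g : N ≃ₐ[ℚ] N, (x (g : N →ₐ[ℚ] N) + y (g : N →ₐ[ℚ] N)) • (el g • v j) =
          ∑ g : N ≃ₐ[ℚ] N, x (g : N →ₐ[ℚ] N) • (el g • v j) +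
          ∑ g : N ≃ₐ[ℚ] N, y (g : N →ₐ[ℚ] N) • (el g • v j)
        rw [← Finset.sum_add_distrib]
        exact Finset.sum_congr rfl fun g _ => add_smul _ _ _
      map_smul' := fun r x => by
        funext j
        show ∑ g : N ≃ₐ[ℚ] N, (r * x (g : N →ₐ[ℚ] N)) • (el g • v j) =
          r • ∑ g : N ≃ₐ[ℚ] N, x (g : N →ₐ[ℚ] N) • (el g • v j)
        rw [Finset.smul_sum]
        exact Finset.sum_congr rfl fun g _ => mul_smul _ _ _ }
  refine ⟨F, ?_, ?_⟩
  · intro x
    obtain ⟨a, ha⟩ := hv x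
    refine ⟨fun σ => a.coeff ((algEquivEquivAlgHom ℚ N).symm σ), ?_⟩
    funext j
    show ∑ g : N ≃ₐ[ℚ] N, a.coeff ((algEquivEquivAlgHom ℚ N).symm (g : N →ₐ[ℚ] N)) •
      (el g • v j) = x j
    rw [← ha j]
    have e1 : ∀ g : N ≃ₐ[ℚ] N, (algEquivEquivAlgHom ℚ N).symm (g : N →ₐ[ℚ] N) = g := by
      intro g
      rw [MulEquiv.symm_apply_eq]
      rfl
    have e2 : a = ∑ g : N ≃ₐ[ℚ] N, a.coeff g • el g := by
      apply MonoidAlgebra.ext
      ext h
      rw [MonoidAlgebra.coeff_sum, Finsupp.finset_sum_apply]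
      have e3 : ∀ g : N ≃ₐ[ℚ] N, (a.coeff g • el g).coeff h = if g = h then a.coeff g else 0 := by
        intro g
        rw [MonoidAlgebra.smul_single, MonoidAlgebra.coeff_single_apply, smul_eq_mul, mul_one]
      rw [Finset.sum_congr rfl fun g _ => e3 g, Finset.sum_ite_eq' Finset.univ h,
        if_pos (Finset.mem_univ h)]
    conv_rhs => rw [e2]
    rw [Finset.sum_smul]
    refine Finset.sum_congr rfl fun g _ => ?_
    rw [e1, smul_assoc]
  · intro g x j
    show ∑ h : N ≃ₐ[ℚ] N, charRep N N g x (h : N →ₐ[ℚ] N) • (el h • v j) =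
      el g • ∑ h : N ≃ₐ[ℚ] N, x (h : N →ₐ[ℚ] N) • (el h • v j)
    rw [Finset.smul_sum]
    refine Fintype.sum_equiv (Equiv.mulLeft g⁻¹) _ _ fun h => ?_
    show x (((g⁻¹ : N ≃ₐ[ℚ] N) : N →ₐ[ℚ] N).comp (h : N →ₐ[ℚ] N)) • (el h • v j) =
      el g • (x ((g⁻¹ * h : N ≃ₐ[ℚ] N) : N →ₐ[ℚ] N) • (el (g⁻¹ * h) • v j))
    rw [smul_comm (el g), ← mul_smul (el g), ← el_mul, mul_inv_cancel_left]
    rfl

theorem exists_fixed' {c : N ≃ₐ[ℚ] N} (hc : c * c = 1) {S : Submodule
    (MonoidAlgebra ℚ (N ≃ₐ[ℚ] N)) (MonoidAlgebra ℚ (N ≃ₐ[ℚ] N))} {b : MonoidAlgebra ℚ (N ≃ₐ[ℚ] N)}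
    (hb : b * idem c = b) {s : S} (hs : b • s ≠ 0) : ∃ v : S, v ≠ 0 ∧ sr S c v = v := by
  refine ⟨idem c • s, ?_, ?_⟩
  · intro h
    apply hs
    rw [← hb, mul_smul, h, smul_zero]
  · rw [sr_apply]
    exact (idem_fixed (Z := S)).mp (by rw [← mul_smul, idem_mul c hc])

/-- an element of square zero acts nontrivially on simple modules of multiplicity two only -/
theorem hasPower_two_of (S : Submodule (MonoidAlgebra ℚ (N ≃ₐ[ℚ] N))
    (MonoidAlgebra ℚ (N ≃ₐ[ℚ] N))) [IsSimpleModule (MonoidAlgebra ℚ (N ≃ₐ[ℚ] N)) S]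
    {b : MonoidAlgebra ℚ (N ≃ₐ[ℚ] N)} (hb : b * b = 0) {s : S} (hs : b • s ≠ 0) :
    HasPower N N 2 (V := S) (sr S) := by
  apply hasPower_of_dense S ![s, b • s]
  intro x
  obtain ⟨a, h1, h2⟩ := dense_two b s hs (by rw [← mul_smul, hb, zero_smul]) (x 0) (x 1)
  refine ⟨a, fun j => ?_⟩
  fin_cases j
  · exact h1
  · exact h2

instance instSS : IsSemisimpleRing (MonoidAlgebra ℚ (N ≃ₐ[ℚ] N)) := by
  have : NeZero (Nat.card (N ≃ₐ[ℚ] N) : ℚ) := ⟨by exact_mod_cast Nat.card_pos.ne'⟩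
  infer_instance

/-- an element which acts as zero on all simple left ideals is zero -/
theorem eq_zero_of_simple {y : MonoidAlgebra ℚ (N ≃ₐ[ℚ] N)}
    (hy : ∀ T : Submodule (MonoidAlgebra ℚ (N ≃ₐ[ℚ] N)) (MonoidAlgebra ℚ (N ≃ₐ[ℚ] N)),
      IsSimpleModule (MonoidAlgebra ℚ (N ≃ₐ[ℚ] N)) T → ∀ z ∈ T, y * z = 0) : y = 0 := by
  have h1 : (1 : MonoidAlgebra ℚ (N ≃ₐ[ℚ] N)) ∈ sSup { m : Submodule
      (MonoidAlgebra ℚ (N ≃ₐ[ℚ] N)) (MonoidAlgebra ℚ (N ≃ₐ[ℚ] N)) |
      IsSimpleModule (MonoidAlgebra ℚ (N ≃ₐ[ℚ] N)) m } := by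
    rw [IsSemisimpleModule.sSup_simples_eq_top]
    exact Submodule.mem_top
  have h2 : ∀ z ∈ sSup { m : Submodule
      (MonoidAlgebra ℚ (N ≃ₐ[ℚ] N)) (MonoidAlgebra ℚ (N ≃ₐ[ℚ] N)) |
      IsSimpleModule (MonoidAlgebra ℚ (N ≃ₐ[ℚ] N)) m }, y * z = 0 := by
    intro z hz
    rw [sSup_eq_iSup'] at hz
    refine Submodule.iSup_induction _ (motive := fun z => y * z = 0) hz ?_ (mul_zero y) ?_
    · rintro ⟨T, hT⟩ z hz
      exact hy T hT z hz
    · intro a b ha hb
      rw [mul_add, ha, hb, add_zero]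
  have h3 := h2 1 h1
  rwa [mul_one] at h3

/-- **Extraction.** -/
theorem exists_key {c : N ≃ₐ[ℚ] N} (hc : c * c = 1) (hmf : NearlyMultiplicityFree N N c)
    {b₀ : MonoidAlgebra ℚ (N ≃ₐ[ℚ] N)} (h0 : b₀ ≠ 0) (hsq : b₀ * b₀ = 0)
    (hbc : b₀ * idem c = b₀) :
    ∃ ρ : (N ≃ₐ[ℚ] N) →* M2, Key (fun b => b * idem c = b) ρ := by
  classical
  -- the special simple module
  obtain ⟨S, hS, s₀, hs₀⟩ : ∃ S : Submodule (MonoidAlgebra ℚ (N ≃ₐ[ℚ] N))
      (MonoidAlgebra ℚ (N ≃ₐ[ℚ] N)), ∃ _ : IsSimpleModule (MonoidAlgebra ℚ (N ≃ₐ[ℚ] N)) S,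
      ∃ s : S, b₀ • s ≠ 0 := by
    by_contra hcon
    push Not at hcon
    apply h0
    apply eq_zero_of_simple
    intro T hT z hz
    have := hcon T hT ⟨z, hz⟩
    exact congrArg Subtype.val this
  have hfix := exists_fixed' hc hbc hs₀
  have hp2 := hasPower_two_of S hsq hs₀
  have hsc : ∀ α : S →ₗ[MonoidAlgebra ℚ (N ≃ₐ[ℚ] N)] S, ∃ r : ℚ, ∀ v, α v = r • v := by
    intro α
    exact hmf.scalar S (sr S) (sr_irreducible hS) hfix hp2 (α.restrictScalars ℚ) (fun g v => by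
      rw [sr_apply, sr_apply]
      exact α.map_smul _ _)
  have hfd : FiniteDimensional ℚ S := by
    have : FiniteDimensional ℚ (MonoidAlgebra ℚ (N ≃ₐ[ℚ] N)) :=
      Module.Finite.equiv (MonoidAlgebra.coeffLinearEquiv ℚ).symm
    exact FiniteDimensional.finiteDimensional_submodule (S.restrictScalars ℚ)
  have hdim : finrank ℚ S = 2 := by
    apply le_antisymm
    · by_contra hcon
      push Not at hcon
      apply hmf.no_three S (sr S) (sr_irreducible hS) hfix
      obtain ⟨v, hv⟩ := exists_linearIndependent_of_le_finrank (R := ℚ) (M := S) (n := 3) hcon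
      exact hasPower_of_dense S v (fun x => dense_three hsc v hv x)
    · by_contra hcon
      push Not at hcon
      have hs : s₀ ≠ 0 := by
        rintro rfl
        exact hs₀ (smul_zero b₀)
      have h1 : finrank ℚ S = 1 := by
        have : 0 < finrank ℚ S := Module.finrank_pos_iff.mpr ⟨⟨s₀, 0, hs⟩⟩
        omega
      obtain ⟨r, hr⟩ := (finrank_eq_one_iff_of_nonzero' s₀ hs).mp h1 (b₀ • s₀)
      have h2 : b₀ • (b₀ • s₀) = 0 := by rw [← mul_smul, hsq, zero_smul]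
      rw [← hr, smul_comm, ← hr, smul_smul] at h2
      have h3 := (smul_eq_zero.mp h2).resolve_right hs
      have h4 : r = 0 := mul_self_eq_zero.mp h3
      apply hs₀
      rw [← hr, h4, zero_smul]
  let B := finBasisOfFinrankEq ℚ S hdim
  let Φ : (S →ₗ[ℚ] S) ≃ₐ[ℚ] M2 := LinearMap.toMatrixAlgEquiv B
  let ρ : (N ≃ₐ[ℚ] N) →* M2 := (Φ : (S →ₗ[ℚ] S) →* M2).comp (sr S)
  have hρ : ∀ g, ρ g = Φ (sr S g) := fun g => rfl
  have hlift : ∀ y : MonoidAlgebra ℚ (N ≃ₐ[ℚ] N),
      MonoidAlgebra.lift ℚ M2 (N ≃ₐ[ℚ] N) ρ y = Φ (Algebra.lsmul ℚ ℚ S y) := by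
    intro y
    have h1 : MonoidAlgebra.lift ℚ M2 (N ≃ₐ[ℚ] N) ρ =
        (Φ : (S →ₗ[ℚ] S) →ₐ[ℚ] M2).comp (Algebra.lsmul ℚ ℚ S) := by
      apply MonoidAlgebra.algHom_ext
      · intro g
        rw [MonoidAlgebra.lift_single, one_smul]
        rfl
      · exact AlgHom.ext fun r => (AlgHom.commutes _ r).trans (AlgHom.commutes _ r).symm
    rw [h1]
    rfl
  refine ⟨ρ, ⟨?_, ?_⟩⟩
  · intro A hA
    obtain ⟨α, rfl⟩ := Φ.surjective A
    have h1 : ∀ g v, α (sr S g v) = sr S g (α v) := by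
      intro g v
      have h2 := hA g
      rw [hρ, ← map_mul, ← map_mul] at h2
      exact LinearMap.congr_fun (Φ.injective h2) v
    obtain ⟨r, hr⟩ := hmf.scalar S (sr S) (sr_irreducible hS) hfix hp2 α h1
    refine ⟨r, ?_⟩
    have h2 : α = r • 1 := LinearMap.ext fun v => hr v
    rw [h2, map_smul, map_one]
  · intro b x hb hP hl
    have hact : ∀ v : S, (b * x) • v = 0 := by
      rw [hlift] at hl
      have h1 : Algebra.lsmul ℚ ℚ S (b * x) = 0 := by
        apply Φ.injective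
        rw [hl, map_zero]
      intro v
      exact LinearMap.congr_fun h1 v
    apply eq_zero_of_simple
    intro T hT z hz
    by_cases hbT : ∃ t : T, b • t ≠ 0
    · obtain ⟨t, ht⟩ := hbT
      have hfixT := exists_fixed' hc hP ht
      have hpT := hasPower_two_of T hb ht
      obtain ⟨e, he⟩ := hmf.unique S T (sr S) (sr T) (sr_irreducible hS) (sr_irreducible hT)
        hfix hfixT hp2 hpT
      let E := ofComm (S := S) (T := T) e.toLinearMap he
      obtain ⟨s, hs⟩ := e.surjective ⟨z, hz⟩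
      have h1 : E ((b * x) • s) = (b * x) • E s := E.map_smul _ _
      have h2 : E s = (⟨z, hz⟩ : T) := hs
      rw [hact, map_zero, h2] at h1
      exact (congrArg Subtype.val h1).symm
    · push Not at hbT
      have h1 := hbT ⟨x * z, T.smul_mem x hz⟩
      have h2 := congrArg Subtype.val h1
      rw [mul_assoc]
      exact h2

end field

end Pool.Agent.H447.Gal
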