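import Mathlib
import Pool.Agent.H447.Gal.Exc2
import Pool.Agent.H447.Gal.Extract
import Pool.Agent.H447.Gal.Quot

set_option autoImplicit false
set_option linter.unusedSectionVars false

/-!
# The classification
-/

namespace Pool.Agent.H447.Gal

open MonoidAlgebra Module Pool.Agent.H447.Clo
open Pool.Agent.H447.Gen (idem idem_smul idem_mul idem_fixed)

/-- The list of the finite groups `G` with an element `c`, `c ^ 2 = 1`: either `c` generates a
normal subgroup (so it is central) and the rational group algebra of the quotient `Γ` has no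
nilpotent elements or the quotient is one of the groups `S_3`, `D_4`, `C_3 ⋊ C_4`, `C_4 ⋊ C_4`,
`Q_16`, or `c` is not central and `G` is `S_3` or `D_4`. -/
def Listed (G : Type) [Group G] (c : G) : Prop :=
  (∃ (Γ : Type) (_ : Group Γ) (π : G →* Γ), Function.Surjective π ∧
    π.ker = Subgroup.zpowers c ∧ (IsReduced (MonoidAlgebra ℚ Γ) ∨ Exceptional Γ)) ∨
  ((∃ g, g * c ≠ c * g) ∧ (IsInvMeta G 3 2 0 ∨ IsInvMeta G 4 2 0))

variable {N : Type} [Field N] [NumberField N] [IsGalois ℚ N]

theorem nb_mul_idem {G : Type} [Group G] (c g : G) : nb c g * idem c = nb c g := by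
  unfold nb Pool.Agent.H447.Gen.idem
  rw [mul_smul_comm, mul_add, mul_one, mul_assoc _ (hs c)]
  have h : hs c * el c = hs c := hs_mul_el c
  have h' : (1 - el c) * el g * (hs c * Pool.Agent.H447.Gen.el c) =
      (1 - el c) * el g * hs c := congrArg (fun z => (1 - el c) * el g * z) h
  rw [h', ← two_smul ℚ, smul_smul]
  norm_num

theorem listed_of_nmf {c : N ≃ₐ[ℚ] N} (hc : c * c = 1) (h : NearlyMultiplicityFree N N c) :
    Listed (N ≃ₐ[ℚ] N) c := by
  by_cases hcen : ∃ g, g * c ≠ c * g
  · right
    refine ⟨hcen, ?_⟩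
    obtain ⟨g, hg⟩ := hcen
    have hg' : g⁻¹ * c * g ∉ Subgroup.zpowers c := by
      intro hmem
      rcases mem_zpowers_invol hc hmem with h | h
      · have : c = 1 := by
          have e : g * (g⁻¹ * c * g) * g⁻¹ = c := by group
          rw [h, mul_one, mul_inv_cancel] at e
          exact e.symm
        rw [this, mul_one, one_mul] at hg
        exact hg rfl
      · apply hg
        nth_rewrite 1 [← h]
        group
    obtain ⟨ρ, k⟩ := exists_key hc h (nb_ne_zero hg') (nb_sq c g) (nb_mul_idem c g)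
    exact exceptional_of_nonc hc (fun g => nb_mul_idem c g) k hg
  · left
    push Not at hcen
    have hnorm : (Subgroup.zpowers c).Normal := by
      refine ⟨fun x hx g => ?_⟩
      have : g * x * g⁻¹ = x := by
        rcases mem_zpowers_invol hc hx with rfl | rfl
        · group
        · rw [hcen, mul_inv_cancel_right]
      rw [this]
      exact hx
    refine ⟨(N ≃ₐ[ℚ] N) ⧸ Subgroup.zpowers c, inferInstance,
      QuotientGroup.mk' (Subgroup.zpowers c), QuotientGroup.mk'_surjective _,
      QuotientGroup.ker_mk' _, ?_⟩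
    exact classify_quotient hc (fun b₀ h1 h2 h3 => exists_key hc h h1 h2 h3)
      (QuotientGroup.mk' (Subgroup.zpowers c)) (QuotientGroup.mk'_surjective _)
      (QuotientGroup.ker_mk' _)

theorem nmf_of_listed {c : N ≃ₐ[ℚ] N} (hc : c * c = 1) (h : Listed (N ≃ₐ[ℚ] N) c) :
    NearlyMultiplicityFree N N c := by
  rcases h with ⟨Γ, _, π, hπ, hker, h⟩ | ⟨-, h⟩
  · have : Finite Γ := Finite.of_surjective π hπ
    refine nmf_of_quotient ?_ hc π hπ hker
    rcases h with h | h
    · exact groupNMF_of_reduced h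
    · exact groupNMF_of_exceptional h
  · rcases h with h | h
    · exact nmf_of_groupNMF (groupNMF_32 h) c
    · exact nmf_of_groupNMF (groupNMF_42 h) c

theorem one_of_nmf (h : NearlyMultiplicityFree N N (1 : N ≃ₐ[ℚ] N)) :
    IsReduced (MonoidAlgebra ℚ (N ≃ₐ[ℚ] N)) ∨ Exceptional (N ≃ₐ[ℚ] N) :=
  classify_quotient (mul_one 1) (fun b₀ h1 h2 h3 => exists_key (mul_one 1) h h1 h2 h3)
    (MonoidHom.id _) Function.surjective_id (by
      rw [MonoidHom.ker_id, Subgroup.zpowers_one_eq_bot])

theorem nmf_of_one (h : IsReduced (MonoidAlgebra ℚ (N ≃ₐ[ℚ] N)) ∨ Exceptional (N ≃ₐ[ℚ] N)) :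
    NearlyMultiplicityFree N N (1 : N ≃ₐ[ℚ] N) := by
  apply nmf_of_groupNMF
  rcases h with h | h
  · exact groupNMF_of_reduced h
  · exact groupNMF_of_exceptional h

end Pool.Agent.H447.Gal
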